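import Pool.Agent.Lib.MP_904b2a_gt.H83.Form

/-!
# MP_904b2a_gt: squares of subsets; the cohomology of `X × ℂ^*`
-/

open scoped BigOperators
open Set Topology

namespace Pool.Agent.Lib.MP_904b2a_gt.H83

noncomputable section

/-- The inclusion of subsets. -/
abbrev incl {X : Type*} [TopologicalSpace X] {A B : Set X} (h : A ⊆ B) : C(A, B) :=
  ⟨Set.inclusion h, continuous_inclusion h⟩

/-- The square of two open subsets. -/
theorem MVSq.sub {X : Type*} [TopologicalSpace X] {I U W V : Set X} (hU : IsOpen U)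
    (hW : IsOpen W) (h1 : I ⊆ U) (h2 : I ⊆ W) (h3 : U ⊆ V) (h4 : W ⊆ V) (hV : V ⊆ U ∪ W)
    (hI : U ∩ W ⊆ I) : MVSq (incl h1) (incl h2) (incl h3) (incl h4) where
  comm := rfl
  openU := by
    have hVo : IsOpen V := by
      rw [subset_antisymm hV (union_subset h3 h4)]
      exact hU.union hW
    exact IsOpenEmbedding.of_comp _ hVo.isOpenEmbedding_subtypeVal
      hU.isOpenEmbedding_subtypeVal
  openW := by
    have hVo : IsOpen V := by
      rw [subset_antisymm hV (union_subset h3 h4)]
      exact hU.union hW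
    exact IsOpenEmbedding.of_comp _ hVo.isOpenEmbedding_subtypeVal
      hW.isOpenEmbedding_subtypeVal
  embI := IsEmbedding.inclusion (h1.trans h3)
  cover := by
    rintro ⟨x, hx⟩
    rcases hV hx with h | h
    · exact Or.inl ⟨⟨x, h⟩, rfl⟩
    · exact Or.inr ⟨⟨x, h⟩, rfl⟩
  inter := by
    rintro _ ⟨⟨⟨x, hx⟩, rfl⟩, ⟨⟨x', hx'⟩, h⟩⟩
    have h' : x' = x := congrArg Subtype.val h
    subst h'
    exact ⟨⟨x', hI ⟨hx, hx'⟩⟩, rfl⟩

/-- The inclusion of a subset into the space. -/
abbrev sval {X : Type*} [TopologicalSpace X] (A : Set X) : C(A, X) :=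
  ⟨Subtype.val, continuous_subtype_val⟩

/-- The square of two open subsets which cover the space. -/
theorem MVSq.univ {X : Type*} [TopologicalSpace X] {I U W : Set X} (hU : IsOpen U)
    (hW : IsOpen W) (h1 : I ⊆ U) (h2 : I ⊆ W) (hV : ∀ x, x ∈ U ∨ x ∈ W)
    (hI : U ∩ W ⊆ I) : MVSq (incl h1) (incl h2) (sval U) (sval W) where
  comm := rfl
  openU := hU.isOpenEmbedding_subtypeVal
  openW := hW.isOpenEmbedding_subtypeVal
  embI := IsEmbedding.subtypeVal
  cover := by
    intro x
    rcases hV x with h | h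
    · exact Or.inl ⟨⟨x, h⟩, rfl⟩
    · exact Or.inr ⟨⟨x, h⟩, rfl⟩
  inter := by
    rintro _ ⟨⟨⟨x, hx⟩, rfl⟩, ⟨⟨x', hx'⟩, h⟩⟩
    have h' : x' = x := h
    subst h'
    exact ⟨⟨x', hI ⟨hx, hx'⟩⟩, rfl⟩

/-- Star-shaped sets are cohomologically points. -/
theorem PtLike.of_starConvex {E : Type} [AddCommGroup E] [Module ℝ E] [TopologicalSpace E]
    [ContinuousAdd E] [ContinuousSMul ℝ E] {A : Set E} {a : E} (ha : a ∈ A)
    (h : StarConvex ℝ a A) : PtLike A := by
  refine PtLike.of_homotopic ⟨a, ha⟩ ?_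
  have hmem : ∀ p : unitInterval × A, (1 - (p.1 : ℝ)) • a + (p.1 : ℝ) • (p.2 : E) ∈ A := by
    intro p
    exact h p.2.2 (by linarith [p.1.2.2]) p.1.2.1 (by ring)
  refine ⟨{ toFun := fun p => ⟨(1 - (p.1 : ℝ)) • a + (p.1 : ℝ) • (p.2 : E), hmem p⟩
            continuous_toFun := ?_
            map_zero_left := fun x => ?_
            map_one_left := fun x => ?_ }⟩
  · refine Continuous.subtype_mk ?_ _
    fun_prop
  · apply Subtype.ext
    simp
  · apply Subtype.ext
    simp

/-! ## `ℂ^*` -/

/-- The punctured plane. -/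
def Cst : Set ℂ := {z | z ≠ 0}

/-- The non-real numbers. -/
def Cnr : Set ℂ := {z | z.im ≠ 0}

theorem exists_split_Cnr : ∃ k : H 0 Cnr ℤ, Split2 Cnr (T.of 0 k) := by
  set A : Set ℂ := {z | 0 < z.im} with hA
  set B : Set ℂ := {z | z.im < 0} with hB
  have hAo : IsOpen A := isOpen_lt continuous_const Complex.continuous_im
  have hBo : IsOpen B := isOpen_lt Complex.continuous_im continuous_const
  have h3 : A ⊆ Cnr := fun z hz => (ne_of_gt hz : z.im ≠ 0)
  have h4 : B ⊆ Cnr := fun z hz => (ne_of_lt hz : z.im ≠ 0)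
  have S : MVSq (incl (empty_subset A)) (incl (empty_subset B)) (incl h3) (incl h4) := by
    refine MVSq.sub hAo hBo (empty_subset A) (empty_subset B) h3 h4 ?_ ?_
    · intro z hz
      rcases lt_or_gt_of_ne (show z.im ≠ 0 from hz) with h | h
      · exact Or.inr h
      · exact Or.inl h
    · rintro z ⟨h1, h2⟩
      exact absurd (show 0 < z.im from h1) (not_lt_of_gt (show z.im < 0 from h2))
  have hPA : PtLike A := by
    refine PtLike.of_starConvex (a := Complex.I) (by simp [hA]) ?_
    have hc : Convex ℝ A := convex_halfSpace_im_gt 0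
    exact hc.starConvex (by simp [hA])
  have hPB : PtLike B := by
    refine PtLike.of_starConvex (a := -Complex.I) (by simp [hB]) ?_
    have hc : Convex ℝ B := convex_halfSpace_im_lt 0
    exact hc.starConvex (by simp [hB])
  obtain ⟨k, hk1, hk2⟩ := MV.exact_UW S (n := 0) (u := (H.one : H 0 A ℤ)) (w := (0 : H 0 B ℤ))
    (by
      have h : ∀ a b : H 0 (∅ : Set ℂ) ℤ, a = b := by
        intro a b
        have ha := congrFun (T.eq_zero_of_isEmpty (T.of 0 a)) 0
        have hb := congrFun (T.eq_zero_of_isEmpty (T.of 0 b)) 0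
        rw [T.of_self] at ha hb
        rw [ha, hb]
      exact h _ _)
  refine ⟨k, Split2.two S hPA hPB ?_ ?_⟩
  · rw [T.map_of, hk1]
    rfl
  · rw [T.map_of, hk2, map_zero]

theorem exists_split_Cst : ∃ θ : H 1 Cst ℤ, Split2 Cst (T.of 1 θ) := by
  obtain ⟨k, hk⟩ := exists_split_Cnr
  set A : Set ℂ := Complex.slitPlane with hA
  set B : Set ℂ := {z | -z ∈ Complex.slitPlane} with hB
  have hAo : IsOpen A := Complex.isOpen_slitPlane
  have hBo : IsOpen B := Complex.isOpen_slitPlane.preimage continuous_neg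
  have h1 : Cnr ⊆ A := fun z hz => Or.inr hz
  have h2 : Cnr ⊆ B := fun z hz => Or.inr (by
    rw [Complex.neg_im]
    exact neg_ne_zero.2 hz)
  have h3 : A ⊆ Cst := fun z hz => Complex.slitPlane_ne_zero hz
  have h4 : B ⊆ Cst := fun z hz => neg_ne_zero.1 (Complex.slitPlane_ne_zero hz)
  have S : MVSq (incl h1) (incl h2) (incl h3) (incl h4) := by
    refine MVSq.sub hAo hBo h1 h2 h3 h4 ?_ ?_
    · intro z hz
      by_cases him : z.im = 0
      · rcases lt_trichotomy z.re 0 with h | h | h
        · refine Or.inr (Or.inl ?_)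
          rw [Complex.neg_re]
          linarith
        · exact absurd (Complex.ext h him) hz
        · exact Or.inl (Or.inl h)
      · exact Or.inl (Or.inr him)
    · rintro z ⟨h1, h2⟩
      change z.im ≠ 0
      rcases h1 with h1 | h1
      · rcases h2 with h2 | h2
        · rw [Complex.neg_re] at h2
          linarith
        · rw [Complex.neg_im] at h2
          exact neg_ne_zero.1 h2
      · exact h1
  have hPA : PtLike A := PtLike.of_starConvex (a := 1) Complex.one_mem_slitPlane
    Complex.starConvex_one_slitPlane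
  have hPB : PtLike B := by
    refine PtLike.of_starConvex (a := -1) (by
      change -(-1 : ℂ) ∈ Complex.slitPlane
      rw [neg_neg]
      exact Complex.one_mem_slitPlane) ?_
    intro z hz a b ha hb hab
    change -(a • (-1 : ℂ) + b • z) ∈ Complex.slitPlane
    have h := Complex.starConvex_one_slitPlane (show -z ∈ Complex.slitPlane from hz) ha hb hab
    convert h using 1
    simp
    ring
  obtain ⟨θ, hθ⟩ := MV.exists S k
  exact ⟨θ, Split2.susp S hPA hPB hk (MVT.of hθ)⟩

end

end Pool.Agent.Lib.MP_904b2a_gt.H83
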