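import Pool.Agent.Lib.MP_904b2a_gt.H83.PCh
import Pool.Agent.Lib.MP_904b2a_gt.H1.Tr

/-!
# MP_904b2a_gt: Chern classes exist
-/

namespace Pool.Agent.Lib.MP_904b2a_gt

/-- **Existence of the Chern classes.** -/
theorem nonempty_chernTheory : Nonempty ChernTheory := Tr.transferStatement H83.pChern

end Pool.Agent.Lib.MP_904b2a_gt
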