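import Pool.Agent.Lib.MP_904b2a_gt.H83.CupAlg
import Pool.Agent.Lib.MP_904b2a_gt.Sums

/-!
# MP_904b2a_gt: graded commutativity of the cup product

By acyclic models, in the complex of ordered simplices of the full simplex.
-/

open scoped BigOperators
open Finset

namespace Pool.Agent.Lib.MP_904b2a_gt.H83

noncomputable section

/-! ## Ordered chains of the full simplex -/

/-- Ordered `k`-chains of the full simplex with vertices `0,…,m`. -/
abbrev OL (k m : ℕ) : Type := (Fin (k + 1) → Fin (m + 1)) →₀ ℤ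

/-- The boundary of ordered chains. -/
def obd (k m : ℕ) : OL (k + 1) m →ₗ[ℤ] OL k m :=
  Finsupp.linearCombination ℤ
    (fun f => ∑ i ∈ range (k + 2), (-1 : ℤ) ^ i • Finsupp.single (f ∘ fv k i) (1 : ℤ))

/-- The map of ordered chains given by a map of vertices. -/
def opush {m m' : ℕ} (k : ℕ) (g : Fin (m + 1) → Fin (m' + 1)) : OL k m →ₗ[ℤ] OL k m' :=
  Finsupp.linearCombination ℤ (fun f => Finsupp.single (g ∘ f) (1 : ℤ))

/-- The cone with vertex `0`. -/
def ocone (k m : ℕ) : OL k m →ₗ[ℤ] OL (k + 1) m :=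
  Finsupp.linearCombination ℤ (fun f => Finsupp.single (Fin.cons 0 f) (1 : ℤ))

theorem obd_single (k m : ℕ) (f : Fin (k + 2) → Fin (m + 1)) :
    obd k m (Finsupp.single f 1) =
      ∑ i ∈ range (k + 2), (-1 : ℤ) ^ i • Finsupp.single (f ∘ fv k i) (1 : ℤ) := by
  rw [obd, Finsupp.linearCombination_single, one_smul]

theorem opush_single {m m' : ℕ} (k : ℕ) (g : Fin (m + 1) → Fin (m' + 1))
    (f : Fin (k + 1) → Fin (m + 1)) :
    opush k g (Finsupp.single f 1) = Finsupp.single (g ∘ f) 1 := by
  rw [opush, Finsupp.linearCombination_single, one_smul]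

theorem ocone_single (k m : ℕ) (f : Fin (k + 1) → Fin (m + 1)) :
    ocone k m (Finsupp.single f 1) = Finsupp.single (Fin.cons 0 f) 1 := by
  rw [ocone, Finsupp.linearCombination_single, one_smul]

theorem cons_fv_zero {k m : ℕ} (f : Fin (k + 1) → Fin (m + 1)) :
    (Fin.cons 0 f : Fin (k + 2) → Fin (m + 1)) ∘ fv k 0 = f := by
  funext j
  simp [fv]

theorem cons_fv_succ {k m : ℕ} (i : ℕ) (f : Fin (k + 2) → Fin (m + 1)) :
    (Fin.cons 0 f : Fin (k + 3) → Fin (m + 1)) ∘ fv (k + 1) (i + 1) =
      Fin.cons 0 (f ∘ fv k i) := by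
  funext j
  refine Fin.cases ?_ (fun j => ?_) j
  · rw [Function.comp, Fin.cons_zero]
    have h : fv (k + 1) (i + 1) 0 = 0 := by
      apply Fin.ext
      rw [fv_val]
      simp
    rw [h, Fin.cons_zero]
  · rw [Function.comp, Fin.cons_succ, Function.comp]
    have h : fv (k + 1) (i + 1) j.succ = (fv k i j).succ := by
      apply Fin.ext
      rw [fv_val, Fin.val_succ, Fin.val_succ, fv_val]
      split_ifs <;> omega
    rw [h, Fin.cons_succ]

theorem obd_ocone (k m : ℕ) (z : OL (k + 1) m) :
    obd (k + 1) m (ocone (k + 1) m z) + ocone k m (obd k m z) = z := by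
  induction z using Finsupp.induction_linear with
  | zero => simp
  | add a b ha hb =>
    rw [map_add, map_add, map_add, map_add]
    calc _ = (obd (k + 1) m (ocone (k + 1) m a) + ocone k m (obd k m a)) +
        (obd (k + 1) m (ocone (k + 1) m b) + ocone k m (obd k m b)) := by abel
      _ = a + b := by rw [ha, hb]
  | single f c =>
    have hf : (Finsupp.single f c : OL (k + 1) m) = c • Finsupp.single f 1 := by
      rw [Finsupp.smul_single, smul_eq_mul, mul_one]
    rw [hf]
    simp only [map_smul]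
    rw [← smul_add]
    congr 1
    rw [ocone_single, obd_single, obd_single, map_sum, Finset.sum_range_succ']
    simp only [map_smul, ocone_single, cons_fv_succ, cons_fv_zero, pow_zero, one_smul]
    have h : ∀ i ∈ range (k + 2), (-1 : ℤ) ^ (i + 1) •
        Finsupp.single (Fin.cons 0 (f ∘ fv k i) : Fin (k + 2) → Fin (m + 1)) (1 : ℤ) =
        -((-1 : ℤ) ^ i •
          Finsupp.single (Fin.cons 0 (f ∘ fv k i) : Fin (k + 2) → Fin (m + 1)) (1 : ℤ)) := by
      intro i _
      rw [pow_succ]
      simp
    rw [Finset.sum_congr rfl h, Finset.sum_neg_distrib]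
    abel

theorem opush_obd {m m' : ℕ} (k : ℕ) (g : Fin (m + 1) → Fin (m' + 1)) (z : OL (k + 1) m) :
    obd k m' (opush (k + 1) g z) = opush k g (obd k m z) := by
  induction z using Finsupp.induction_linear with
  | zero => simp
  | add a b ha hb => rw [map_add, map_add, map_add, map_add, ha, hb]
  | single f c =>
    have hf : (Finsupp.single f c : OL (k + 1) m) = c • Finsupp.single f 1 := by
      rw [Finsupp.smul_single, smul_eq_mul, mul_one]
    rw [hf]
    simp only [map_smul]
    congr 1
    rw [opush_single, obd_single, obd_single, map_sum]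
    refine Finset.sum_congr rfl (fun i _ => ?_)
    rw [map_smul, opush_single]
    rfl

theorem opush_opush {m m' m'' : ℕ} (k : ℕ) (g : Fin (m + 1) → Fin (m' + 1))
    (g' : Fin (m' + 1) → Fin (m'' + 1)) (z : OL k m) :
    opush k g' (opush k g z) = opush k (g' ∘ g) z := by
  induction z using Finsupp.induction_linear with
  | zero => simp
  | add a b ha hb => rw [map_add, map_add, map_add, ha, hb]
  | single f c =>
    have hf : (Finsupp.single f c : OL k m) = c • Finsupp.single f 1 := by
      rw [Finsupp.smul_single, smul_eq_mul, mul_one]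
    rw [hf]
    simp only [map_smul]
    congr 1
    rw [opush_single, opush_single, opush_single]
    rfl

/-! ## Acyclic models -/

/-- The chain homotopies given by acyclic models. -/
def ohom (θ : ∀ n, OL n n) : ∀ n, OL (n + 1) n
  | 0 => 0
  | (n + 1) => ocone (n + 1) (n + 1)
      (θ (n + 1) - ∑ i ∈ range (n + 2), (-1 : ℤ) ^ i • opush (n + 1) (fv n i) (ohom θ n))

theorem obd_ohom (θ : ∀ n, OL n n) (h0 : θ 0 = 0)
    (hθ : ∀ n, obd n (n + 1) (θ (n + 1)) =
      ∑ i ∈ range (n + 2), (-1 : ℤ) ^ i • opush n (fv n i) (θ n)) (n : ℕ) :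
    obd (n + 1) (n + 1) (ohom θ (n + 1)) =
      θ (n + 1) - ∑ i ∈ range (n + 2), (-1 : ℤ) ^ i • opush (n + 1) (fv n i) (ohom θ n) := by
  have key : ∀ w : OL (n + 1) (n + 1), obd n (n + 1) w = 0 →
      obd (n + 1) (n + 1) (ocone (n + 1) (n + 1) w) = w := by
    intro w hw
    have h := obd_ocone n (n + 1) w
    rwa [hw, map_zero, add_zero] at h
  apply key
  rw [map_sub, hθ, map_sum]
  simp only [map_smul, opush_obd]
  cases n with
  | zero =>
    rw [h0]
    simp [ohom]
  | succ n =>
    have ih := obd_ohom θ h0 hθ n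
    rw [ih]
    simp only [map_sub, map_sum, smul_sub, Finset.sum_sub_distrib, sub_sub_cancel]
    have h := face_sum (n + 1)
      (fun i j => opush (n + 1) (fv (n + 1) j ∘ fv n i) (ohom θ n))
      (fun i j hij hj => by
        rw [fv_fv n i j hij hj])
    rw [← h]
    refine Finset.sum_congr rfl (fun j _ => ?_)
    rw [Finset.smul_sum]
    refine Finset.sum_congr rfl (fun i _ => ?_)
    rw [map_smul, opush_opush, smul_smul, ← pow_add, add_comm j i]

/-! ## Operators on cochains -/

section Op

variable {X : Type*} [TopologicalSpace X] {A : Type*} [AddCommGroup A]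

/-- Evaluation of a cochain on the image of an ordered chain under a singular simplex. -/
def oev {n : ℕ} (k : ℕ) (φ : Coch k X A) (σ : C(Simp n, X)) : OL k n →ₗ[ℤ] A :=
  Finsupp.linearCombination ℤ (fun f => φ (σ.comp (smap f)))

theorem oev_single {n : ℕ} (k : ℕ) (φ : Coch k X A) (σ : C(Simp n, X))
    (f : Fin (k + 1) → Fin (n + 1)) :
    oev k φ σ (Finsupp.single f 1) = φ (σ.comp (smap f)) := by
  rw [oev, Finsupp.linearCombination_single, one_smul]

theorem oev_opush {m m' : ℕ} (k : ℕ) (φ : Coch k X A) (σ : C(Simp m', X))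
    (g : Fin (m + 1) → Fin (m' + 1)) (z : OL k m) :
    oev k φ σ (opush k g z) = oev k φ (σ.comp (smap g)) z := by
  induction z using Finsupp.induction_linear with
  | zero => simp
  | add a b ha hb => rw [map_add, map_add, map_add, ha, hb]
  | single f c =>
    have hf : (Finsupp.single f c : OL k m) = c • Finsupp.single f 1 := by
      rw [Finsupp.smul_single, smul_eq_mul, mul_one]
    rw [hf]
    simp only [map_smul]
    congr 1
    rw [opush_single, oev_single, oev_single, ContinuousMap.comp_assoc, smap_comp]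

theorem oev_cob {m : ℕ} (k : ℕ) (φ : Coch k X A) (σ : C(Simp m, X)) (z : OL (k + 1) m) :
    oev (k + 1) (cob k φ) σ z = oev k φ σ (obd k m z) := by
  induction z using Finsupp.induction_linear with
  | zero => simp
  | add a b ha hb => rw [map_add, map_add, map_add, ha, hb]
  | single f c =>
    have hf : (Finsupp.single f c : OL (k + 1) m) = c • Finsupp.single f 1 := by
      rw [Finsupp.smul_single, smul_eq_mul, mul_one]
    rw [hf]
    simp only [map_smul]
    congr 1
    rw [oev_single, obd_single, map_sum, cob_apply]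
    refine Finset.sum_congr rfl (fun i _ => ?_)
    rw [map_smul, oev_single, ContinuousMap.comp_assoc, smap_comp]

/-- A natural chain map which is zero in degree `0` is zero on cohomology. -/
theorem oev_mem_coboundaries (θ : ∀ n, OL n n) (h0 : θ 0 = 0)
    (hθ : ∀ n, obd n (n + 1) (θ (n + 1)) =
      ∑ i ∈ range (n + 2), (-1 : ℤ) ^ i • opush n (fv n i) (θ n)) (n : ℕ)
    {φ : Coch n X A} (hφ : φ ∈ cocycles X A n) :
    (fun σ => oev n φ σ (θ n)) ∈ coboundaries X A n := by
  cases n with
  | zero =>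
    have h : (fun σ => oev 0 φ σ (θ 0)) = 0 := by
      funext σ
      rw [h0, map_zero]
      rfl
    rw [h]
    exact zero_mem _
  | succ n =>
    refine ⟨fun σ => oev (n + 1) φ σ (ohom θ n), ?_⟩
    funext σ
    rw [cob_apply]
    have h := congrArg (oev (n + 1) φ σ) (obd_ohom θ h0 hθ n)
    rw [← oev_cob, show cob (n + 1) φ = 0 from hφ, map_sub, map_sum] at h
    have h' : oev (n + 2) (0 : Coch (n + 2) X A) σ (ohom θ (n + 1)) = 0 := by
      have : oev (n + 2) (0 : Coch (n + 2) X A) σ = 0 := by
        ext f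
        simp [oev]
      rw [this, LinearMap.zero_apply]
    rw [h'] at h
    rw [eq_comm, sub_eq_zero] at h
    rw [h]
    refine Finset.sum_congr rfl (fun i _ => ?_)
    rw [map_smul, oev_opush]

/-! ## The reversal of simplices -/

/-- The reversal of the vertices. -/
def rv (n : ℕ) : Fin (n + 1) → Fin (n + 1) := Fin.rev

/-- The sign of the reversal of `n + 1` letters. -/
def eps : ℕ → ℤ
  | 0 => 1
  | (n + 1) => (-1) ^ (n + 1) * eps n

theorem eps_add (p q : ℕ) : eps (p + q) = (-1) ^ (p * q) * (eps p * eps q) := by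
  induction q with
  | zero => simp [eps]
  | succ q ih =>
    rw [← add_assoc, eps, ih, eps, Nat.mul_succ, pow_add (-1 : ℤ) (p * q) p,
      show p + q + 1 = p + (q + 1) by omega, pow_add (-1 : ℤ) p (q + 1)]
    ring

theorem eps_mul_self (n : ℕ) : eps n * eps n = 1 := by
  induction n with
  | zero => rfl
  | succ n ih =>
    rw [eps]
    calc (-1 : ℤ) ^ (n + 1) * eps n * ((-1) ^ (n + 1) * eps n)
        = ((-1) ^ (n + 1) * (-1) ^ (n + 1)) * (eps n * eps n) := by ring
      _ = 1 := by rw [ih, ← pow_add, mul_one, ← two_mul, pow_mul]; simp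

theorem fv_rv (n i : ℕ) (hi : i ≤ n + 1) : fv n i ∘ rv n = rv (n + 1) ∘ fv n (n + 1 - i) := by
  funext k
  apply Fin.ext
  have hk := k.2
  simp only [Function.comp, rv, fv_val, Fin.val_rev]
  split_ifs <;> omega

/-- The chain map (reversal) - (identity). -/
def oth (n : ℕ) : OL n n :=
  eps n • Finsupp.single (rv n) (1 : ℤ) - Finsupp.single id 1

theorem oth_zero : oth 0 = 0 := by
  have h : rv 0 = id := by
    funext k
    apply Fin.ext
    have h1 := k.2
    have h2 := (rv 0 k).2
    simp only [id]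
    omega
  rw [oth, h, eps, one_smul, sub_self]

theorem obd_oth (n : ℕ) : obd n (n + 1) (oth (n + 1)) =
    ∑ i ∈ range (n + 2), (-1 : ℤ) ^ i • opush n (fv n i) (oth n) := by
  simp only [oth, map_sub, map_smul, obd_single, opush_single, smul_sub, Finset.sum_sub_distrib]
  congr 1
  rw [Finset.smul_sum, ← Finset.sum_range_reflect]
  refine Finset.sum_congr rfl (fun i hi => ?_)
  have hi' : i ≤ n + 1 := Nat.lt_succ_iff.mp (mem_range.mp hi)
  rw [show n + 2 - 1 - i = n + 1 - i by omega, ← fv_rv n i hi', smul_smul, smul_smul, eps]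
  congr 1
  have h : (-1 : ℤ) ^ (n + 1) = (-1) ^ (n + 1 - i) * (-1) ^ i := by
    rw [← pow_add]
    congr 1
    omega
  have h2 : (-1 : ℤ) ^ (n + 1 - i) * (-1) ^ (n + 1 - i) = 1 := by
    rw [← pow_add, ← two_mul, pow_mul]
    simp
  rw [h]
  calc (-1 : ℤ) ^ (n + 1 - i) * (-1) ^ i * eps n * (-1) ^ (n + 1 - i)
      = ((-1) ^ (n + 1 - i) * (-1) ^ (n + 1 - i)) * ((-1) ^ i * eps n) := by ring
    _ = (-1) ^ i * eps n := by rw [h2, one_mul]

/-- The reversal operator on cochains. -/
def revC (n : ℕ) : Coch n X A →+ Coch n X A where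
  toFun φ σ := eps n • φ (σ.comp (smap (rv n)))
  map_zero' := by
    funext σ
    simp
  map_add' φ ψ := by
    funext σ
    simp [smul_add]

theorem revC_sub (n : ℕ) (φ : Coch n X A) :
    revC n φ - φ = fun σ => oev n φ σ (oth n) := by
  funext σ
  rw [oth, map_sub, map_smul, oev_single, oev_single, smap_id, ContinuousMap.comp_id]
  rfl

theorem revC_sub_mem {n : ℕ} {φ : Coch n X A} (hφ : φ ∈ cocycles X A n) :
    revC n φ - φ ∈ coboundaries X A n := by
  rw [revC_sub]
  exact oev_mem_coboundaries oth oth_zero obd_oth n hφ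

theorem revC_mem {n : ℕ} {φ : Coch n X A} (hφ : φ ∈ cocycles X A n) :
    revC n φ ∈ cocycles X A n := by
  have h := add_mem (coboundaries_le n (revC_sub_mem hφ)) hφ
  rwa [sub_add_cancel] at h

theorem H.mk_revC {n : ℕ} (z : cocycles X A n) :
    H.mk n ⟨revC n z, revC_mem z.2⟩ = H.mk n z := by
  rw [← sub_eq_zero, ← map_sub]
  exact H.mk_eq_zero.2 (revC_sub_mem z.2)

end Op

/-! ## Graded commutativity -/

section Comm

variable {X : Type*} [TopologicalSpace X]

theorem rv_front {p n : ℕ} (hp : p ≤ n) : rv n ∘ frontv p n = backv p n ∘ rv p := by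
  funext k
  apply Fin.ext
  have hk := k.2
  simp only [Function.comp, rv, frontv_val, backv_val, Fin.val_rev]
  omega

theorem rv_back {q n : ℕ} (hq : q ≤ n) : rv n ∘ backv q n = frontv q n ∘ rv q := by
  funext k
  apply Fin.ext
  have hk := k.2
  simp only [Function.comp, rv, frontv_val, backv_val, Fin.val_rev]
  omega

theorem revC_cupC {p q n : ℕ} (h : p + q = n) (φ : Coch p X ℤ) (ψ : Coch q X ℤ) :
    revC n (cupC q p n ψ φ) = (-1 : ℤ) ^ (p * q) • cupC p q n (revC p φ) (revC q ψ) := by
  funext σ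
  have e : eps n = (-1) ^ (p * q) * (eps p * eps q) := by
    rw [← h, eps_add]
  simp only [revC, cupC, AddMonoidHom.coe_mk, ZeroHom.coe_mk, Pi.smul_apply,
    ContinuousMap.comp_assoc, smap_comp, smul_eq_mul]
  rw [rv_front (by omega : q ≤ n), rv_back (by omega : p ≤ n), e]
  ring

/-- Graded commutativity of the cup product. -/
theorem H.cup_comm {p q n : ℕ} (h : p + q = n) (h' : q + p = n) (a : H p X ℤ) (b : H q X ℤ) :
    H.cup h' b a = (-1 : ℤ) ^ (p * q) • H.cup h a b := by
  obtain ⟨φ, rfl⟩ := H.mk_surjective p a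
  obtain ⟨ψ, rfl⟩ := H.mk_surjective q b
  rw [H.cup_mk, ← H.mk_revC φ, ← H.mk_revC ψ, H.cup_mk, ← map_zsmul, ← H.mk_revC]
  congr 1
  apply Subtype.ext
  exact revC_cupC h φ.1 ψ.1

/-- Classes of even degree are central. -/
theorem T.comm_of_even {q : ℕ} (hq : Even q) {b : T X} (hb : T.IsHom q b) (a : T X) :
    b * a = a * b := by
  ext n
  by_cases hn : n < q
  · rw [T.mul_hom_apply_lt a hb hn, T.mul_apply]
    apply Finset.sum_eq_zero
    rintro ⟨p', q'⟩ hx
    rw [HasAntidiagonal.mem_antidiagonal] at hx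
    simp only at hx
    rw [hb p' (by omega), map_zero, AddMonoidHom.zero_apply]
  · obtain ⟨p, hp⟩ : ∃ p, p + q = n := ⟨n - q, by omega⟩
    rw [T.mul_hom_apply a hb hp, T.mul_apply, Finset.sum_eq_single (q, p)]
    · have hp' : q + p = n := by omega
      rw [cup0_eq hp', H.cup_comm hp hp', Even.neg_one_pow (Even.mul_left hq p), one_smul]
    · rintro ⟨p', q'⟩ hx hne
      rw [HasAntidiagonal.mem_antidiagonal] at hx
      simp only at hx
      have hq : p' ≠ q := by
        intro h'
        apply hne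
        rw [Prod.mk.injEq]
        omega
      rw [hb p' hq, map_zero, AddMonoidHom.zero_apply]
    · intro hx
      exact absurd (HasAntidiagonal.mem_antidiagonal.2 (by omega : q + p = n)) hx

end Comm

end

end Pool.Agent.Lib.MP_904b2a_gt.H83
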