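import Pool.Agent.Lib.MP_904b2a_gt.H74.ProjFam

/-!
# MP_904b2a_gt: Grassmannians and projective spaces as spaces of projections
-/

open scoped BigOperators Matrix ComplexOrder

set_option linter.unusedSectionVars false
open Module

namespace Pool.Agent.Lib.MP_904b2a_gt.H83

noncomputable section

/-- The Grassmannian of `r`-dimensional subspaces of `ℂ^ι`, as the space of orthogonal
projections. -/
def Gr (r : ℕ) (ι : Type) [Fintype ι] [DecidableEq ι] : Type :=
  {P : Matrix ι ι ℂ // Pᴴ = P ∧ P * P = P ∧ P.trace = r}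

/-- The projective space of lines of `ℂ^ι`. -/
abbrev CP (ι : Type) [Fintype ι] [DecidableEq ι] : Type := Gr 1 ι

variable {ι κ μ : Type} [Fintype ι] [DecidableEq ι] [Fintype κ] [DecidableEq κ]
  [Fintype μ] [DecidableEq μ]

instance (r : ℕ) : TopologicalSpace (Gr r ι) :=
  inferInstanceAs (TopologicalSpace {P : Matrix ι ι ℂ // Pᴴ = P ∧ P * P = P ∧ P.trace = r})

theorem Gr.ext {r : ℕ} {P Q : Gr r ι} (h : P.1 = Q.1) : P = Q := Subtype.ext h

theorem Gr.continuous_val {r : ℕ} : Continuous (fun P : Gr r ι => P.1) := continuous_subtype_val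

/-- The universal family of projections. -/
def uni (r : ℕ) (ι : Type) [Fintype ι] [DecidableEq ι] : PF r (Gr r ι) ι where
  P Q := Q.1
  cont := continuous_subtype_val
  herm Q := Q.2.1
  idem Q := Q.2.2.1
  tr Q := Q.2.2.2

/-- The classifying map. -/
def cls {r : ℕ} {X : Type} [TopologicalSpace X] (p : PF r X ι) : C(X, Gr r ι) where
  toFun x := ⟨p.P x, p.herm x, p.idem x, p.tr x⟩
  continuous_toFun := p.cont.subtype_mk _

/-! ## Rank one projections -/

namespace CP

theorem herm (q : CP ι) : q.1ᴴ = q.1 := q.2.1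

theorem idem (q : CP ι) : q.1 * q.1 = q.1 := q.2.2.1

theorem tr (q : CP ι) : q.1.trace = 1 := q.2.2.2.trans Nat.cast_one

theorem ne_zero (q : CP ι) : q.1 ≠ 0 := by
  intro h
  have h2 := tr q
  rw [h, Matrix.trace_zero] at h2
  exact zero_ne_one h2

theorem factor (q : CP ι) : ∃ (B : Matrix ι (Fin 1) ℂ) (C : Matrix (Fin 1) ι ℂ), q.1 = B * C := by
  refine ⟨(uni 1 ι).B q, (uni 1 ι).C q, ?_⟩
  apply Matrix.toLin'.injective
  ext1 k
  apply LinearMap.ext
  intro a
  simp only [LinearMap.comp_apply, Matrix.toLin'_apply]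
  rw [← Matrix.mulVec_mulVec, PF.B_mulVec_C]
  rfl

/-- The basic identity of rank one projections. -/
theorem mul_mul (q : CP ι) (X : Matrix ι ι ℂ) : q.1 * X * q.1 = (q.1 * X).trace • q.1 := by
  obtain ⟨B, C, h⟩ := factor q
  have h1 : ∀ M : Matrix (Fin 1) (Fin 1) ℂ, M = M.trace • (1 : Matrix (Fin 1) (Fin 1) ℂ) := by
    intro M
    ext i j
    have hi := Fin.fin_one_eq_zero i
    have hj := Fin.fin_one_eq_zero j
    subst hi hj
    simp [Matrix.trace]
  rw [h]
  have h2 : B * C * X * (B * C) = B * (C * X * B) * C := by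
    simp only [Matrix.mul_assoc]
  rw [h2, h1 (C * X * B), Matrix.mul_smul, Matrix.smul_mul, Matrix.mul_one]
  congr 1
  rw [Matrix.trace_mul_comm, Matrix.mul_assoc B C X]

theorem trace_push (q : CP ι) (B : Matrix κ ι ℂ) :
    (B * q.1 * Bᴴ).trace = (q.1 * (Bᴴ * B)).trace := by
  rw [Matrix.trace_mul_comm, ← Matrix.mul_assoc, Matrix.trace_mul_comm]

theorem push_aux (q : CP ι) (B : Matrix κ ι ℂ) : B * q.1 * Bᴴ = (B * q.1) * (B * q.1)ᴴ := by
  rw [Matrix.conjTranspose_mul, herm, ← Matrix.mul_assoc (B * q.1), Matrix.mul_assoc B q.1 q.1,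
    idem]

theorem trace_ne_zero {q : CP ι} {B : Matrix κ ι ℂ} (h : B * q.1 ≠ 0) :
    (B * q.1 * Bᴴ).trace ≠ 0 := by
  rw [push_aux]
  intro h0
  exact h (Matrix.trace_mul_conjTranspose_self_eq_zero_iff.1 h0)

theorem push_sq (q : CP ι) (B : Matrix κ ι ℂ) :
    (B * q.1 * Bᴴ) * (B * q.1 * Bᴴ) = (B * q.1 * Bᴴ).trace • (B * q.1 * Bᴴ) := by
  have h : (B * q.1 * Bᴴ) * (B * q.1 * Bᴴ) = B * (q.1 * (Bᴴ * B) * q.1) * Bᴴ := by
    simp only [Matrix.mul_assoc]
  rw [h, mul_mul, trace_push, Matrix.mul_smul, Matrix.smul_mul]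

theorem push_herm (q : CP ι) (B : Matrix κ ι ℂ) : (B * q.1 * Bᴴ)ᴴ = B * q.1 * Bᴴ := by
  rw [Matrix.conjTranspose_mul, Matrix.conjTranspose_mul, Matrix.conjTranspose_conjTranspose,
    herm, Matrix.mul_assoc]

/-- The image of the line `q` under the linear map `B`. -/
def push (B : Matrix κ ι ℂ) (q : CP ι) (h : B * q.1 ≠ 0) : CP κ :=
  ⟨((B * q.1 * Bᴴ).trace)⁻¹ • (B * q.1 * Bᴴ), by
    have ht := trace_ne_zero h
    refine ⟨?_, ?_, ?_⟩
    · rw [Matrix.conjTranspose_smul, push_herm]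
      congr 1
      rw [star_inv₀, ← Matrix.trace_conjTranspose, push_herm]
    · rw [Matrix.smul_mul, Matrix.mul_smul, push_sq, smul_smul, smul_smul]
      congr 1
      field_simp
    · rw [Matrix.trace_smul, smul_eq_mul, inv_mul_cancel₀ ht, Nat.cast_one]⟩

theorem push_val (B : Matrix κ ι ℂ) (q : CP ι) (h : B * q.1 ≠ 0) :
    (push B q h).1 = ((B * q.1 * Bᴴ).trace)⁻¹ • (B * q.1 * Bᴴ) := rfl

theorem push_mul (B : Matrix κ ι ℂ) (q : CP ι) (h : B * q.1 ≠ 0) :
    (push B q h).1 * (B * q.1) = B * q.1 := by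
  have e : B * q.1 * Bᴴ * (B * q.1) = B * (q.1 * (Bᴴ * B) * q.1) := by
    simp only [Matrix.mul_assoc]
  rw [push_val, Matrix.smul_mul, e, mul_mul, Matrix.mul_smul, smul_smul, trace_push,
    inv_mul_cancel₀, one_smul]
  rw [← trace_push]
  exact trace_ne_zero h

/-- Characterization of the image. -/
theorem push_eq {B : Matrix κ ι ℂ} {q : CP ι} (h : B * q.1 ≠ 0) {q' : CP κ}
    (h' : q'.1 * (B * q.1) = B * q.1) : push B q h = q' := by
  apply Gr.ext
  rw [push_val]
  have e1 : q'.1 * (B * q.1 * Bᴴ) = B * q.1 * Bᴴ := by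
    rw [← Matrix.mul_assoc, h']
  have e2 : (B * q.1 * Bᴴ) * q'.1 = B * q.1 * Bᴴ := by
    have := congrArg Matrix.conjTranspose e1
    rwa [Matrix.conjTranspose_mul, push_herm, herm] at this
  have e3 : q'.1 * (B * q.1 * Bᴴ) * q'.1 = (B * q.1 * Bᴴ).trace • q'.1 := by
    rw [mul_mul, e1]
  rw [e1, e2] at e3
  have ht := trace_ne_zero h
  set t := (B * q.1 * Bᴴ).trace with htdef
  rw [e3, smul_smul, inv_mul_cancel₀ ht, one_smul]

theorem push_congr {B B' : Matrix κ ι ℂ} {q q' : CP ι} (hB : B = B') (hq : q = q')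
    (h : B * q.1 ≠ 0) (h' : B' * q'.1 ≠ 0) : push B q h = push B' q' h' := by
  subst hB hq
  rfl

theorem mul_push_ne_zero {A : Matrix μ κ ℂ} {B : Matrix κ ι ℂ} {q : CP ι} (h : B * q.1 ≠ 0)
    (h' : A * B * q.1 ≠ 0) : A * (push B q h).1 ≠ 0 := by
  intro h0
  apply h'
  rw [Matrix.mul_assoc, ← push_mul B q h, ← Matrix.mul_assoc, h0, Matrix.zero_mul]

theorem push_push (A : Matrix μ κ ℂ) (B : Matrix κ ι ℂ) (q : CP ι) (h : B * q.1 ≠ 0)
    (h' : A * (push B q h).1 ≠ 0) (h'' : A * B * q.1 ≠ 0) :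
    push A (push B q h) h' = push (A * B) q h'' := by
  symm
  apply push_eq
  rw [Matrix.mul_assoc, ← push_mul B q h, ← Matrix.mul_assoc A, ← Matrix.mul_assoc,
    push_mul A (push B q h) h']

theorem mul_ne_zero_of_push {A : Matrix μ κ ℂ} {B : Matrix κ ι ℂ} {q : CP ι} (h : B * q.1 ≠ 0)
    (h' : A * (push B q h).1 ≠ 0) : A * B * q.1 ≠ 0 := by
  intro h0
  apply h'
  rw [push_val, Matrix.mul_smul, ← Matrix.mul_assoc, ← Matrix.mul_assoc, h0, Matrix.zero_mul,
    smul_zero]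

theorem push_one (q : CP ι) (h : (1 : Matrix ι ι ℂ) * q.1 ≠ 0) : push 1 q h = q := by
  apply push_eq
  rw [Matrix.one_mul, idem]

/-- Continuity of the image. -/
theorem continuous_push {Y : Type*} [TopologicalSpace Y] {B : Y → Matrix κ ι ℂ} {q : Y → CP ι}
    (hB : Continuous B) (hq : Continuous q) (h : ∀ y, B y * (q y).1 ≠ 0) :
    Continuous (fun y => push (B y) (q y) (h y)) := by
  refine Continuous.subtype_mk ?_ _
  have h1 : Continuous (fun y => B y * (q y).1 * (B y)ᴴ) :=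
    (hB.matrix_mul (Gr.continuous_val.comp hq)).matrix_mul hB.matrix_conjTranspose
  exact (h1.matrix_trace.inv₀ (fun y => trace_ne_zero (h y))).smul h1

/-- Matrices with a left inverse do not kill lines. -/
theorem mul_ne_zero_of_left_inv {B : Matrix κ ι ℂ} {C : Matrix ι κ ℂ} {c : ℂ} (hc : c ≠ 0)
    (h : C * B = c • 1) (q : CP ι) : B * q.1 ≠ 0 := by
  intro h0
  have h1 := congrArg (fun M => C * M) h0
  simp only [← Matrix.mul_assoc, h, Matrix.mul_zero, Matrix.smul_mul, Matrix.one_mul] at h1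
  rcases smul_eq_zero.1 h1 with h2 | h2
  · exact hc h2
  · exact ne_zero q h2

/-- The map of projective spaces given by an injective matrix. -/
def pushC (B : Matrix κ ι ℂ) (h : ∀ q : CP ι, B * q.1 ≠ 0) : C(CP ι, CP κ) where
  toFun q := push B q (h q)
  continuous_toFun := continuous_push continuous_const continuous_id h

/-- Homotopies of maps to projective spaces. -/
theorem homotopic_push {Y : Type*} [TopologicalSpace Y] (q : C(Y, CP ι)) (f g : C(Y, CP κ))
    (B : ℝ → Y → Matrix κ ι ℂ) (hB : Continuous (fun p : ℝ × Y => B p.1 p.2))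
    (h0 : ∀ t ∈ Set.Icc (0 : ℝ) 1, ∀ y, B t y * (q y).1 ≠ 0)
    (hf : ∀ y, (f y).1 * (B 0 y * (q y).1) = B 0 y * (q y).1)
    (hg : ∀ y, (g y).1 * (B 1 y * (q y).1) = B 1 y * (q y).1) : f.Homotopic g := by
  have hc : Continuous (fun p : unitInterval × Y => push (B p.1 p.2) (q p.2)
      (h0 p.1 p.1.2 p.2)) := by
    refine continuous_push ?_ (q.continuous.comp continuous_snd)
      (fun p : unitInterval × Y => h0 p.1 p.1.2 p.2)
    exact hB.comp ((continuous_subtype_val.comp continuous_fst).prodMk continuous_snd)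
  refine ⟨{ toFun := fun p => push (B p.1 p.2) (q p.2) (h0 p.1 p.1.2 p.2)
            continuous_toFun := hc
            map_zero_left := fun y => push_eq _ (hf y)
            map_one_left := fun y => push_eq _ (hg y) }⟩

end CP

end

end Pool.Agent.Lib.MP_904b2a_gt.H83
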