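import Pool.Agent.Lib.MP_904b2a_gt.H83.Circle

/-!
# MP_904b2a_gt: `H²(ℂ^n ∖ 0) = 0` for `n ≥ 2`
-/

open scoped BigOperators
open Set Topology

namespace Pool.Agent.Lib.MP_904b2a_gt.H83

noncomputable section

/-- Classes of degree zero of path connected spaces. -/
theorem H0_of_pathConnected {X : Type} [TopologicalSpace X] [PathConnectedSpace X]
    (b : H 0 X ℤ) : ∃ n : ℤ, b = n • H.one := by
  obtain ⟨φ, rfl⟩ := H.mk_surjective 0 b
  have x₀ : X := Classical.arbitrary X
  have key : ∀ x : X, φ.1 (cs 0 x) = φ.1 (cs 0 x₀) := by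
    intro x
    have h : (ContinuousMap.const Unit x).Homotopic (ContinuousMap.const Unit x₀) :=
      ContinuousMap.homotopic_const_iff.mpr (PathConnectedSpace.joined x x₀)
    have h2 := H.pb_eq_of_homotopic h (H.mk 0 φ)
    rw [H.pb_mk, H.pb_mk, H.mk_eq_mk] at h2
    have h3 : pbC 0 (ContinuousMap.const Unit x) φ.1 - pbC 0 (ContinuousMap.const Unit x₀) φ.1 =
        0 := h2
    have h4 := congrFun (sub_eq_zero.1 h3) (cs 0 ())
    exact h4
  refine ⟨φ.1 (cs 0 x₀), ?_⟩
  rw [H.one, ← map_zsmul]
  congr 1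
  apply Subtype.ext
  funext σ
  rw [zero_simplex_eq σ, key]
  change φ.1 (cs 0 x₀) = φ.1 (cs 0 x₀) • (1 : ℤ)
  simp

/-- `ℂ^n` without the origin. -/
def Vn (n : ℕ) : Set (Fin n → ℂ) := {v | v ≠ 0}

theorem one_mem_Cst : (1 : ℂ) ∈ Cst := one_ne_zero

theorem T_unit_pos (a : T Unit) {n : ℕ} (hn : n ≠ 0) : a n = 0 := by
  obtain ⟨m, rfl⟩ := Nat.exists_eq_succ_of_ne_zero hn
  exact H.eq_zero_of_subsingleton m (a (m + 1))

/-- A class of `X × I` of degree `n`. -/
theorem Split2.exists_comp {I : Type} [TopologicalSpace I] {θ : H 1 I ℤ}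
    (hθ : Split2 I (T.of 1 θ)) {X : Type} [TopologicalSpace X] {n : ℕ} (y : H (n + 1) (X × I) ℤ) :
    ∃ (a : H (n + 1) X ℤ) (b : H n X ℤ),
      y = H.pb (pr1 X I) a + H.cup (by omega : 1 + n = n + 1) (H.pb (pr2 X I) θ)
        (H.pb (pr1 X I) b) := by
  obtain ⟨⟨a, b⟩, hab⟩ := (hθ X).2 (T.of (n + 1) y)
  simp only at hab
  refine ⟨a (n + 1), b n, ?_⟩
  have h := congrFun hab (n + 1)
  rw [T.of_self, T.add_apply, T.map_apply, T.map_of, T.mul_apply,
    Finset.sum_eq_single (1, n)] at h
  · rw [T.of_self, cup0_eq (by omega : 1 + n = n + 1)] at h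
    exact h.symm
  · rintro ⟨p, q⟩ hx hne
    rw [Finset.HasAntidiagonal.mem_antidiagonal] at hx
    simp only at hx
    have hp : p ≠ 1 := by
      intro hp
      apply hne
      rw [Prod.mk.injEq]
      omega
    rw [T.of_ne hp, map_zero, AddMonoidHom.zero_apply]
  · intro hx
    exact absurd (Finset.HasAntidiagonal.mem_antidiagonal.2 (by omega : 1 + n = n + 1)) hx

/-- The space `X × ℂ^*` has a section. -/
theorem pb_pr1_injective {I : Type} [TopologicalSpace I] (i₀ : I) {X : Type} [TopologicalSpace X]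
    {n : ℕ} {a : H n X ℤ} (h : H.pb (pr1 X I) a = 0) : a = 0 := by
  have h2 := congrArg (H.pb (⟨fun x => (x, i₀), by fun_prop⟩ : C(X, X × I))) h
  rw [map_zero, H.pb_comp] at h2
  rw [← h2]
  exact (H.pb_id a).symm

theorem H2_Cst (u : H 2 Cst ℤ) : u = 0 := by
  obtain ⟨θ, hθ⟩ := exists_split_Cst
  obtain ⟨a, b, hab⟩ := hθ.exists_comp (X := Unit) (n := 1) (H.pb (pr2 Unit Cst) u)
  rw [H.eq_zero_of_subsingleton 1 a, H.eq_zero_of_subsingleton 0 b, map_zero, map_zero, map_zero,
    add_zero] at hab
  have h2 := congrArg (H.pb (⟨fun x => ((), x), by fun_prop⟩ : C(Cst, Unit × Cst))) hab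
  rw [map_zero, H.pb_comp] at h2
  rw [← h2]
  exact (H.pb_id u).symm

section Step

variable {m : ℕ}

theorem continuous_init : Continuous (fun v : Fin (m + 1) → ℂ => (fun j : Fin m => v j.castSucc)) :=
  continuous_pi fun j => continuous_apply _

/-- `(w, z)` as a vector of `ℂ^{m+1}`. -/
def snocC (w : Fin m → ℂ) (z : ℂ) : Fin (m + 1) → ℂ := Fin.snoc (α := fun _ => ℂ) w z

theorem snocC_last (w : Fin m → ℂ) (z : ℂ) : snocC w z (Fin.last m) = z := Fin.snoc_last ..

theorem snocC_castSucc (w : Fin m → ℂ) (z : ℂ) (j : Fin m) : snocC w z j.castSucc = w j :=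
  Fin.snoc_castSucc ..

theorem continuous_snocC {Y : Type*} [TopologicalSpace Y] {w : Y → Fin m → ℂ} {z : Y → ℂ}
    (hw : Continuous w) (hz : Continuous z) : Continuous fun y => snocC (w y) (z y) := by
  refine continuous_pi fun j => ?_
  refine Fin.lastCases ?_ (fun j => ?_) j
  · simp only [snocC_last]
    exact hz
  · simp only [snocC_castSucc]
    exact (continuous_apply j).comp hw

theorem snocC_self (v : Fin (m + 1) → ℂ) :
    snocC (fun j => v j.castSucc) (v (Fin.last m)) = v := by
  funext j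
  refine Fin.lastCases ?_ (fun j => ?_) j
  · rw [snocC_last]
  · rw [snocC_castSucc]

/-- `H²(ℂ^{m+1} ∖ 0) = 0` for `m ≥ 1`. -/
theorem H2_Vn_step (hm : 1 ≤ m) (y : H 2 (Vn (m + 1)) ℤ) : y = 0 := by
  obtain ⟨θ, hθ⟩ := exists_split_Cst
  set U : Set (Fin (m + 1) → ℂ) := {v | v (Fin.last m) ≠ 0} with hU
  set W : Set (Fin (m + 1) → ℂ) := {v | (fun j : Fin m => v j.castSucc) ≠ 0} with hW
  have hUo : IsOpen U := isOpen_ne_fun (continuous_apply _) continuous_const
  have hWo : IsOpen W := isOpen_ne_fun continuous_init continuous_const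
  have h3 : U ⊆ Vn (m + 1) := by
    intro v hv h0
    apply hv
    rw [h0]
    rfl
  have h4 : W ⊆ Vn (m + 1) := by
    intro v hv h0
    apply hv
    rw [h0]
    rfl
  have S : MVSq (incl (inter_subset_left : U ∩ W ⊆ U)) (incl (inter_subset_right : U ∩ W ⊆ W))
      (incl h3) (incl h4) := by
    refine MVSq.sub hUo hWo _ _ h3 h4 ?_ subset_rfl
    intro v hv
    by_contra hcon
    rw [mem_union, not_or] at hcon
    obtain ⟨h5, h6⟩ := hcon
    apply hv
    have h5' : v (Fin.last m) = 0 := not_not.1 h5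
    have h6' : (fun j : Fin m => v j.castSucc) = 0 := not_not.1 h6
    rw [← snocC_self v, h5', h6']
    funext j
    refine Fin.lastCases ?_ (fun j => ?_) j
    · rw [snocC_last]; rfl
    · rw [snocC_castSucc]; rfl
  -- the projections
  set fU : C(U, Cst) := ⟨fun v => ⟨v.1 (Fin.last m), v.2⟩,
    Continuous.subtype_mk ((continuous_apply (Fin.last m)).comp continuous_subtype_val)
      (fun v => v.2)⟩ with hfU
  have hgUm : ∀ z : Cst, snocC (m := m) 0 z.1 ∈ U := by
    intro z
    change snocC 0 z.1 (Fin.last m) ≠ 0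
    rw [snocC_last]
    exact z.2
  set gU : C(Cst, U) := ⟨fun z => ⟨snocC 0 z.1, hgUm z⟩,
    Continuous.subtype_mk (continuous_snocC continuous_const continuous_subtype_val) hgUm⟩
    with hgU
  set fW : C(W, Vn m) := ⟨fun v => ⟨fun j => v.1 j.castSucc, v.2⟩,
    Continuous.subtype_mk ((continuous_init (m := m)).comp continuous_subtype_val)
      (fun v => v.2)⟩ with hfW
  have hgWm : ∀ w : Vn m, snocC w.1 0 ∈ W := by
    intro w
    change (fun j : Fin m => snocC w.1 0 j.castSucc) ≠ 0
    simp only [snocC_castSucc]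
    exact w.2
  set gW : C(Vn m, W) := ⟨fun w => ⟨snocC w.1 0, hgWm w⟩,
    Continuous.subtype_mk (continuous_snocC continuous_subtype_val continuous_const) hgWm⟩
    with hgW
  have hbU : Function.Bijective (H.pb (n := 2) (A := ℤ) fU) := by
    refine H.pb_bijective (g := gU) ?_ ?_
    · refine ⟨{ toFun := fun p => ⟨snocC ((p.1 : ℝ) • fun j : Fin m => p.2.1 j.castSucc)
                  (p.2.1 (Fin.last m)), ?_⟩
                continuous_toFun := ?_
                map_zero_left := fun v => ?_
                map_one_left := fun v => ?_ }⟩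
      · change snocC _ _ (Fin.last m) ≠ 0
        rw [snocC_last]
        exact p.2.2
      · refine Continuous.subtype_mk (continuous_snocC ?_ ?_) _
        · exact (continuous_subtype_val.comp continuous_fst).smul
            (continuous_init.comp (continuous_subtype_val.comp continuous_snd))
        · exact (continuous_apply _).comp (continuous_subtype_val.comp continuous_snd)
      · apply Subtype.ext
        change snocC (((0 : unitInterval) : ℝ) • fun j : Fin m => v.1 j.castSucc)
          (v.1 (Fin.last m)) = snocC 0 (v.1 (Fin.last m))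
        rw [Set.Icc.coe_zero, zero_smul]
      · apply Subtype.ext
        change snocC (((1 : unitInterval) : ℝ) • fun j : Fin m => v.1 j.castSucc)
          (v.1 (Fin.last m)) = v.1
        rw [Set.Icc.coe_one, one_smul]
        exact snocC_self v.1
    · have e : fU.comp gU = ContinuousMap.id _ := by
        ext z
        exact snocC_last _ _
      rw [e]
  have hbW : ∀ n, Function.Bijective (H.pb (n := n) (A := ℤ) fW) := by
    intro n
    refine H.pb_bijective (g := gW) ?_ ?_
    · refine ⟨{ toFun := fun p => ⟨snocC (fun j : Fin m => p.2.1 j.castSucc)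
                  ((p.1 : ℝ) • p.2.1 (Fin.last m)), ?_⟩
                continuous_toFun := ?_
                map_zero_left := fun v => ?_
                map_one_left := fun v => ?_ }⟩
      · change (fun j : Fin m => snocC _ _ j.castSucc) ≠ 0
        simp only [snocC_castSucc]
        exact p.2.2
      · refine Continuous.subtype_mk (continuous_snocC ?_ ?_) _
        · exact continuous_init.comp (continuous_subtype_val.comp continuous_snd)
        · exact (continuous_subtype_val.comp continuous_fst).smul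
            ((continuous_apply _).comp (continuous_subtype_val.comp continuous_snd))
      · apply Subtype.ext
        change snocC (fun j : Fin m => v.1 j.castSucc)
          (((0 : unitInterval) : ℝ) • v.1 (Fin.last m)) = snocC (fun j : Fin m => v.1 j.castSucc) 0
        rw [Set.Icc.coe_zero, zero_smul]
      · apply Subtype.ext
        change snocC (fun j : Fin m => v.1 j.castSucc)
          (((1 : unitInterval) : ℝ) • v.1 (Fin.last m)) = v.1
        rw [Set.Icc.coe_one, one_smul]
        exact snocC_self v.1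
    · have e : fW.comp gW = ContinuousMap.id _ := by
        ext w j
        exact snocC_castSucc _ _ _
      rw [e]
  -- the intersection is a product
  have ham : ∀ p : Vn m × Cst, snocC p.1.1 p.2.1 ∈ U ∩ W := by
    intro p
    constructor
    · change snocC _ _ (Fin.last m) ≠ 0
      rw [snocC_last]
      exact p.2.2
    · change (fun j : Fin m => snocC _ _ j.castSucc) ≠ 0
      simp only [snocC_castSucc]
      exact p.1.2
  set a : C(Vn m × Cst, ↥(U ∩ W)) := ⟨fun p => ⟨snocC p.1.1 p.2.1, ham p⟩,
    Continuous.subtype_mk (continuous_snocC (continuous_subtype_val.comp continuous_fst)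
      (continuous_subtype_val.comp continuous_snd)) ham⟩ with ha
  set b : C(↥(U ∩ W), Vn m × Cst) := ⟨fun v => (⟨fun j => v.1 j.castSucc, v.2.2⟩,
      ⟨v.1 (Fin.last m), v.2.1⟩),
    (Continuous.subtype_mk ((continuous_init (m := m)).comp continuous_subtype_val)
      (fun v => v.2.2)).prodMk
      (Continuous.subtype_mk ((continuous_apply (Fin.last m)).comp continuous_subtype_val)
        (fun v => v.2.1))⟩ with hb
  have hab : a.comp b = ContinuousMap.id _ := by
    ext v j
    exact congrFun (snocC_self v.1) j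
  have e1 : (pr1 (Vn m) Cst).comp b = fW.comp (incl inter_subset_right) := rfl
  have e2 : (pr2 (Vn m) Cst).comp b = fU.comp (incl inter_subset_left) := rfl
  have hy : ∀ n (u : H n ↥(U ∩ W) ℤ), u = H.pb b (H.pb a u) := by
    intro n u
    rw [H.pb_comp, hab, H.pb_id]
  -- step 1
  have yU : H.pb (incl h3) y = 0 := by
    obtain ⟨u, hu⟩ := hbU.2 (H.pb (incl h3) y)
    rw [← hu, H2_Cst u, map_zero]
  -- step 2
  have yW : H.pb (incl h4) y = 0 := by
    obtain ⟨w, hw⟩ := (hbW 2).2 (H.pb (incl h4) y)
    have h5 : H.pb (pr1 (Vn m) Cst) w = 0 := by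
      have h6 : H.pb (incl inter_subset_right) (H.pb fW w) = (0 : H 2 ↥(U ∩ W) ℤ) := by
        rw [hw, H.pb_comp, ← S.comm, ← H.pb_comp, yU, map_zero]
      rw [H.pb_comp, ← e1, ← H.pb_comp] at h6
      have h7 := congrArg (H.pb a) h6
      rw [map_zero, H.pb_comp] at h7
      have hba : b.comp a = ContinuousMap.id _ := by
        ext p
        · exact snocC_castSucc _ _ _
        · exact snocC_last _ _
      rwa [hba, H.pb_id] at h7
    have h8 := pb_pr1_injective (⟨1, one_mem_Cst⟩ : Cst) h5
    rw [← hw, h8, map_zero]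
  -- step 3
  obtain ⟨c, hc⟩ := MV.of_restrict S.comm yU yW
  obtain ⟨a₁, b₀, hab₀⟩ := hθ.exists_comp (n := 0) (H.pb a c)
  have hpc : PathConnectedSpace (Vn m) := by
    apply isPathConnected_iff_pathConnectedSpace.1
    have h9 : Vn m = {(0 : Fin m → ℂ)}ᶜ := by
      ext v
      rfl
    rw [h9]
    apply isPathConnected_compl_singleton_of_one_lt_rank
    rw [← Module.finrank_eq_rank]
    have h10 : Module.finrank ℝ (Fin m → ℂ) = 2 * m := by
      rw [Module.finrank_pi_fintype]
      simp [Complex.finrank_real_complex]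
      ring
    rw [h10]
    exact_mod_cast (by omega : 1 < 2 * m)
  obtain ⟨N, hN⟩ := H0_of_pathConnected b₀
  have hcc : c = H.pb (incl inter_subset_left) (N • H.pb fU θ) -
      H.pb (incl inter_subset_right) (-(H.pb fW a₁)) := by
    rw [hy 1 c, hab₀, hN, map_add, map_neg, sub_neg_eq_add]
    refine (add_comm _ _).trans ?_
    congr 1
    · rw [map_zsmul, map_zsmul, map_zsmul, map_zsmul]
      congr 1
      rw [H.pb_one, H.cup_one, H.pb_comp, e2, ← H.pb_comp]
    · rw [H.pb_comp, e1, ← H.pb_comp]
  rw [hcc] at hc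
  exact MV.unique S hc (MV.of_sub _ _)

end Step

theorem H2_Vn {n : ℕ} (hn : 2 ≤ n) (y : H 2 (Vn n) ℤ) : y = 0 := by
  obtain ⟨m, rfl⟩ : ∃ m, n = m + 1 := ⟨n - 1, by omega⟩
  exact H2_Vn_step (by omega) y

end

end Pool.Agent.Lib.MP_904b2a_gt.H83
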