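import Pool.Agent.Lib.MP_904b2a_gt.H83.MV

/-!
# MP_904b2a_gt: formal consequences of Mayer–Vietoris

Homotopy invariance for the total cohomology ring, the suspension lemma and the glueing lemma for
the Leray–Hirsch theorem.
-/

open scoped BigOperators
open Set Topology

namespace Pool.Agent.Lib.MP_904b2a_gt.H83

noncomputable section

/-! ## Homotopy invariance -/

section Homotopy

variable {X Y : Type*} [TopologicalSpace X] [TopologicalSpace Y]

theorem T.map_eq_of_homotopic {f g : C(X, Y)} (h : f.Homotopic g) (a : T Y) :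
    T.map f a = T.map g a := by
  ext n
  exact H.pb_eq_of_homotopic h (a n)

theorem T.map_bijective_of_homotopic {f : C(X, Y)} {g : C(Y, X)}
    (h₁ : (g.comp f).Homotopic (ContinuousMap.id X))
    (h₂ : (f.comp g).Homotopic (ContinuousMap.id Y)) : Function.Bijective (T.map f) := by
  refine Function.bijective_iff_has_inverse.mpr ⟨T.map g, fun u => ?_, fun u => ?_⟩
  · rw [T.map_map, T.map_eq_of_homotopic h₂, T.map_id]
  · rw [T.map_map, T.map_eq_of_homotopic h₁, T.map_id]

/-- Over the empty space everything is zero. -/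
theorem T.eq_zero_of_isEmpty [IsEmpty X] (a : T X) : a = 0 := by
  ext n
  obtain ⟨z, hz⟩ := H.mk_surjective n (a n)
  have hs : z = 0 := by
    apply Subtype.ext
    funext σ
    exact isEmptyElim (σ (stdSimplex.vertex (S := ℝ) 0))
  rw [← hz, hs, map_zero]
  rfl

end Homotopy

/-! ## Products -/

/-- The first projection. -/
abbrev pr1 (X U : Type*) [TopologicalSpace X] [TopologicalSpace U] : C(X × U, X) :=
  ⟨Prod.fst, continuous_fst⟩

/-- The second projection. -/
abbrev pr2 (X U : Type*) [TopologicalSpace X] [TopologicalSpace U] : C(X × U, U) :=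
  ⟨Prod.snd, continuous_snd⟩

/-- The map `id × f`. -/
abbrev idX (X : Type*) [TopologicalSpace X] {U V : Type*} [TopologicalSpace U]
    [TopologicalSpace V] (f : C(U, V)) : C(X × U, X × V) := (ContinuousMap.id X).prodMap f

/-- `U` is cohomologically a point. -/
def PtLike (U : Type) [TopologicalSpace U] : Prop :=
  ∀ (X : Type) [TopologicalSpace X], Function.Bijective (T.map (pr1 X U))

theorem PtLike.of_homotopic {U : Type} [TopologicalSpace U] (u₀ : U)
    (h : (ContinuousMap.const U u₀).Homotopic (ContinuousMap.id U)) : PtLike U := by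
  intro X _
  refine T.map_bijective_of_homotopic (g := ⟨fun x => (x, u₀), by fun_prop⟩) ?_ ?_
  · have := (ContinuousMap.Homotopic.refl (ContinuousMap.id X)).prodMap h
    exact this
  · exact ContinuousMap.Homotopic.refl _

/-- `T (X × I) = T X ⊕ κ T X` for all `X`. -/
def Split2 (I : Type) [TopologicalSpace I] (κ : T I) : Prop :=
  ∀ (X : Type) [TopologicalSpace X], Function.Bijective
    (fun p : T X × T X => T.map (pr1 X I) p.1 + T.map (pr2 X I) κ * T.map (pr1 X I) p.2)

theorem Split2.zero_of_eq_zero {I : Type} [TopologicalSpace I] {κ : T I} (h : Split2 I κ)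
    {X : Type} [TopologicalSpace X] {a b : T X}
    (hab : T.map (pr1 X I) a + T.map (pr2 X I) κ * T.map (pr1 X I) b = 0) : a = 0 ∧ b = 0 := by
  have h2 := (h X).1 (a₁ := (a, b)) (a₂ := (0, 0)) (by
    simp only [map_zero, mul_zero, add_zero]
    exact hab)
  exact ⟨congrArg Prod.fst h2, congrArg Prod.snd h2⟩

theorem Split2.of_bij {I J : Type} [TopologicalSpace I] [TopologicalSpace J] {κ : T J}
    (h : Split2 J κ) (f : C(I, J))
    (hf : ∀ (X : Type) [TopologicalSpace X], Function.Bijective (T.map (idX X f))) :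
    Split2 I (T.map f κ) := by
  intro X _
  have h2 := (hf X).comp (h X)
  convert h2 using 2 with p
  simp only [Function.comp, map_add, map_mul, T.map_map]
  rfl

theorem idX_bij_of_homotopic {I J : Type} [TopologicalSpace I] [TopologicalSpace J] {f : C(I, J)}
    {g : C(J, I)} (h₁ : (g.comp f).Homotopic (ContinuousMap.id I))
    (h₂ : (f.comp g).Homotopic (ContinuousMap.id J)) (X : Type) [TopologicalSpace X] :
    Function.Bijective (T.map (idX X f)) := by
  refine T.map_bijective_of_homotopic (g := idX X g) ?_ ?_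
  · exact (ContinuousMap.Homotopic.refl (ContinuousMap.id X)).prodMap h₁
  · exact (ContinuousMap.Homotopic.refl (ContinuousMap.id X)).prodMap h₂

/-- **The suspension lemma.** -/
theorem Split2.susp {I U W Y : Type} [TopologicalSpace I] [TopologicalSpace U]
    [TopologicalSpace W] [TopologicalSpace Y] {jU : C(I, U)} {jW : C(I, W)} {iU : C(U, Y)}
    {iW : C(W, Y)} (S : MVSq jU jW iU iW) (hU : PtLike U) (hW : PtLike W) {κ : T I}
    (hκ : Split2 I κ) {κ' : T Y} (h : MVT jU jW iU iW κ' κ) : Split2 Y κ' := by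
  intro X _
  have SX := S.prod X
  have hX : MVT (idX X jU) (idX X jW) (idX X iU) (idX X iW) (T.map (pr2 X Y) κ')
      (T.map (pr2 X I) κ) :=
    h.natural (pr2 X I) (pr2 X U) (pr2 X W) (pr2 X Y) rfl rfl rfl rfl
  have hm : ∀ b : T X, MVT (idX X jU) (idX X jW) (idX X iU) (idX X iW)
      (T.map (pr2 X Y) κ' * T.map (pr1 X Y) b) (T.map (pr2 X I) κ * T.map (pr1 X I) b) := by
    intro b
    have h2 := hX.mul SX.comm (T.map (pr1 X Y) b)
    rwa [T.map_map] at h2
  constructor
  · rintro ⟨a, b⟩ ⟨a', b'⟩ hab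
    simp only at hab
    have h0 : T.map (pr1 X Y) (a - a') + T.map (pr2 X Y) κ' * T.map (pr1 X Y) (b - b') = 0 := by
      rw [map_sub, map_sub, mul_sub]
      rw [← sub_eq_zero] at hab
      rw [← hab]
      abel
    have ha : a - a' = 0 := by
      apply (hU X).1
      rw [map_zero]
      have h2 := congrArg (T.map (idX X iU)) h0
      rw [map_add, map_mul, hX.restrict.1, zero_mul, add_zero, map_zero, T.map_map] at h2
      exact h2
    rw [ha, map_zero, zero_add] at h0
    have h3 := hm (b - b')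
    rw [h0] at h3
    obtain ⟨u, w, huw⟩ := h3.exact_I SX.comm
    obtain ⟨u, rfl⟩ := (hU X).2 u
    obtain ⟨w, rfl⟩ := (hW X).2 w
    rw [T.map_map, T.map_map] at huw
    have h4 : T.map (pr1 X I) (w - u) + T.map (pr2 X I) κ * T.map (pr1 X I) (b - b') = 0 := by
      rw [huw, map_sub]
      change _ + (T.map (pr1 X I) u - T.map (pr1 X I) w) = 0
      abel
    obtain ⟨-, hb⟩ := hκ.zero_of_eq_zero h4
    rw [sub_eq_zero] at ha hb
    rw [ha, hb]
  · intro y
    obtain ⟨u, hu⟩ := (hU X).2 (T.map (idX X iU) y)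
    obtain ⟨w, hw⟩ := (hW X).2 (T.map (idX X iW) y)
    have huw : T.map (pr1 X I) u = T.map (pr1 X I) w := by
      have e1 : T.map (pr1 X I) u = T.map (idX X jU) (T.map (pr1 X U) u) := by
        rw [T.map_map]
        rfl
      have e2 : T.map (pr1 X I) w = T.map (idX X jW) (T.map (pr1 X W) w) := by
        rw [T.map_map]
        rfl
      rw [e1, e2, hu, hw, T.map_map, T.map_map, SX.comm]
    have huw' : u = w := by
      have h2 := hκ.zero_of_eq_zero (a := u - w) (b := (0 : T X)) (by
        rw [map_sub, huw, map_zero, mul_zero, sub_self, add_zero])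
      exact sub_eq_zero.1 h2.1
    subst huw'
    obtain ⟨c, hc⟩ := MVT.of_restrict SX (c := y - T.map (pr1 X Y) u)
      (by
        rw [map_sub, T.map_map, ← hu]
        exact sub_self _)
      (by
        rw [map_sub, T.map_map, ← hw]
        exact sub_self _)
    obtain ⟨⟨c₀, c₁⟩, hcc⟩ := (hκ X).2 c
    simp only at hcc
    have h5 : MVT (idX X jU) (idX X jW) (idX X iU) (idX X iW) 0 (T.map (pr1 X I) c₀) := by
      have h6 := MVT.of_left (jU := idX X jU) (jW := idX X jW) (iU := idX X iU) (iW := idX X iW)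
        (T.map (pr1 X U) c₀)
      rwa [T.map_map] at h6
    have h7 := h5.add (hm c₁)
    rw [hcc, zero_add] at h7
    have h8 := MVT.unique SX hc h7
    exact ⟨(u, c₁), by
      simp only
      rw [← h8]
      abel⟩

/-- The cohomology of the disjoint union of two cohomological points. -/
theorem Split2.two {I U W Y : Type} [TopologicalSpace I] [TopologicalSpace U]
    [TopologicalSpace W] [TopologicalSpace Y] [IsEmpty I] {jU : C(I, U)} {jW : C(I, W)}
    {iU : C(U, Y)} {iW : C(W, Y)} (S : MVSq jU jW iU iW) (hU : PtLike U) (hW : PtLike W)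
    {κ : T Y} (h1 : T.map iU κ = 1) (h0 : T.map iW κ = 0) : Split2 Y κ := by
  intro X _
  have SX := S.prod X
  have inj : ∀ y : T (X × Y), T.map (idX X iU) y = 0 → T.map (idX X iW) y = 0 → y = 0 := by
    intro y hyU hyW
    obtain ⟨a, ha⟩ := MVT.of_restrict SX hyU hyW
    have h2 := T.eq_zero_of_isEmpty a
    subst h2
    exact MVT.unique SX ha MVT.zero
  have eU : ∀ a b : T X, T.map (idX X iU)
      (T.map (pr1 X Y) a + T.map (pr2 X Y) κ * T.map (pr1 X Y) b) = T.map (pr1 X U) (a + b) := by
    intro a b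
    have h2 : T.map (idX X iU) (T.map (pr2 X Y) κ) = 1 := by
      rw [T.map_map]
      change T.map (iU.comp (pr2 X U)) κ = 1
      rw [T.map_comp, h1, map_one]
    rw [map_add, map_mul, h2, one_mul, T.map_map, T.map_map, map_add]
    rfl
  have eW : ∀ a b : T X, T.map (idX X iW)
      (T.map (pr1 X Y) a + T.map (pr2 X Y) κ * T.map (pr1 X Y) b) = T.map (pr1 X W) a := by
    intro a b
    have h2 : T.map (idX X iW) (T.map (pr2 X Y) κ) = 0 := by
      rw [T.map_map]
      change T.map (iW.comp (pr2 X W)) κ = 0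
      rw [T.map_comp, h0, map_zero]
    rw [map_add, map_mul, h2, zero_mul, T.map_map, add_zero]
    rfl
  constructor
  · rintro ⟨a, b⟩ ⟨a', b'⟩ hab
    simp only at hab
    have h2 := congrArg (T.map (idX X iU)) hab
    have h3 := congrArg (T.map (idX X iW)) hab
    rw [eU, eU] at h2
    rw [eW, eW] at h3
    have h4 := (hW X).1 h3
    have h5 := (hU X).1 h2
    subst h4
    have h6 := add_left_cancel h5
    rw [h6]
  · intro y
    obtain ⟨u, hu⟩ := (hU X).2 (T.map (idX X iU) y)
    obtain ⟨w, hw⟩ := (hW X).2 (T.map (idX X iW) y)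
    refine ⟨(w, u - w), ?_⟩
    simp only
    rw [← sub_eq_zero]
    apply inj
    · rw [map_sub, eU, ← hu, add_sub_cancel, sub_self]
    · rw [map_sub, eW, ← hw, sub_self]

/-! ## The Leray–Hirsch property -/

/-- `T E` is a free module over `T B` with the basis `1, ξ, …, ξ^{r-1}`. -/
def LH {E B : Type} [TopologicalSpace E] [TopologicalSpace B] (p : C(E, B)) (ξ : T E) (r : ℕ) :
    Prop :=
  Function.Bijective (fun a : Fin r → T B => ∑ k : Fin r, T.map p (a k) * ξ ^ (k : ℕ))

theorem LH.inj {E B : Type} [TopologicalSpace E] [TopologicalSpace B] {p : C(E, B)} {ξ : T E}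
    {r : ℕ} (h : LH p ξ r) {a b : Fin r → T B}
    (hab : ∑ k : Fin r, T.map p (a k) * ξ ^ (k : ℕ) =
      ∑ k : Fin r, T.map p (b k) * ξ ^ (k : ℕ)) : a = b := h.1 hab

/-- **The glueing lemma** for the Leray–Hirsch property. -/
theorem LH.glue {I U W Y I' U' W' Y' : Type} [TopologicalSpace I] [TopologicalSpace U]
    [TopologicalSpace W] [TopologicalSpace Y] [TopologicalSpace I'] [TopologicalSpace U']
    [TopologicalSpace W'] [TopologicalSpace Y'] {jU : C(I, U)} {jW : C(I, W)} {iU : C(U, Y)}
    {iW : C(W, Y)} (S : MVSq jU jW iU iW) {jU' : C(I', U')} {jW' : C(I', W')} {iU' : C(U', Y')}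
    {iW' : C(W', Y')} (S' : MVSq jU' jW' iU' iW') {pI : C(I', I)} {pU : C(U', U)}
    {pW : C(W', W)} {pY : C(Y', Y)} (h1 : jU.comp pI = pU.comp jU')
    (h2 : jW.comp pI = pW.comp jW') (h3 : iU.comp pU = pY.comp iU')
    (h4 : iW.comp pW = pY.comp iW') {ξ : T Y'} {r : ℕ}
    (hU : LH pU (T.map iU' ξ) r) (hW : LH pW (T.map iW' ξ) r)
    (hI : LH pI (T.map (iU'.comp jU') ξ) r) : LH pY ξ r := by
  -- restriction of `Φ`
  have resU : ∀ a : Fin r → T Y, T.map iU' (∑ k : Fin r, T.map pY (a k) * ξ ^ (k : ℕ)) =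
      ∑ k : Fin r, T.map pU (T.map iU (a k)) * (T.map iU' ξ) ^ (k : ℕ) := by
    intro a
    rw [map_sum]
    refine Finset.sum_congr rfl (fun k _ => ?_)
    rw [map_mul, map_pow, T.map_map, T.map_map, h3]
  have resW : ∀ a : Fin r → T Y, T.map iW' (∑ k : Fin r, T.map pY (a k) * ξ ^ (k : ℕ)) =
      ∑ k : Fin r, T.map pW (T.map iW (a k)) * (T.map iW' ξ) ^ (k : ℕ) := by
    intro a
    rw [map_sum]
    refine Finset.sum_congr rfl (fun k _ => ?_)
    rw [map_mul, map_pow, T.map_map, T.map_map, h4]
  have resU' : ∀ a : Fin r → T U,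
      T.map jU' (∑ k : Fin r, T.map pU (a k) * (T.map iU' ξ) ^ (k : ℕ)) =
      ∑ k : Fin r, T.map pI (T.map jU (a k)) * (T.map (iU'.comp jU') ξ) ^ (k : ℕ) := by
    intro a
    rw [map_sum]
    refine Finset.sum_congr rfl (fun k _ => ?_)
    rw [map_mul, map_pow, T.map_map, T.map_map, T.map_map, h1]
  have resW' : ∀ a : Fin r → T W,
      T.map jW' (∑ k : Fin r, T.map pW (a k) * (T.map iW' ξ) ^ (k : ℕ)) =
      ∑ k : Fin r, T.map pI (T.map jW (a k)) * (T.map (iU'.comp jU') ξ) ^ (k : ℕ) := by
    intro a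
    rw [map_sum]
    refine Finset.sum_congr rfl (fun k _ => ?_)
    rw [map_mul, map_pow, T.map_map, T.map_map, T.map_map, h2, S'.comm]
  -- `Φ` and `δ`
  have delta : ∀ (c : Fin r → T Y) (b : Fin r → T I),
      (∀ k, MVT jU jW iU iW (c k) (b k)) →
      MVT jU' jW' iU' iW' (∑ k : Fin r, T.map pY (c k) * ξ ^ (k : ℕ))
        (∑ k : Fin r, T.map pI (b k) * (T.map (iU'.comp jU') ξ) ^ (k : ℕ)) := by
    intro c b hcb
    refine MVT.sum _ (fun k _ => ?_)
    have h5 := ((hcb k).natural pI pU pW pY h1 h2 h3 h4).mul S'.comm (ξ ^ (k : ℕ))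
    rwa [map_pow] at h5
  have key : ∀ a : Fin r → T Y, ∑ k : Fin r, T.map pY (a k) * ξ ^ (k : ℕ) = 0 → a = 0 := by
    intro a ha
    have hz : ∀ {B E : Type} [TopologicalSpace B] [TopologicalSpace E] (p : C(E, B)) (η : T E),
        (0 : T E) = ∑ k : Fin r, T.map p ((0 : Fin r → T B) k) * η ^ (k : ℕ) := by
      intro B E _ _ p η
      simp
    have aU : (fun k => T.map iU (a k)) = 0 := by
      apply hU.inj
      rw [← resU, ha, map_zero]
      exact hz _ _
    have aW : (fun k => T.map iW (a k)) = 0 := by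
      apply hW.inj
      rw [← resW, ha, map_zero]
      exact hz _ _
    choose b hb using fun k => MVT.of_restrict S (congrFun aU k) (congrFun aW k)
    have h5 := delta a b hb
    rw [ha] at h5
    obtain ⟨u, w, huw⟩ := h5.exact_I S'.comm
    obtain ⟨u, rfl⟩ := hU.2 u
    obtain ⟨w, rfl⟩ := hW.2 w
    simp only at huw
    rw [resU', resW', ← Finset.sum_sub_distrib] at huw
    have h6 : b = fun k => T.map jU (u k) - T.map jW (w k) := by
      apply hI.inj
      rw [huw]
      refine Finset.sum_congr rfl (fun k _ => ?_)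
      rw [map_sub, sub_mul]
    funext k
    have h7 := hb k
    rw [h6] at h7
    exact MVT.unique S h7 (MVT.of_sub (u k) (w k))
  constructor
  · intro a a' haa
    simp only at haa
    rw [← sub_eq_zero]
    apply key
    rw [← sub_eq_zero, ← Finset.sum_sub_distrib] at haa
    rw [← haa]
    refine Finset.sum_congr rfl (fun k _ => ?_)
    rw [Pi.sub_apply, map_sub, sub_mul]
  · intro y
    obtain ⟨u, hu⟩ := hU.2 (T.map iU' y)
    obtain ⟨w, hw⟩ := hW.2 (T.map iW' y)
    simp only at hu hw
    have huw : (fun k => T.map jU (u k)) = fun k => T.map jW (w k) := by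
      apply hI.inj
      rw [← resU', ← resW', hu, hw, T.map_map, T.map_map, S'.comm]
    choose a ha using fun k => MVT.exact_UW S (congrFun huw k)
    obtain ⟨v, hv⟩ := MVT.of_restrict S'
      (c := y - ∑ k : Fin r, T.map pY (a k) * ξ ^ (k : ℕ))
      (by
        rw [map_sub, resU, ← hu, sub_eq_zero]
        refine Finset.sum_congr rfl (fun k _ => ?_)
        rw [(ha k).1])
      (by
        rw [map_sub, resW, ← hw, sub_eq_zero]
        refine Finset.sum_congr rfl (fun k _ => ?_)
        rw [(ha k).2])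
    obtain ⟨v, rfl⟩ := hI.2 v
    choose c hc using fun k => MVT.exists S (v k)
    have h8 := MVT.unique S' hv (delta c v hc)
    refine ⟨fun k => a k + c k, ?_⟩
    simp only [map_add, add_mul, Finset.sum_add_distrib]
    rw [← h8]
    abel

/-- Invariance of the Leray–Hirsch property. -/
theorem LH.of_bij {E B E' : Type} [TopologicalSpace E] [TopologicalSpace B] [TopologicalSpace E']
    {p : C(E, B)} {ξ : T E} {r : ℕ} (h : LH p ξ r) (f : C(E', E))
    (hf : Function.Bijective (T.map f)) : LH (p.comp f) (T.map f ξ) r := by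
  have h2 := hf.comp h
  have e : (fun a : Fin r → T B => ∑ k : Fin r, T.map (p.comp f) (a k) * (T.map f ξ) ^ (k : ℕ)) =
      T.map f ∘ (fun a : Fin r → T B => ∑ k : Fin r, T.map p (a k) * ξ ^ (k : ℕ)) := by
    funext a
    rw [Function.comp_apply, map_sum]
    refine Finset.sum_congr rfl (fun k _ => ?_)
    rw [map_mul, map_pow, T.map_map]
  rw [LH, e]
  exact h2

theorem LH.of_bij_base {E B B' : Type} [TopologicalSpace E] [TopologicalSpace B]
    [TopologicalSpace B'] {p : C(E, B)} {ξ : T E} {r : ℕ} (h : LH p ξ r) (g : C(B, B'))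
    (hg : Function.Bijective (T.map g)) : LH (g.comp p) ξ r := by
  have hg' : Function.Bijective (fun a : Fin r → T B' => fun k => T.map g (a k)) := by
    constructor
    · intro a b hab
      funext k
      exact hg.1 (congrFun hab k)
    · intro b
      choose a ha using fun k => hg.2 (b k)
      exact ⟨a, funext ha⟩
  have h2 := Function.Bijective.comp h hg'
  have e : (fun a : Fin r → T B' => ∑ k : Fin r, T.map (g.comp p) (a k) * ξ ^ (k : ℕ)) =
      (fun a : Fin r → T B => ∑ k : Fin r, T.map p (a k) * ξ ^ (k : ℕ)) ∘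
        fun a : Fin r → T B' => fun k => T.map g (a k) := by
    funext a
    rw [Function.comp_apply]
    refine Finset.sum_congr rfl (fun k _ => ?_)
    rw [T.map_map]
  rw [LH, e]
  exact h2

end

end Pool.Agent.Lib.MP_904b2a_gt.H83
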