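import Pool.Agent.Lib.MP_904b2a_gt.Coh

/-!
# MP_904b2a_gt: the cohomology ring

Associativity, unit, naturality of the cup product; the total cohomology ring
`T X = ∀ n, H n X ℤ`.
-/

open scoped BigOperators
open Finset

namespace Pool.Agent.Lib.MP_904b2a_gt.H83

noncomputable section

variable {X Y Z : Type*} [TopologicalSpace X] [TopologicalSpace Y] [TopologicalSpace Z]

/-! ## The cup product -/

theorem front_front {p m n : ℕ} (hp : p ≤ m) (hm : m ≤ n) :
    frontv m n ∘ frontv p m = frontv p n := by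
  funext k
  apply Fin.ext
  have hk := k.2
  simp only [Function.comp, frontv_val]
  omega

theorem front_back {p q m n s l : ℕ} (h1 : p + q = m) (h2 : m + s = n) (h3 : q + s = l) :
    frontv m n ∘ backv q m = backv l n ∘ frontv q l := by
  funext k
  apply Fin.ext
  have hk := k.2
  simp only [Function.comp, frontv_val, backv_val]
  omega

theorem back_back {s l n : ℕ} (hs : s ≤ l) (hl : l ≤ n) :
    backv l n ∘ backv s l = backv s n := by
  funext k
  apply Fin.ext
  have hk := k.2
  simp only [Function.comp, backv_val]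
  omega

theorem backv_self (n : ℕ) : backv n n = id := by
  funext k
  apply Fin.ext
  have hk := k.2
  simp only [backv_val, id]
  omega

theorem frontv_self (n : ℕ) : frontv n n = id := by
  funext k
  apply Fin.ext
  have hk := k.2
  simp only [frontv_val, id]
  omega

theorem cupC_assoc {p q s m l n : ℕ} (h1 : p + q = m) (h2 : m + s = n) (h3 : q + s = l)
    (_ : p + l = n) (φ : Coch p X ℤ) (ψ : Coch q X ℤ) (χ : Coch s X ℤ) :
    cupC m s n (cupC p q m φ ψ) χ = cupC p l n φ (cupC q s l ψ χ) := by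
  funext σ
  simp only [cupC, ContinuousMap.comp_assoc, smap_comp]
  rw [front_front (by omega) (by omega), front_back h1 h2 h3, back_back (by omega) (by omega),
    mul_assoc]

theorem H.cup_assoc {p q s m l n : ℕ} (h1 : p + q = m) (h2 : m + s = n) (h3 : q + s = l)
    (h4 : p + l = n) (a : H p X ℤ) (b : H q X ℤ) (c : H s X ℤ) :
    H.cup h2 (H.cup h1 a b) c = H.cup h4 a (H.cup h3 b c) := by
  obtain ⟨φ, rfl⟩ := H.mk_surjective p a
  obtain ⟨ψ, rfl⟩ := H.mk_surjective q b
  obtain ⟨χ, rfl⟩ := H.mk_surjective s c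
  rw [H.cup_mk, H.cup_mk, H.cup_mk, H.cup_mk]
  congr 1
  exact Subtype.ext (cupC_assoc h1 h2 h3 h4 φ.1 ψ.1 χ.1)

theorem H.one_cup {n : ℕ} (h : 0 + n = n) (a : H n X ℤ) : H.cup h H.one a = a := by
  obtain ⟨φ, rfl⟩ := H.mk_surjective n a
  rw [H.one, H.cup_mk]
  congr 1
  apply Subtype.ext
  funext σ
  simp only [cupC, backv_self, smap_id, ContinuousMap.comp_id, one_mul]

theorem H.cup_one {n : ℕ} (h : n + 0 = n) (a : H n X ℤ) : H.cup h a H.one = a := by
  obtain ⟨φ, rfl⟩ := H.mk_surjective n a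
  rw [H.one, H.cup_mk]
  congr 1
  apply Subtype.ext
  funext σ
  simp only [cupC, frontv_self, smap_id, ContinuousMap.comp_id, mul_one]

/-! ## The total cohomology ring -/

/-- The total cohomology `∏ H^n(X;ℤ)`. -/
def T (X : Type*) [TopologicalSpace X] : Type _ := ∀ n : ℕ, H n X ℤ

instance : AddCommGroup (T X) := inferInstanceAs (AddCommGroup (∀ n : ℕ, H n X ℤ))

@[ext]
theorem T.ext {a b : T X} (h : ∀ n, a n = b n) : a = b := funext h

@[simp]
theorem T.add_apply (a b : T X) (n : ℕ) : (a + b) n = a n + b n := rfl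

@[simp]
theorem T.sub_apply (a b : T X) (n : ℕ) : (a - b) n = a n - b n := rfl

@[simp]
theorem T.neg_apply (a : T X) (n : ℕ) : (-a) n = -a n := rfl

@[simp]
theorem T.zero_apply (n : ℕ) : (0 : T X) n = 0 := rfl

/-- The component of degree `n`, as a homomorphism. -/
def T.proj (n : ℕ) : T X →+ H n X ℤ := Pi.evalAddMonoidHom _ n

@[simp]
theorem T.proj_apply (n : ℕ) (a : T X) : T.proj n a = a n := rfl

theorem T.sum_apply {ι : Type*} (s : Finset ι) (f : ι → T X) (n : ℕ) :
    (∑ i ∈ s, f i) n = ∑ i ∈ s, f i n := map_sum (T.proj n) f s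

/-- The element of `T X` with only one component. -/
def T.of (n : ℕ) : H n X ℤ →+ T X := AddMonoidHom.single (fun n => H n X ℤ) n

theorem T.of_self (n : ℕ) (a : H n X ℤ) : T.of n a n = a :=
  Pi.single_eq_same (M := fun n => H n X ℤ) n a

theorem T.of_ne {m n : ℕ} (h : m ≠ n) (a : H n X ℤ) : T.of n a m = 0 :=
  Pi.single_eq_of_ne (M := fun n => H n X ℤ) h a

/-- The cup product `H^p × H^q → H^n`, zero if `n ≠ p + q`. -/
def cup0 (p q n : ℕ) : H p X ℤ →+ H q X ℤ →+ H n X ℤ :=
  if h : p + q = n then H.cup h else 0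

theorem cup0_eq {p q n : ℕ} (h : p + q = n) (a : H p X ℤ) (b : H q X ℤ) :
    cup0 p q n a b = H.cup h a b := by
  rw [cup0, dif_pos h]

theorem cup0_assoc {p q s m l n : ℕ} (h1 : p + q = m) (h2 : m + s = n) (h3 : q + s = l)
    (h4 : p + l = n) (a : H p X ℤ) (b : H q X ℤ) (c : H s X ℤ) :
    cup0 m s n (cup0 p q m a b) c = cup0 p l n a (cup0 q s l b c) := by
  rw [cup0_eq h1, cup0_eq h2, cup0_eq h3, cup0_eq h4, H.cup_assoc h1 h2 h3 h4]

/-- The product of the total cohomology ring. -/
def T.mul (a b : T X) : T X := fun n => ∑ x ∈ antidiagonal n, cup0 x.1 x.2 n (a x.1) (b x.2)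

instance : Mul (T X) := ⟨T.mul⟩

theorem T.mul_apply (a b : T X) (n : ℕ) :
    (a * b) n = ∑ x ∈ antidiagonal n, cup0 x.1 x.2 n (a x.1) (b x.2) := rfl

instance : One (T X) := ⟨T.of 0 H.one⟩

theorem T.one_def : (1 : T X) = T.of 0 H.one := rfl

theorem T.mul_add' (a b c : T X) : a * (b + c) = a * b + a * c := by
  ext n
  simp only [T.mul_apply, T.add_apply, map_add, sum_add_distrib]

theorem T.add_mul' (a b c : T X) : (a + b) * c = a * c + b * c := by
  ext n
  simp only [T.mul_apply, T.add_apply, map_add, AddMonoidHom.add_apply, sum_add_distrib]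

theorem T.mul_assoc' (a b c : T X) : a * b * c = a * (b * c) := by
  ext n
  simp only [T.mul_apply, map_sum, AddMonoidHom.finsetSum_apply, Finset.sum_sigma']
  refine Finset.sum_nbij' (fun x => ⟨(x.2.1, x.2.2 + x.1.2), (x.2.2, x.1.2)⟩)
    (fun x => ⟨(x.1.1 + x.2.1, x.2.2), (x.1.1, x.2.1)⟩) ?_ ?_ ?_ ?_ ?_
  · rintro ⟨⟨m, s⟩, ⟨p, q⟩⟩ h
    simp only [mem_sigma, HasAntidiagonal.mem_antidiagonal] at h ⊢
    obtain ⟨h1, h2⟩ := h
    exact ⟨by omega, trivial⟩
  · rintro ⟨⟨p, l⟩, ⟨q, s⟩⟩ h
    simp only [mem_sigma, HasAntidiagonal.mem_antidiagonal] at h ⊢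
    obtain ⟨h1, h2⟩ := h
    exact ⟨by omega, trivial⟩
  · rintro ⟨⟨m, s⟩, ⟨p, q⟩⟩ h
    simp only [mem_sigma, HasAntidiagonal.mem_antidiagonal] at h
    obtain ⟨h1, rfl⟩ := h
    rfl
  · rintro ⟨⟨p, l⟩, ⟨q, s⟩⟩ h
    simp only [mem_sigma, HasAntidiagonal.mem_antidiagonal] at h
    obtain ⟨h1, rfl⟩ := h
    rfl
  · rintro ⟨⟨m, s⟩, ⟨p, q⟩⟩ h
    simp only [mem_sigma, HasAntidiagonal.mem_antidiagonal] at h
    obtain ⟨h1, h2⟩ := h
    exact cup0_assoc h2 h1 rfl (by omega) _ _ _

theorem T.mul_of_of {p q n : ℕ} (h : p + q = n) (a : H p X ℤ) (b : H q X ℤ) :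
    T.of p a * T.of q b = T.of n (H.cup h a b) := by
  ext m
  rw [T.mul_apply]
  by_cases hm : m = n
  · subst hm
    rw [T.of_self, Finset.sum_eq_single (p, q)]
    · rw [T.of_self, T.of_self, cup0_eq h]
    · rintro ⟨p', q'⟩ hx hne
      rw [HasAntidiagonal.mem_antidiagonal] at hx
      by_cases hp : p' = p
      · exfalso
        apply hne
        simp only at hx
        rw [Prod.mk.injEq]
        omega
      · rw [T.of_ne hp, map_zero, AddMonoidHom.zero_apply]
    · intro hx
      exact absurd (HasAntidiagonal.mem_antidiagonal.2 h) hx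
  · rw [T.of_ne hm]
    apply Finset.sum_eq_zero
    rintro ⟨p', q'⟩ hx
    rw [HasAntidiagonal.mem_antidiagonal] at hx
    by_cases hp : p' = p
    · by_cases hq : q' = q
      · exfalso
        simp only at hx
        omega
      · rw [T.of_ne hq, map_zero]
    · rw [T.of_ne hp, map_zero, AddMonoidHom.zero_apply]

theorem T.one_mul' (a : T X) : 1 * a = a := by
  ext n
  rw [T.mul_apply, T.one_def, Finset.sum_eq_single (0, n)]
  · rw [T.of_self, cup0_eq (zero_add n), H.one_cup]
  · rintro ⟨p', q'⟩ hx hne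
    rw [HasAntidiagonal.mem_antidiagonal] at hx
    by_cases hp : p' = 0
    · exfalso
      apply hne
      simp only at hx
      rw [Prod.mk.injEq]
      omega
    · rw [T.of_ne hp, map_zero, AddMonoidHom.zero_apply]
  · intro hx
    exact absurd (HasAntidiagonal.mem_antidiagonal.2 (zero_add n)) hx

theorem T.mul_one' (a : T X) : a * 1 = a := by
  ext n
  rw [T.mul_apply, T.one_def, Finset.sum_eq_single (n, 0)]
  · rw [T.of_self, cup0_eq (add_zero n), H.cup_one]
  · rintro ⟨p', q'⟩ hx hne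
    rw [HasAntidiagonal.mem_antidiagonal] at hx
    by_cases hq : q' = 0
    · exfalso
      apply hne
      simp only at hx
      rw [Prod.mk.injEq]
      omega
    · rw [T.of_ne hq, map_zero]
  · intro hx
    exact absurd (HasAntidiagonal.mem_antidiagonal.2 (add_zero n)) hx

instance : Ring (T X) where
  __ := (inferInstance : AddCommGroup (T X))
  mul_assoc := T.mul_assoc'
  one_mul := T.one_mul'
  mul_one := T.mul_one'
  left_distrib := T.mul_add'
  right_distrib := T.add_mul'
  zero_mul a := by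
    have h := T.add_mul' (0 : T X) 0 a
    rw [add_zero] at h
    exact left_eq_add.1 h
  mul_zero a := by
    have h := T.mul_add' a (0 : T X) 0
    rw [add_zero] at h
    exact left_eq_add.1 h

/-- The homomorphism of total cohomology rings induced by a continuous map. -/
def T.map (f : C(X, Y)) : T Y →+* T X where
  toFun a n := H.pb f (a n)
  map_zero' := by
    ext n
    exact map_zero _
  map_add' a b := by
    ext n
    exact map_add _ _ _
  map_one' := by
    ext n
    rw [T.one_def, T.one_def]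
    by_cases h : n = 0
    · subst h
      rw [T.of_self, T.of_self]
      rfl
    · rw [T.of_ne h, T.of_ne h, map_zero]
  map_mul' a b := by
    ext n
    rw [T.mul_apply, T.mul_apply, map_sum]
    refine Finset.sum_congr rfl (fun x hx => ?_)
    have h := HasAntidiagonal.mem_antidiagonal.1 hx
    rw [cup0_eq h, cup0_eq h, H.pb_cup]

@[simp]
theorem T.map_apply (f : C(X, Y)) (a : T Y) (n : ℕ) : T.map f a n = H.pb f (a n) := rfl

theorem T.map_of (f : C(X, Y)) (n : ℕ) (a : H n Y ℤ) : T.map f (T.of n a) = T.of n (H.pb f a) := by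
  ext m
  rw [T.map_apply]
  by_cases h : m = n
  · subst h
    rw [T.of_self, T.of_self]
  · rw [T.of_ne h, T.of_ne h, map_zero]

theorem T.map_id (a : T X) : T.map (ContinuousMap.id X) a = a := by
  ext n
  exact H.pb_id _

theorem T.map_comp (g : C(Y, Z)) (f : C(X, Y)) (a : T Z) :
    T.map (g.comp f) a = T.map f (T.map g a) := by
  ext n
  exact (H.pb_comp f g _).symm

theorem T.map_map (g : C(Y, Z)) (f : C(X, Y)) (a : T Z) :
    T.map f (T.map g a) = T.map (g.comp f) a := (T.map_comp g f a).symm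

/-- A homeomorphism induces a bijection. -/
theorem T.map_bijective_of_inv {f : C(X, Y)} {g : C(Y, X)} (h1 : g.comp f = ContinuousMap.id X)
    (h2 : f.comp g = ContinuousMap.id Y) : Function.Bijective (T.map f) := by
  constructor
  · intro a b hab
    have h := congrArg (T.map g) hab
    rwa [← T.map_comp, ← T.map_comp, h2, T.map_id, T.map_id] at h
  · intro a
    refine ⟨T.map g a, ?_⟩
    rw [← T.map_comp, h1, T.map_id]

/-- Elements concentrated in one degree. -/
def T.IsHom (n : ℕ) (a : T X) : Prop := ∀ m, m ≠ n → a m = 0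

theorem T.isHom_of (n : ℕ) (a : H n X ℤ) : T.IsHom n (T.of n a) := fun _ h => T.of_ne h a

theorem T.IsHom.eq_of {n : ℕ} {a : T X} (h : T.IsHom n a) : a = T.of n (a n) := by
  ext m
  by_cases hm : m = n
  · subst hm
    rw [T.of_self]
  · rw [h m hm, T.of_ne hm]

theorem T.IsHom.mul {m n : ℕ} {a b : T X} (ha : T.IsHom m a) (hb : T.IsHom n b) :
    T.IsHom (m + n) (a * b) := by
  rw [ha.eq_of, hb.eq_of, T.mul_of_of rfl]
  exact T.isHom_of _ _

theorem T.isHom_one : T.IsHom 0 (1 : T X) := T.isHom_of 0 _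

theorem T.IsHom.pow {n : ℕ} {a : T X} (ha : T.IsHom n a) (k : ℕ) : T.IsHom (k * n) (a ^ k) := by
  induction k with
  | zero =>
    rw [zero_mul, pow_zero]
    exact T.isHom_one
  | succ k ih =>
    rw [pow_succ, Nat.succ_mul]
    exact ih.mul ha

theorem T.IsHom.map {n : ℕ} {a : T Y} (ha : T.IsHom n a) (f : C(X, Y)) :
    T.IsHom n (T.map f a) := by
  rw [ha.eq_of, T.map_of]
  exact T.isHom_of _ _

theorem T.IsHom.zero (n : ℕ) : T.IsHom n (0 : T X) := fun _ _ => rfl

theorem T.IsHom.add {n : ℕ} {a b : T X} (ha : T.IsHom n a) (hb : T.IsHom n b) :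
    T.IsHom n (a + b) := fun m h => by rw [T.add_apply, ha m h, hb m h, add_zero]

/-- The components of a product with a homogeneous element on the right. -/
theorem T.mul_hom_apply {q : ℕ} (a : T X) {b : T X} (hb : T.IsHom q b) {p n : ℕ}
    (h : p + q = n) : (a * b) n = H.cup h (a p) (b q) := by
  rw [T.mul_apply, Finset.sum_eq_single (p, q)]
  · rw [cup0_eq h]
  · rintro ⟨p', q'⟩ hx hne
    rw [HasAntidiagonal.mem_antidiagonal] at hx
    simp only at hx
    have hq : q' ≠ q := by
      intro h'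
      apply hne
      rw [Prod.mk.injEq]
      omega
    rw [hb q' hq, map_zero]
  · intro hx
    exact absurd (HasAntidiagonal.mem_antidiagonal.2 h) hx

theorem T.mul_hom_apply_lt {q : ℕ} (a : T X) {b : T X} (hb : T.IsHom q b) {n : ℕ}
    (h : n < q) : (a * b) n = 0 := by
  rw [T.mul_apply]
  apply Finset.sum_eq_zero
  rintro ⟨p', q'⟩ hx
  rw [HasAntidiagonal.mem_antidiagonal] at hx
  simp only at hx
  rw [hb q' (by omega), map_zero]

end

end Pool.Agent.Lib.MP_904b2a_gt.H83
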