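import Pool.Agent.Lib.MP_904b2a_gt.H83.CP
import Pool.Agent.Lib.MP_904b2a_gt.H83.Punct

/-!
# MP_904b2a_gt: charts of the projective spaces, the classes `ξ_n`
-/

open scoped BigOperators Matrix ComplexOrder
open Set Topology

set_option linter.unusedSectionVars false

namespace Pool.Agent.Lib.MP_904b2a_gt.H83

noncomputable section

variable {ι κ μ ν : Type} [Fintype ι] [DecidableEq ι] [Fintype κ] [DecidableEq κ]
  [Fintype μ] [DecidableEq μ] [Fintype ν] [DecidableEq ν]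

/-! ## Matrices of inclusions -/

/-- The matrix of the linear map `e_i ↦ e_{f i}`. -/
def EM (f : ι → κ) : Matrix κ ι ℂ := Matrix.of fun k i => if f i = k then 1 else 0

theorem EM_mul (g : κ → μ) (f : ι → κ) : EM g * EM f = EM (g ∘ f) := by
  ext m i
  simp [Matrix.mul_apply, EM]

theorem EM_id : EM (id : ι → ι) = 1 := by
  ext i j
  simp [EM, Matrix.one_apply, eq_comm]

theorem EM_conj_mul {f : ι → κ} (hf : Function.Injective f) : (EM f)ᴴ * EM f = 1 := by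
  ext i j
  simp [Matrix.mul_apply, EM, Matrix.conjTranspose_apply, Matrix.one_apply, hf.eq_iff, eq_comm]

theorem EM_conj_mul_zero {f : ι → μ} {g : κ → μ} (h : ∀ i j, f i ≠ g j) :
    (EM f)ᴴ * EM g = 0 := by
  ext i j
  simpa [Matrix.mul_apply, EM, Matrix.conjTranspose_apply] using h i j

/-- An orthogonal decomposition `ℂ^ι = ℂ^κ ⊕ ℂ^μ`. -/
structure Dec (ι κ μ : Type) [Fintype ι] [DecidableEq ι] [Fintype κ] [DecidableEq κ]
    [Fintype μ] [DecidableEq μ] where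
  /-- the first inclusion -/
  J : Matrix ι κ ℂ
  /-- the second inclusion -/
  K : Matrix ι μ ℂ
  JJ : Jᴴ * J = 1
  KK : Kᴴ * K = 1
  sum : J * Jᴴ + K * Kᴴ = 1

namespace Dec

variable (D : Dec ι κ μ)

/-- Exchange of the summands. -/
def symm : Dec ι μ κ where
  J := D.K
  K := D.J
  JJ := D.KK
  KK := D.JJ
  sum := by
    rw [add_comm]
    exact D.sum

theorem JK : D.Jᴴ * D.K = 0 := by
  have h := congrArg (fun M => D.Jᴴ * (M * D.K)) D.sum
  simp only [Matrix.add_mul, Matrix.mul_add, Matrix.mul_assoc, D.KK, Matrix.mul_one,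
    Matrix.one_mul] at h
  rw [← Matrix.mul_assoc D.Jᴴ D.J, D.JJ, Matrix.one_mul] at h
  exact add_eq_right.1 h

theorem KJ : D.Kᴴ * D.J = 0 := D.symm.JK

/-- The linear map which is the multiplication by `s` on the first and by `t` on the second
summand. -/
def Dg (s t : ℂ) : Matrix ι ι ℂ := s • (D.J * D.Jᴴ) + t • (D.K * D.Kᴴ)

theorem Jc_Dg (s t : ℂ) : D.Jᴴ * D.Dg s t = s • D.Jᴴ := by
  rw [Dg, Matrix.mul_add, Matrix.mul_smul, Matrix.mul_smul, ← Matrix.mul_assoc, D.JJ,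
    ← Matrix.mul_assoc, D.JK, Matrix.one_mul, Matrix.zero_mul, smul_zero, add_zero]

theorem Kc_Dg (s t : ℂ) : D.Kᴴ * D.Dg s t = t • D.Kᴴ := by
  rw [Dg, Matrix.mul_add, Matrix.mul_smul, Matrix.mul_smul, ← Matrix.mul_assoc, D.KJ,
    ← Matrix.mul_assoc, D.KK, Matrix.one_mul, Matrix.zero_mul, smul_zero, zero_add]

theorem Dg_one : D.Dg 1 1 = 1 := by
  rw [Dg, one_smul, one_smul, D.sum]

theorem Dg_zero_one : D.Dg 0 1 = D.K * D.Kᴴ := by
  rw [Dg, zero_smul, one_smul, zero_add]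

theorem Dg_one_zero : D.Dg 1 0 = D.J * D.Jᴴ := by
  rw [Dg, zero_smul, one_smul, add_zero]

theorem continuous_Dg : Continuous (fun p : ℂ × ℂ => D.Dg p.1 p.2) :=
  (continuous_fst.smul continuous_const).add (continuous_snd.smul continuous_const)

/-- Something is nonzero in one of the summands. -/
theorem ne_zero_or (q : CP ι) : D.Kᴴ * q.1 ≠ 0 ∨ D.Jᴴ * q.1 ≠ 0 := by
  by_contra h
  rw [not_or, not_not, not_not] at h
  apply CP.ne_zero q
  rw [← Matrix.one_mul q.1, ← D.sum, Matrix.add_mul, Matrix.mul_assoc, Matrix.mul_assoc, h.1,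
    h.2, Matrix.mul_zero, Matrix.mul_zero, add_zero]

end Dec

/-- The decomposition `ℂ^{n+1} = ℂ^n ⊕ ℂ`. -/
def decLast (n : ℕ) : Dec (Fin (n + 1)) (Fin n) (Fin 1) where
  J := EM Fin.castSucc
  K := EM fun _ => Fin.last n
  JJ := EM_conj_mul (Fin.castSucc_injective n)
  KK := EM_conj_mul (Function.injective_of_subsingleton _)
  sum := by
    ext i j
    simp only [Matrix.add_apply, Matrix.mul_apply, EM, Matrix.conjTranspose_apply,
      Matrix.of_apply, Matrix.one_apply]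
    refine Fin.lastCases ?_ (fun i => ?_) i
    · refine Fin.lastCases ?_ (fun j => ?_) j
      · simp [(Fin.castSucc_lt_last _).ne]
      · simp [(Fin.castSucc_lt_last _).ne, (Fin.castSucc_lt_last _).ne']
    · refine Fin.lastCases ?_ (fun j => ?_) j
      · simp [(Fin.castSucc_lt_last _).ne, (Fin.castSucc_lt_last _).ne']
      · simp [(Fin.castSucc_lt_last _).ne', eq_comm]

/-! ## The sets where a linear map does not vanish -/

section Nz

variable {Y : Type} [TopologicalSpace Y]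

/-- The set of points whose line is not killed by `M`. -/
def nz (M : Matrix κ ι ℂ) (q : C(Y, CP ι)) : Set Y := {y | M * (q y).1 ≠ 0}

theorem isOpen_nz (M : Matrix κ ι ℂ) (q : C(Y, CP ι)) : IsOpen (nz M q) :=
  isOpen_ne_fun (continuous_const.matrix_mul (Gr.continuous_val.comp q.continuous))
    continuous_const

/-- The square of the two open sets. -/
theorem Dec.sq (D : Dec ι κ μ) (q : C(Y, CP ι)) :
    MVSq (incl (inter_subset_left : nz D.Kᴴ q ∩ nz D.Jᴴ q ⊆ nz D.Kᴴ q))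
      (incl (inter_subset_right : nz D.Kᴴ q ∩ nz D.Jᴴ q ⊆ nz D.Jᴴ q))
      (sval (nz D.Kᴴ q)) (sval (nz D.Jᴴ q)) :=
  MVSq.univ (isOpen_nz _ _) (isOpen_nz _ _) _ _ (fun y => D.ne_zero_or (q y)) subset_rfl

end Nz

theorem homotopic_mk {Y Z : Type*} [TopologicalSpace Y] [TopologicalSpace Z] (f g : C(Y, Z))
    (F : unitInterval × Y → Z) (hF : Continuous F) (h0 : ∀ y, F (0, y) = f y)
    (h1 : ∀ y, F (1, y) = g y) : f.Homotopic g :=
  ⟨{ toFun := F
     continuous_toFun := hF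
     map_zero_left := h0
     map_one_left := h1 }⟩

/-! ## The affine chart is contractible -/

theorem eq_trace_smul_one (M : Matrix (Fin 1) (Fin 1) ℂ) :
    M = M.trace • (1 : Matrix (Fin 1) (Fin 1) ℂ) := by
  ext i j
  have hi := Fin.fin_one_eq_zero i
  have hj := Fin.fin_one_eq_zero j
  subst hi hj
  simp [Matrix.trace]

namespace Dec

variable (D : Dec ι κ (Fin 1))

/-- The center of the affine chart. -/
def pt : CP ι := ⟨D.K * D.Kᴴ, by
  rw [Matrix.conjTranspose_mul, Matrix.conjTranspose_conjTranspose], by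
  rw [Matrix.mul_assoc, ← Matrix.mul_assoc D.Kᴴ, D.KK, Matrix.one_mul], by
  rw [Matrix.trace_mul_comm, D.KK, Matrix.trace_one, Fintype.card_fin]⟩

theorem pt_mem : D.Kᴴ * D.pt.1 ≠ 0 := by
  change D.Kᴴ * (D.K * D.Kᴴ) ≠ 0
  rw [← Matrix.mul_assoc, D.KK, Matrix.one_mul]
  intro h
  have h2 := D.KK
  rw [h, Matrix.zero_mul] at h2
  exact zero_ne_one h2

theorem Dg_ne_zero {q : CP ι} (h : D.Kᴴ * q.1 ≠ 0) (s : ℂ) : D.Dg s 1 * q.1 ≠ 0 := by
  intro h0
  apply h
  rw [← one_smul ℂ D.Kᴴ, ← D.Kc_Dg s 1, Matrix.mul_assoc, h0, Matrix.mul_zero]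

theorem push_Dg_mem {q : CP ι} (h : D.Kᴴ * q.1 ≠ 0) (s : ℂ) :
    D.Kᴴ * (CP.push (D.Dg s 1) q (D.Dg_ne_zero h s)).1 ≠ 0 := by
  apply CP.mul_push_ne_zero
  rw [D.Kc_Dg, one_smul]
  exact h

theorem push_Dg_one {q : CP ι} {B : Matrix ι ι ℂ} (hB : B = D.Dg 1 1) (h : B * q.1 ≠ 0) :
    CP.push B q h = q := by
  subst hB
  apply CP.push_eq
  rw [D.Dg_one, Matrix.one_mul, CP.idem]

theorem push_Dg_zero {q : CP ι} {B : Matrix ι ι ℂ} (hB : B = D.Dg 0 1) (h : B * q.1 ≠ 0) :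
    CP.push B q h = D.pt := by
  subst hB
  apply CP.push_eq
  change D.K * D.Kᴴ * _ = _
  rw [D.Dg_zero_one, ← Matrix.mul_assoc, ← Matrix.mul_assoc, Matrix.mul_assoc D.K, D.KK,
    Matrix.mul_one]

theorem ptLike : PtLike (nz D.Kᴴ (ContinuousMap.id (CP ι))) := by
  refine PtLike.of_homotopic ⟨D.pt, D.pt_mem⟩ ?_
  refine homotopic_mk _ _ (fun p => ⟨CP.push (D.Dg ((p.1 : ℝ) : ℂ) 1) p.2.1
    (D.Dg_ne_zero p.2.2 _), D.push_Dg_mem p.2.2 _⟩) ?_ ?_ ?_
  · refine Continuous.subtype_mk ?_ _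
    refine CP.continuous_push ?_ (continuous_subtype_val.comp continuous_snd) _
    exact D.continuous_Dg.comp ((Complex.continuous_ofReal.comp
      (continuous_subtype_val.comp continuous_fst)).prodMk continuous_const)
  · intro q
    apply Subtype.ext
    refine D.push_Dg_zero ?_ (D.Dg_ne_zero q.2 _)
    simp
  · intro q
    apply Subtype.ext
    refine D.push_Dg_one ?_ (D.Dg_ne_zero q.2 _)
    simp

end Dec

/-! ## The line of `ℂ^1` -/

/-- The line of `ℂ^1`. -/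
def one1 : CP (Fin 1) := ⟨1, Matrix.conjTranspose_one, one_mul _, by
  rw [Matrix.trace_one, Fintype.card_fin]⟩

instance : Subsingleton (CP (Fin 1)) := by
  constructor
  intro a b
  apply Gr.ext
  rw [eq_trace_smul_one a.1, eq_trace_smul_one b.1, CP.tr, CP.tr]

instance : IsEmpty (CP (Fin 0)) := by
  constructor
  intro a
  have h := CP.tr a
  simp [Matrix.trace] at h

/-- The image of the line `q y` under `M`, where it is defined. -/
def pushOn {Y : Type} [TopologicalSpace Y] (M : Matrix κ ι ℂ) (q : C(Y, CP ι)) :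
    C(nz M q, CP κ) :=
  ⟨fun y => CP.push M (q y.1) y.2,
    CP.continuous_push continuous_const (q.continuous.comp continuous_subtype_val) (fun y => y.2)⟩

namespace Dec

variable (D : Dec ι κ (Fin 1))

/-- The trace `c`. -/
def ctr (q : CP ι) : ℂ := (D.Kᴴ * q.1 * D.K).trace

theorem ctr_ne_zero {q : CP ι} (h : D.Kᴴ * q.1 ≠ 0) : D.ctr q ≠ 0 := by
  have h2 := CP.trace_ne_zero h
  rwa [Matrix.conjTranspose_conjTranspose] at h2

theorem mul_KK_mul (q : CP ι) : q.1 * (D.K * D.Kᴴ) * q.1 = D.ctr q • q.1 := by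
  rw [CP.mul_mul, ctr]
  congr 1
  have h := CP.trace_push q D.Kᴴ
  rw [Matrix.conjTranspose_conjTranspose] at h
  exact h.symm

/-- The line is determined by the last column. -/
theorem smul_Jc_mul (q : CP ι) :
    (D.Jᴴ * q.1 * D.K) * (D.Kᴴ * q.1) = D.ctr q • (D.Jᴴ * q.1) := by
  have h := congrArg (fun M => D.Jᴴ * M) (D.mul_KK_mul q)
  simp only [Matrix.mul_smul] at h
  rw [← h]
  simp only [Matrix.mul_assoc]

theorem col_ne_zero {q : CP ι} (h : D.Kᴴ * q.1 ≠ 0) (h' : D.Jᴴ * q.1 ≠ 0) :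
    D.Jᴴ * q.1 * D.K ≠ 0 := by
  intro h0
  have h2 := D.smul_Jc_mul q
  rw [h0, Matrix.zero_mul] at h2
  rcases smul_eq_zero.1 h2.symm with h3 | h3
  · exact D.ctr_ne_zero h h3
  · exact h' h3

/-- Criterion for the image of `q` in the first summand. -/
theorem push_col {q : CP ι} (h : D.Kᴴ * q.1 ≠ 0) (h' : D.Jᴴ * q.1 ≠ 0) {q' : CP κ}
    (hq : q'.1 * (D.Jᴴ * q.1 * D.K) = D.Jᴴ * q.1 * D.K) : CP.push D.Jᴴ q h' = q' := by
  apply CP.push_eq
  have h2 := D.smul_Jc_mul q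
  have hc := D.ctr_ne_zero h
  have h3 : D.Jᴴ * q.1 = (D.ctr q)⁻¹ • ((D.Jᴴ * q.1 * D.K) * (D.Kᴴ * q.1)) := by
    rw [h2, smul_smul, inv_mul_cancel₀ hc, one_smul]
  rw [h3, Matrix.mul_smul, ← Matrix.mul_assoc, hq]

end Dec

/-! ## The classes `ξ_n` -/

/-- The column with the given entries. -/
def colM {n : ℕ} (v : Fin n → ℂ) : Matrix (Fin n) (Fin 1) ℂ := Matrix.of fun i _ => v i

theorem colM_ne_zero {n : ℕ} (v : Vn n) : colM v.1 * one1.1 ≠ 0 := by
  intro h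
  apply v.2
  change colM v.1 * 1 = 0 at h
  rw [Matrix.mul_one] at h
  funext i
  exact congrFun (congrFun h i) 0

/-- The line spanned by a nonzero vector. -/
def lineOf (n : ℕ) : C(Vn n, CP (Fin n)) :=
  ⟨fun v => CP.push (colM v.1) one1 (colM_ne_zero v), by
    refine CP.continuous_push ?_ continuous_const _
    exact continuous_pi fun i => continuous_pi fun _ =>
      (continuous_apply i).comp continuous_subtype_val⟩

theorem EM_castSucc_ne_zero (n : ℕ) (q : CP (Fin n)) : (decLast n).J * q.1 ≠ 0 :=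
  CP.mul_ne_zero_of_left_inv one_ne_zero (by rw [one_smul]; exact (decLast n).JJ) q

theorem exists_xi_succ {n : ℕ} (hn : 2 ≤ n) (ξ : H 2 (CP (Fin n)) ℤ) :
    ∃ ξ' : H 2 (CP (Fin (n + 1))) ℤ,
      H.pb (CP.pushC (decLast n).J (EM_castSucc_ne_zero n)) ξ' = ξ := by
  set D := decLast n with hD
  have S := D.sq (ContinuousMap.id (CP (Fin (n + 1))))
  -- the map to `ℂ^n ∖ 0`
  have hvm : ∀ y : ↥(nz D.Kᴴ (ContinuousMap.id (CP (Fin (n + 1)))) ∩
      nz D.Jᴴ (ContinuousMap.id (CP (Fin (n + 1))))),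
      (fun i => (D.Jᴴ * y.1.1 * D.K) i 0) ∈ Vn n := by
    intro y h0
    apply D.col_ne_zero y.2.1 y.2.2
    ext i j
    rw [Fin.fin_one_eq_zero j]
    exact congrFun h0 i
  set v : C(↥(nz D.Kᴴ (ContinuousMap.id (CP (Fin (n + 1)))) ∩
      nz D.Jᴴ (ContinuousMap.id (CP (Fin (n + 1))))), Vn n) :=
    ⟨fun y => ⟨fun i => (D.Jᴴ * y.1.1 * D.K) i 0, hvm y⟩, Continuous.subtype_mk
      (continuous_pi fun i => (((continuous_const.matrix_mul (Gr.continuous_val.comp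
        continuous_subtype_val)).matrix_mul continuous_const).matrix_elem i 0)) hvm⟩ with hv
  have e1 : (pushOn D.Jᴴ (ContinuousMap.id (CP (Fin (n + 1))))).comp (incl inter_subset_right) =
      (lineOf n).comp v := by
    ext1 y
    refine D.push_col y.2.1 y.2.2 ?_
    have h1 : D.Jᴴ * y.1.1 * D.K = colM (v y).1 := by
      ext i j
      rw [Fin.fin_one_eq_zero j]
      rfl
    have h2 := CP.push_mul (colM (v y).1) one1 (colM_ne_zero (v y))
    change (CP.push _ _ _).1 * (_ * 1) = _ * 1 at h2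
    rw [Matrix.mul_one] at h2
    change (CP.push (colM (v y).1) one1 (colM_ne_zero (v y))).1 * (D.Jᴴ * y.1.1 * D.K) =
      D.Jᴴ * y.1.1 * D.K
    rw [h1]
    exact h2
  obtain ⟨ξ', -, h2⟩ := MV.exact_UW S (n := 2) (u := 0)
    (w := H.pb (pushOn D.Jᴴ (ContinuousMap.id (CP (Fin (n + 1))))) ξ) (by
      rw [map_zero, H.pb_comp, e1, ← H.pb_comp, H2_Vn hn (H.pb (lineOf n) ξ), map_zero])
  refine ⟨ξ', ?_⟩
  have hσ : ∀ q : CP (Fin n), CP.pushC D.J (EM_castSucc_ne_zero n) q ∈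
      nz D.Jᴴ (ContinuousMap.id (CP (Fin (n + 1)))) := by
    intro q
    refine CP.mul_push_ne_zero (EM_castSucc_ne_zero n q) ?_
    rw [D.JJ, Matrix.one_mul]
    exact CP.ne_zero q
  set σ : C(CP (Fin n), nz D.Jᴴ (ContinuousMap.id (CP (Fin (n + 1))))) :=
    ⟨fun q => ⟨CP.pushC D.J (EM_castSucc_ne_zero n) q, hσ q⟩,
      Continuous.subtype_mk (CP.pushC D.J (EM_castSucc_ne_zero n)).continuous hσ⟩ with hσd
  have e2 : CP.pushC D.J (EM_castSucc_ne_zero n) = (sval _).comp σ := rfl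
  have e3 : (pushOn D.Jᴴ (ContinuousMap.id (CP (Fin (n + 1))))).comp σ =
      ContinuousMap.id _ := by
    ext1 q
    have h4 := CP.mul_ne_zero_of_push (EM_castSucc_ne_zero n q) (hσ q)
    refine (CP.push_push D.Jᴴ D.J q (EM_castSucc_ne_zero n q) (hσ q) h4).trans ?_
    apply CP.push_eq
    rw [D.JJ, Matrix.one_mul]
    exact CP.idem q
  rw [e2, ← H.pb_comp, h2, H.pb_comp, e3, H.pb_id]

/-- The cohomology of the projective line. -/
theorem exists_split_CP2 : ∃ ξ : H 2 (CP (Fin 2)) ℤ, Split2 (CP (Fin 2)) (T.of 2 ξ) := by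
  obtain ⟨θ, hθ⟩ := exists_split_Cst
  set D := decLast 1 with hD
  set e : C(CP (Fin 2), CP (Fin 2)) := ContinuousMap.id _ with he
  have S := D.sq e
  have h1x1 : ∀ M : Matrix (Fin 1) (Fin 1) ℂ, M ≠ 0 → M.trace ≠ 0 := by
    intro M hM h0
    apply hM
    rw [eq_trace_smul_one M, h0, zero_smul]
  -- the map to `ℂ^*`
  have hum : ∀ y : ↥(nz D.Kᴴ e ∩ nz D.Jᴴ e),
      (D.ctr y.1)⁻¹ * (D.Jᴴ * y.1.1 * D.K).trace ∈ Cst := fun y =>
    mul_ne_zero (inv_ne_zero (D.ctr_ne_zero y.2.1)) (h1x1 _ (D.col_ne_zero y.2.1 y.2.2))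
  set u : C(↥(nz D.Kᴴ e ∩ nz D.Jᴴ e), Cst) :=
    ⟨fun y => ⟨(D.ctr y.1)⁻¹ * (D.Jᴴ * y.1.1 * D.K).trace, hum y⟩, Continuous.subtype_mk (by
      have hc : Continuous (fun y : ↥(nz D.Kᴴ e ∩ nz D.Jᴴ e) => y.1.1) :=
        Gr.continuous_val.comp continuous_subtype_val
      refine Continuous.mul (Continuous.inv₀ ?_ (fun y => D.ctr_ne_zero y.2.1)) ?_
      · exact ((continuous_const.matrix_mul hc).matrix_mul continuous_const).matrix_trace
      · exact ((continuous_const.matrix_mul hc).matrix_mul continuous_const).matrix_trace) hum⟩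
    with hu
  have hKB : ∀ z : ℂ, D.Kᴴ * (z • D.J + D.K) = 1 := by
    intro z
    rw [Matrix.mul_add, Matrix.mul_smul, D.KJ, D.KK, smul_zero, zero_add]
  have hJB : ∀ z : ℂ, D.Jᴴ * (z • D.J + D.K) = z • 1 := by
    intro z
    rw [Matrix.mul_add, Matrix.mul_smul, D.JJ, D.JK, add_zero]
  have hB : ∀ z : ℂ, (z • D.J + D.K) * one1.1 ≠ 0 := fun z =>
    CP.mul_ne_zero_of_left_inv one_ne_zero (by rw [one_smul]; exact hKB z) one1
  have hwm : ∀ z : Cst, CP.push (z.1 • D.J + D.K) one1 (hB z.1) ∈ nz D.Kᴴ e ∩ nz D.Jᴴ e := by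
    intro z
    constructor
    · refine CP.mul_push_ne_zero (hB z.1) ?_
      rw [hKB, Matrix.one_mul]
      exact CP.ne_zero _
    · refine CP.mul_push_ne_zero (hB z.1) ?_
      rw [hJB, Matrix.smul_mul, Matrix.one_mul]
      exact smul_ne_zero z.2 (CP.ne_zero _)
  set w : C(Cst, ↥(nz D.Kᴴ e ∩ nz D.Jᴴ e)) :=
    ⟨fun z => ⟨CP.push (z.1 • D.J + D.K) one1 (hB z.1), hwm z⟩, Continuous.subtype_mk
      (CP.continuous_push ((continuous_subtype_val.smul continuous_const).add continuous_const)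
        continuous_const (fun z => hB z.1)) hwm⟩ with hw
  have huw : u.comp w = ContinuousMap.id _ := by
    ext1 z
    apply Subtype.ext
    have hs := CP.trace_ne_zero (hB z.1)
    set s := ((z.1 • D.J + D.K) * one1.1 * (z.1 • D.J + D.K)ᴴ).trace with hsd
    have h1 : (w z).1.1 = s⁻¹ • ((z.1 • D.J + D.K) * (z.1 • D.J + D.K)ᴴ) := by
      change s⁻¹ • ((z.1 • D.J + D.K) * 1 * (z.1 • D.J + D.K)ᴴ) = _
      rw [Matrix.mul_one]
    have hBK : (z.1 • D.J + D.K)ᴴ * D.K = 1 := by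
      have h2 := congrArg Matrix.conjTranspose (hKB z.1)
      rwa [Matrix.conjTranspose_mul, Matrix.conjTranspose_conjTranspose,
        Matrix.conjTranspose_one] at h2
    have h3 : D.Jᴴ * (w z).1.1 * D.K = (s⁻¹ * z.1) • 1 := by
      rw [h1, Matrix.mul_smul, Matrix.smul_mul, ← Matrix.mul_assoc, hJB, Matrix.mul_assoc, hBK,
        Matrix.mul_one, smul_smul]
    have h4 : D.Kᴴ * (w z).1.1 * D.K = s⁻¹ • 1 := by
      rw [h1, Matrix.mul_smul, Matrix.smul_mul, ← Matrix.mul_assoc, hKB, Matrix.mul_assoc, hBK,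
        Matrix.one_mul]
    change (D.ctr (w z).1)⁻¹ * (D.Jᴴ * (w z).1.1 * D.K).trace = z.1
    rw [Dec.ctr, h3, h4, Matrix.trace_smul, Matrix.trace_smul, Matrix.trace_one,
      Fintype.card_fin, Nat.cast_one, smul_eq_mul, smul_eq_mul, mul_one, mul_one, inv_inv,
      ← mul_assoc, mul_inv_cancel₀ hs, one_mul]
  have hwu : w.comp u = ContinuousMap.id _ := by
    ext1 y
    apply Subtype.ext
    have hc : D.ctr y.1 ≠ 0 := D.ctr_ne_zero y.2.1
    change CP.push ((u y).1 • D.J + D.K) one1 (hB (u y).1) = y.1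
    apply CP.push_eq
    have h1 : (u y).1 • D.J + D.K = (D.ctr y.1)⁻¹ • (y.1.1 * D.K) := by
      have h2 : (D.ctr y.1)⁻¹ • (D.K * (D.Kᴴ * y.1.1 * D.K)) = D.K := by
        rw [eq_trace_smul_one (D.Kᴴ * y.1.1 * D.K), Matrix.mul_smul, Matrix.mul_one, smul_smul]
        change ((D.ctr y.1)⁻¹ * D.ctr y.1) • D.K = D.K
        rw [inv_mul_cancel₀ hc, one_smul]
      have h3 : (D.ctr y.1)⁻¹ • (D.J * (D.Jᴴ * y.1.1 * D.K)) = (u y).1 • D.J := by
        rw [eq_trace_smul_one (D.Jᴴ * y.1.1 * D.K), Matrix.mul_smul, Matrix.mul_one, smul_smul]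
        rfl
      have h5 : (u y).1 • D.J + D.K = (D.ctr y.1)⁻¹ • (D.J * (D.Jᴴ * y.1.1 * D.K)) +
          (D.ctr y.1)⁻¹ • (D.K * (D.Kᴴ * y.1.1 * D.K)) := by
        rw [h3, h2]
      rw [h5, ← smul_add]
      congr 1
      have h4 : D.J * (D.Jᴴ * y.1.1 * D.K) + D.K * (D.Kᴴ * y.1.1 * D.K) =
          (D.J * D.Jᴴ + D.K * D.Kᴴ) * (y.1.1 * D.K) := by
        simp only [Matrix.add_mul, Matrix.mul_assoc]
      rw [h4, D.sum, Matrix.one_mul]
    change y.1.1 * (((u y).1 • D.J + D.K) * 1) = ((u y).1 • D.J + D.K) * 1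
    rw [Matrix.mul_one, h1, Matrix.mul_smul, ← Matrix.mul_assoc, CP.idem]
  have hI : Split2 ↥(nz D.Kᴴ e ∩ nz D.Jᴴ e) (T.of 1 (H.pb u θ)) := by
    rw [← T.map_of]
    refine hθ.of_bij u (fun X _ => idX_bij_of_homotopic (g := w) ?_ ?_ X)
    · rw [hwu]
    · rw [huw]
  obtain ⟨ξ, hξ⟩ := MV.exists S (H.pb u θ)
  exact ⟨ξ, Split2.susp S D.ptLike D.symm.ptLike hI (MVT.of hξ)⟩

/-- The class `ξ_n ∈ H²(ℂP^{n-1})`. -/
def xiF : ∀ n : ℕ, H 2 (CP (Fin n)) ℤ
  | 0 => 0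
  | 1 => 0
  | 2 => exists_split_CP2.choose
  | (n + 3) => (exists_xi_succ (n := n + 2) (by omega) (xiF (n + 2))).choose

theorem split_xiF : Split2 (CP (Fin 2)) (T.of 2 (xiF 2)) := exists_split_CP2.choose_spec

theorem xiF_succ : ∀ n : ℕ,
    H.pb (CP.pushC (decLast n).J (EM_castSucc_ne_zero n)) (xiF (n + 1)) = xiF n
  | 0 => map_zero _
  | 1 => (H.eq_zero_of_subsingleton 1 _).trans rfl
  | (n + 2) => (exists_xi_succ (n := n + 2) (by omega) (xiF (n + 2))).choose_spec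

end

end Pool.Agent.Lib.MP_904b2a_gt.H83
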