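import Pool.Agent.Lib.MP_904b2a_gt.H83.Comm
import Pool.Agent.Lib.MP_904b2a_gt.H41.Cochains

/-!
# MP_904b2a_gt: Mayer–Vietoris for squares of open embeddings
-/

open scoped BigOperators
open Set Topology

namespace Pool.Agent.Lib.MP_904b2a_gt.H83

noncomputable section

/-! ## Simplices with small range -/

section Lift

variable {U Y : Type*} [TopologicalSpace U] [TopologicalSpace Y]

/-- The lift of a map through an embedding. -/
def liftE {Z : Type*} [TopologicalSpace Z] {i : C(U, Y)} (hi : IsEmbedding i) (σ : C(Z, Y))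
    (h : range σ ⊆ range i) : C(Z, U) where
  toFun t := (h (mem_range_self t)).choose
  continuous_toFun := by
    rw [hi.isInducing.continuous_iff]
    have : (i ∘ fun t => (h (mem_range_self t)).choose) = σ := by
      funext t
      exact (h (mem_range_self t)).choose_spec
    rw [this]
    exact σ.continuous

theorem comp_liftE {Z : Type*} [TopologicalSpace Z] {i : C(U, Y)} (hi : IsEmbedding i)
    (σ : C(Z, Y)) (h : range σ ⊆ range i) : i.comp (liftE hi σ h) = σ := by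
  ext t
  exact (h (mem_range_self t)).choose_spec

theorem liftE_comp {Z : Type*} [TopologicalSpace Z] {i : C(U, Y)} (hi : IsEmbedding i)
    (τ : C(Z, U)) (h : range (i.comp τ) ⊆ range i) : liftE hi (i.comp τ) h = τ := by
  ext t
  apply hi.injective
  have h1 := congrArg (fun f : C(Z, Y) => f t) (comp_liftE hi (i.comp τ) h)
  exact h1

end Lift

/-- A Mayer–Vietoris square: `Y` is the union of the open subspaces `U` and `W`, with
intersection `I`. -/
structure MVSq {I U W Y : Type*} [TopologicalSpace I] [TopologicalSpace U] [TopologicalSpace W]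
    [TopologicalSpace Y] (jU : C(I, U)) (jW : C(I, W)) (iU : C(U, Y)) (iW : C(W, Y)) : Prop where
  comm : iU.comp jU = iW.comp jW
  openU : IsOpenEmbedding iU
  openW : IsOpenEmbedding iW
  embI : IsEmbedding (iU.comp jU)
  cover : ∀ y : Y, y ∈ range iU ∨ y ∈ range iW
  inter : range iU ∩ range iW ⊆ range (iU.comp jU)

variable {I U W Y : Type*} [TopologicalSpace I] [TopologicalSpace U] [TopologicalSpace W]
  [TopologicalSpace Y] {jU : C(I, U)} {jW : C(I, W)} {iU : C(U, Y)} {iW : C(W, Y)}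

namespace MVSq

theorem symm (S : MVSq jU jW iU iW) : MVSq jW jU iW iU where
  comm := S.comm.symm
  openU := S.openW
  openW := S.openU
  embI := by
    rw [← S.comm]
    exact S.embI
  cover y := (S.cover y).symm
  inter := by
    rw [inter_comm, ← S.comm]
    exact S.inter

/-- The square of two open sets. -/
theorem ofSets {X : Type*} [TopologicalSpace X] (U W : Set X) (hU : IsOpen U) (hW : IsOpen W) :
    MVSq (I := ↥(U ∩ W)) (U := ↥U) (W := ↥W) (Y := ↥(U ∪ W))
      ⟨fun x => ⟨x.1, x.2.1⟩, by fun_prop⟩ ⟨fun x => ⟨x.1, x.2.2⟩, by fun_prop⟩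
      ⟨fun x => ⟨x.1, Or.inl x.2⟩, by fun_prop⟩ ⟨fun x => ⟨x.1, Or.inr x.2⟩, by fun_prop⟩ where
  comm := rfl
  openU := IsOpenEmbedding.of_comp _ (hU.union hW).isOpenEmbedding_subtypeVal
    hU.isOpenEmbedding_subtypeVal
  openW := IsOpenEmbedding.of_comp _ (hU.union hW).isOpenEmbedding_subtypeVal
    hW.isOpenEmbedding_subtypeVal
  embI := IsEmbedding.inclusion (fun _ h => Or.inl h.1)
  cover := by
    rintro ⟨x, hx | hx⟩
    · exact Or.inl ⟨⟨x, hx⟩, rfl⟩
    · exact Or.inr ⟨⟨x, hx⟩, rfl⟩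
  inter := by
    rintro _ ⟨⟨⟨x, hx⟩, rfl⟩, ⟨⟨x', hx'⟩, h⟩⟩
    have h' : x' = x := congrArg Subtype.val h
    subst h'
    exact ⟨⟨x', hx, hx'⟩, rfl⟩

/-- Products of a square with a space. -/
theorem prod (S : MVSq jU jW iU iW) (X : Type*) [TopologicalSpace X] :
    MVSq ((ContinuousMap.id X).prodMap jU) ((ContinuousMap.id X).prodMap jW)
      ((ContinuousMap.id X).prodMap iU) ((ContinuousMap.id X).prodMap iW) where
  comm := by
    ext p
    · rfl
    · exact congrArg (fun f : C(I, Y) => f p.2) S.comm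
  openU := IsOpenEmbedding.id.prodMap S.openU
  openW := IsOpenEmbedding.id.prodMap S.openW
  embI := IsEmbedding.id.prodMap S.embI
  cover := by
    rintro ⟨x, y⟩
    rcases S.cover y with ⟨u, rfl⟩ | ⟨w, rfl⟩
    · exact Or.inl ⟨(x, u), rfl⟩
    · exact Or.inr ⟨(x, w), rfl⟩
  inter := by
    rintro _ ⟨⟨⟨x, u⟩, rfl⟩, ⟨⟨x', w⟩, h⟩⟩
    have h1 : x' = x := congrArg Prod.fst h
    have h2 : iW w = iU u := congrArg Prod.snd h
    subst h1
    obtain ⟨z, hz⟩ := S.inter ⟨⟨u, rfl⟩, ⟨w, h2⟩⟩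
    exact ⟨(x', z), Prod.ext rfl hz⟩

theorem iUnion (S : MVSq jU jW iU iW) :
    ⋃ b, H41.two (range iU) (range iW) b = univ :=
  H41.iUnion_two (eq_univ_of_forall S.cover)

theorem isOpen (S : MVSq jU jW iU iW) (b : Bool) : IsOpen (H41.two (range iU) (range iW) b) :=
  H41.isOpen_two S.openU.isOpen_range S.openW.isOpen_range b

variable {A : Type*} [AddCommGroup A]

open Classical in
/-- Glueing of cochains. -/
def glue (S : MVSq jU jW iU iW) {n : ℕ} (φ : Coch n U A) (ψ : Coch n W A) : Coch n Y A :=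
  fun σ => if h : range σ ⊆ range iU then φ (liftE S.openU.isEmbedding σ h)
    else if h' : range σ ⊆ range iW then ψ (liftE S.openW.isEmbedding σ h') else 0

theorem glue_U (S : MVSq jU jW iU iW) {n : ℕ} (φ : Coch n U A) (ψ : Coch n W A) :
    pbC n iU (S.glue φ ψ) = φ := by
  funext τ
  change S.glue φ ψ (iU.comp τ) = φ τ
  have h : range (iU.comp τ) ⊆ range iU := by
    rw [ContinuousMap.coe_comp]
    exact range_comp_subset_range _ _
  rw [glue, dif_pos h, liftE_comp]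

theorem glue_W (S : MVSq jU jW iU iW) {n : ℕ} (φ : Coch n U A) (ψ : Coch n W A)
    (hφψ : pbC n jU φ = pbC n jW ψ) : pbC n iW (S.glue φ ψ) = ψ := by
  funext τ
  change S.glue φ ψ (iW.comp τ) = ψ τ
  have h' : range (iW.comp τ) ⊆ range iW := by
    rw [ContinuousMap.coe_comp]
    exact range_comp_subset_range _ _
  by_cases h : range (iW.comp τ) ⊆ range iU
  · have hI : range (iW.comp τ) ⊆ range (iU.comp jU) := fun y hy => S.inter ⟨h hy, h' hy⟩
    set τ' := liftE S.embI (iW.comp τ) hI with hτ'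
    have e : (iU.comp jU).comp τ' = iW.comp τ := comp_liftE S.embI _ hI
    have e1 : τ = jW.comp τ' := by
      ext t
      apply S.openW.injective
      have h1 := congrArg (fun f : C(Simp n, Y) => f t) e
      rw [S.comm] at h1
      exact h1.symm
    have e2 : liftE S.openU.isEmbedding (iW.comp τ) h = jU.comp τ' := by
      ext t
      apply S.openU.injective
      have h1 := congrArg (fun f : C(Simp n, Y) => f t) e
      have h2 := congrArg (fun f : C(Simp n, Y) => f t)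
        (comp_liftE S.openU.isEmbedding (iW.comp τ) h)
      exact h2.trans h1.symm
    rw [glue, dif_pos h, e2]
    have h3 := congrFun hφψ τ'
    change φ (jU.comp τ') = ψ (jW.comp τ') at h3
    rw [h3, ← e1]
  · rw [glue, dif_neg h, dif_pos h', liftE_comp]

/-- A cochain on `Y` vanishes on small simplices if its restrictions vanish. -/
theorem small_eq (S : MVSq jU jW iU iW) {n : ℕ} {κ κ' : Coch n Y A}
    (hU : pbC n iU κ = pbC n iU κ') (hW : pbC n iW κ = pbC n iW κ') :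
    ∀ σ ∈ H41.small (H41.two (range iU) (range iW)) n, κ σ = κ' σ := by
  intro σ hσ
  rcases H41.mem_small_two.1 hσ with h | h
  · have e := congrFun hU (liftE S.openU.isEmbedding σ h)
    change κ (iU.comp _) = κ' (iU.comp _) at e
    rwa [comp_liftE] at e
  · have e := congrFun hW (liftE S.openW.isEmbedding σ h)
    change κ (iW.comp _) = κ' (iW.comp _) at e
    rwa [comp_liftE] at e

theorem eq_on_small (_ : MVSq jU jW iU iW) {n : ℕ} {κ κ' : Coch n Y A}
    (h : ∀ σ ∈ H41.small (H41.two (range iU) (range iW)) n, κ σ = κ' σ) :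
    pbC n iU κ = pbC n iU κ' ∧ pbC n iW κ = pbC n iW κ' := by
  constructor
  · funext τ
    refine h _ (H41.mem_small_two.2 (Or.inl ?_))
    rw [ContinuousMap.coe_comp]
    exact range_comp_subset_range _ _
  · funext τ
    refine h _ (H41.mem_small_two.2 (Or.inr ?_))
    rw [ContinuousMap.coe_comp]
    exact range_comp_subset_range _ _

/-- Glueing of cocycles. -/
theorem exists_glue (S : MVSq jU jW iU iW) {n : ℕ} {φ : Coch n U A} {ψ : Coch n W A}
    (hφ : φ ∈ cocycles U A n) (hψ : ψ ∈ cocycles W A n) (h : pbC n jU φ = pbC n jW ψ) :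
    ∃ γ ∈ cocycles Y A n, pbC n iU γ = φ ∧ pbC n iW γ = ψ := by
  have hc : ∀ σ ∈ H41.small (H41.two (range iU) (range iW)) (n + 1),
      cob n (S.glue φ ψ) σ = (0 : Coch (n + 1) Y A) σ := by
    apply S.small_eq
    · rw [pbC_cob, S.glue_U, show cob n φ = 0 from hφ, map_zero]
    · rw [pbC_cob, S.glue_W φ ψ h, show cob n ψ = 0 from hψ, map_zero]
  obtain ⟨γ, hγ, hγ'⟩ := H41.exists_cocycle _ S.isOpen S.iUnion (S.glue φ ψ) hc
  obtain ⟨e1, e2⟩ := S.eq_on_small hγ'
  exact ⟨γ, hγ, e1.trans (S.glue_U φ ψ), e2.trans (S.glue_W φ ψ h)⟩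

/-- Glueing of primitives. -/
theorem exists_prim (S : MVSq jU jW iU iW) {n : ℕ} {γ : Coch (n + 1) Y A}
    (hγ : γ ∈ cocycles Y A (n + 1)) {φ : Coch n U A} {ψ : Coch n W A}
    (hφ : pbC (n + 1) iU γ = cob n φ) (hψ : pbC (n + 1) iW γ = cob n ψ)
    (h : pbC n jU φ = pbC n jW ψ) :
    ∃ θ : Coch n Y A, cob n θ = γ ∧ pbC n iU θ = φ ∧ pbC n iW θ = ψ := by
  have hc : ∀ σ ∈ H41.small (H41.two (range iU) (range iW)) (n + 1),
      γ σ = cob n (S.glue φ ψ) σ := by
    apply S.small_eq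
    · rw [pbC_cob, S.glue_U, hφ]
    · rw [pbC_cob, S.glue_W φ ψ h, hψ]
  obtain ⟨θ, hθ, hθ'⟩ := H41.exists_primitive _ S.isOpen S.iUnion γ hγ (S.glue φ ψ) hc
  obtain ⟨e1, e2⟩ := S.eq_on_small hθ'
  exact ⟨θ, hθ, e1.trans (S.glue_U φ ψ), e2.trans (S.glue_W φ ψ h)⟩

theorem zero_of_restrict (S : MVSq jU jW iU iW) {κ : Coch 0 Y A}
    (hU : pbC 0 iU κ = 0) (hW : pbC 0 iW κ = 0) : κ = 0 := by
  refine H41.cocycle_zero_eq_zero _ S.iUnion κ (fun σ hσ => ?_)
  have h := S.small_eq (κ := κ) (κ' := 0) (by rw [hU, map_zero]) (by rw [hW, map_zero]) σ hσ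
  exact h

end MVSq

/-! ## The Mayer–Vietoris relation -/

section Rel

variable {A : Type*} [AddCommGroup A]

variable (jU jW iU iW) in
/-- The Mayer–Vietoris relation: `c = δ a`. -/
def MV (n : ℕ) (c : H (n + 1) Y A) (a : H n I A) : Prop :=
  ∃ (γ : cocycles Y A (n + 1)) (φ : Coch n U A) (ψ : Coch n W A) (α : cocycles I A n),
    H.mk (n + 1) γ = c ∧ H.mk n α = a ∧ pbC (n + 1) iU γ = cob n φ ∧
      pbC (n + 1) iW γ = cob n ψ ∧ (α : Coch n I A) = pbC n jU φ - pbC n jW ψ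

/-- A representative of a class of degree `n` which becomes zero is a coboundary. -/
theorem exists_cob_of_pb_eq_zero {V : Type*} [TopologicalSpace V] {n : ℕ} (f : C(V, Y))
    {γ : cocycles Y A (n + 1)} (h : H.pb f (H.mk (n + 1) γ) = 0) :
    ∃ φ : Coch n V A, pbC (n + 1) f γ = cob n φ := by
  rw [H.pb_mk, H.mk_eq_zero] at h
  obtain ⟨φ, hφ⟩ := h
  exact ⟨φ, hφ.symm⟩

theorem MV.add {n : ℕ} {c c' : H (n + 1) Y A} {a a' : H n I A} (h : MV jU jW iU iW n c a)
    (h' : MV jU jW iU iW n c' a') : MV jU jW iU iW n (c + c') (a + a') := by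
  obtain ⟨γ, φ, ψ, α, rfl, rfl, e1, e2, e3⟩ := h
  obtain ⟨γ', φ', ψ', α', rfl, rfl, e1', e2', e3'⟩ := h'
  refine ⟨γ + γ', φ + φ', ψ + ψ', α + α', map_add _ _ _, map_add _ _ _, ?_, ?_, ?_⟩
  · rw [AddSubgroup.coe_add, map_add, map_add, e1, e1']
  · rw [AddSubgroup.coe_add, map_add, map_add, e2, e2']
  · rw [AddSubgroup.coe_add, map_add, map_add, e3, e3']
    abel

theorem MV.neg {n : ℕ} {c : H (n + 1) Y A} {a : H n I A} (h : MV jU jW iU iW n c a) :
    MV jU jW iU iW n (-c) (-a) := by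
  obtain ⟨γ, φ, ψ, α, rfl, rfl, e1, e2, e3⟩ := h
  refine ⟨-γ, -φ, -ψ, -α, map_neg _ _, map_neg _ _, ?_, ?_, ?_⟩
  · rw [AddSubgroup.coe_neg, map_neg, map_neg, e1]
  · rw [AddSubgroup.coe_neg, map_neg, map_neg, e2]
  · rw [AddSubgroup.coe_neg, map_neg, map_neg, e3]
    abel

theorem MV.zero (n : ℕ) : MV jU jW iU iW n (0 : H (n + 1) Y A) 0 :=
  ⟨0, 0, 0, 0, map_zero _, map_zero _, by simp, by simp, by simp⟩

theorem MV.sub {n : ℕ} {c c' : H (n + 1) Y A} {a a' : H n I A} (h : MV jU jW iU iW n c a)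
    (h' : MV jU jW iU iW n c' a') : MV jU jW iU iW n (c - c') (a - a') := by
  rw [sub_eq_add_neg, sub_eq_add_neg]
  exact h.add h'.neg

/-- `δ` of the difference of two restrictions is zero. -/
theorem MV.of_sub {n : ℕ} (u : H n U A) (w : H n W A) :
    MV jU jW iU iW n (0 : H (n + 1) Y A) (H.pb jU u - H.pb jW w) := by
  obtain ⟨φ, rfl⟩ := H.mk_surjective n u
  obtain ⟨ψ, rfl⟩ := H.mk_surjective n w
  refine ⟨0, φ, ψ, ⟨pbC n jU φ, pbC_mem_cocycles jU φ.2⟩ - ⟨pbC n jW ψ, pbC_mem_cocycles jW ψ.2⟩,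
    map_zero _, ?_, ?_, ?_, rfl⟩
  · rw [map_sub, H.pb_mk, H.pb_mk]
  · rw [show cob n (φ : Coch n U A) = 0 from φ.2, ZeroMemClass.coe_zero, map_zero]
  · rw [show cob n (ψ : Coch n W A) = 0 from ψ.2, ZeroMemClass.coe_zero, map_zero]

theorem MV.exists (S : MVSq jU jW iU iW) {n : ℕ} (a : H n I A) :
    ∃ c : H (n + 1) Y A, MV jU jW iU iW n c a := by
  obtain ⟨α, rfl⟩ := H.mk_surjective n a
  -- extend `α` by zero from `I` to `U`
  have hj : IsEmbedding jU := IsEmbedding.of_comp jU.continuous iU.continuous S.embI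
  classical
  set φ : Coch n U A := fun σ => if h : range σ ⊆ range jU then
    (α : Coch n I A) (liftE hj σ h) else 0 with hφ
  have e : pbC n jU φ = α := by
    funext τ
    change φ (jU.comp τ) = _
    have h : range (jU.comp τ) ⊆ range jU := by
      rw [ContinuousMap.coe_comp]
      exact range_comp_subset_range _ _
    rw [hφ]
    simp only
    rw [dif_pos h, liftE_comp]
  obtain ⟨γ, hγ, h1, h2⟩ := S.exists_glue (φ := cob n φ) (ψ := (0 : Coch (n + 1) W A))
    (cob_cob n φ) (zero_mem _) (by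
      rw [pbC_cob, e, map_zero]
      exact α.2)
  exact ⟨H.mk (n + 1) ⟨γ, hγ⟩, ⟨γ, hγ⟩, φ, 0, α, rfl, rfl, h1, by rw [map_zero]; exact h2,
    by rw [e, map_zero, sub_zero]⟩

theorem MV.eq_zero (S : MVSq jU jW iU iW) {n : ℕ} {c : H (n + 1) Y A}
    (h : MV jU jW iU iW n c (0 : H n I A)) : c = 0 := by
  obtain ⟨γ, φ, ψ, α, rfl, h0, e1, e2, e3⟩ := h
  rw [H.mk_eq_zero] at h0
  cases n with
  | zero =>
    have h0' : (α : Coch 0 I A) = 0 := h0
    rw [h0', eq_comm, sub_eq_zero] at e3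
    obtain ⟨θ, hθ, -⟩ := S.exists_prim γ.2 e1 e2 e3
    exact H.mk_eq_zero.2 ⟨θ, hθ⟩
  | succ n =>
    obtain ⟨η, hη⟩ := h0
    have hj : IsEmbedding jU := IsEmbedding.of_comp jU.continuous iU.continuous S.embI
    classical
    set η' : Coch n U A := fun σ => if h : range σ ⊆ range jU then
      η (liftE hj σ h) else 0 with hη'
    have e : pbC n jU η' = η := by
      funext τ
      change η' (jU.comp τ) = _
      have h : range (jU.comp τ) ⊆ range jU := by
        rw [ContinuousMap.coe_comp]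
        exact range_comp_subset_range _ _
      rw [hη']
      simp only
      rw [dif_pos h, liftE_comp]
    obtain ⟨θ, hθ, -⟩ := S.exists_prim (φ := φ - cob n η') (ψ := ψ) γ.2
      (by rw [map_sub, cob_cob, sub_zero, e1]) e2
      (by rw [map_sub, pbC_cob, e, hη, e3]; abel)
    exact H.mk_eq_zero.2 ⟨θ, hθ⟩

theorem MV.unique (S : MVSq jU jW iU iW) {n : ℕ} {c c' : H (n + 1) Y A} {a : H n I A}
    (h : MV jU jW iU iW n c a) (h' : MV jU jW iU iW n c' a) : c = c' := by
  have h2 := h.sub h'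
  rw [sub_self] at h2
  exact sub_eq_zero.1 (MV.eq_zero S h2)

theorem MV.restrict {n : ℕ} {c : H (n + 1) Y A} {a : H n I A}
    (h : MV jU jW iU iW n c a) : H.pb iU c = 0 ∧ H.pb iW c = 0 := by
  obtain ⟨γ, φ, ψ, α, rfl, rfl, e1, e2, e3⟩ := h
  constructor
  · rw [H.pb_mk, H.mk_eq_zero]
    exact ⟨φ, e1.symm⟩
  · rw [H.pb_mk, H.mk_eq_zero]
    exact ⟨ψ, e2.symm⟩

theorem MV.of_restrict {n : ℕ} {c : H (n + 1) Y A} (hS : iU.comp jU = iW.comp jW)
    (hU : H.pb iU c = 0) (hW : H.pb iW c = 0) : ∃ a : H n I A, MV jU jW iU iW n c a := by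
  obtain ⟨γ, rfl⟩ := H.mk_surjective (n + 1) c
  obtain ⟨φ, hφ⟩ := exists_cob_of_pb_eq_zero iU hU
  obtain ⟨ψ, hψ⟩ := exists_cob_of_pb_eq_zero iW hW
  have hα : pbC n jU φ - pbC n jW ψ ∈ cocycles I A n := by
    change cob n _ = 0
    rw [map_sub, ← pbC_cob, ← pbC_cob, ← hφ, ← hψ, sub_eq_zero]
    funext τ
    change (γ : Coch (n + 1) Y A) ((iU.comp jU).comp τ) =
      (γ : Coch (n + 1) Y A) ((iW.comp jW).comp τ)
    rw [hS]
  exact ⟨H.mk n ⟨_, hα⟩, γ, φ, ψ, ⟨_, hα⟩, rfl, rfl, hφ, hψ, rfl⟩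

theorem MV.exact_I (hS : iU.comp jU = iW.comp jW) {n : ℕ} {a : H n I A}
    (h : MV jU jW iU iW n (0 : H (n + 1) Y A) a) :
    ∃ (u : H n U A) (w : H n W A), a = H.pb jU u - H.pb jW w := by
  obtain ⟨γ, φ, ψ, α, h0, rfl, e1, e2, e3⟩ := h
  rw [H.mk_eq_zero] at h0
  obtain ⟨θ, hθ⟩ := h0
  have h1 : φ - pbC n iU θ ∈ cocycles U A n := by
    change cob n _ = 0
    rw [map_sub, ← pbC_cob, hθ, e1, sub_self]
  have h2 : ψ - pbC n iW θ ∈ cocycles W A n := by
    change cob n _ = 0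
    rw [map_sub, ← pbC_cob, hθ, e2, sub_self]
  refine ⟨H.mk n ⟨_, h1⟩, H.mk n ⟨_, h2⟩, ?_⟩
  rw [H.pb_mk, H.pb_mk, ← map_sub]
  congr 1
  apply Subtype.ext
  rw [e3]
  change _ = pbC n jU (φ - pbC n iU θ) - pbC n jW (ψ - pbC n iW θ)
  have h3 : pbC n jU (pbC n iU θ) = pbC n jW (pbC n iW θ) := by
    funext τ
    change θ ((iU.comp jU).comp τ) = θ ((iW.comp jW).comp τ)
    rw [hS]
  rw [map_sub, map_sub, h3]
  abel

/-- Glueing of classes. -/
theorem MV.exact_UW (S : MVSq jU jW iU iW) {n : ℕ} {u : H n U A} {w : H n W A}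
    (h : H.pb jU u = H.pb jW w) : ∃ y : H n Y A, H.pb iU y = u ∧ H.pb iW y = w := by
  obtain ⟨φ, rfl⟩ := H.mk_surjective n u
  obtain ⟨ψ, rfl⟩ := H.mk_surjective n w
  rw [H.pb_mk, H.pb_mk, H.mk_eq_mk] at h
  change pbC n jU φ.1 - pbC n jW ψ.1 ∈ coboundaries I A n at h
  cases n with
  | zero =>
    have h' : pbC 0 jU (φ : Coch 0 U A) - pbC 0 jW (ψ : Coch 0 W A) = 0 := h
    obtain ⟨γ, hγ, h1, h2⟩ := S.exists_glue φ.2 ψ.2 (sub_eq_zero.1 h')
    refine ⟨H.mk 0 ⟨γ, hγ⟩, ?_, ?_⟩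
    · rw [H.pb_mk]
      congr 1
      exact Subtype.ext h1
    · rw [H.pb_mk]
      congr 1
      exact Subtype.ext h2
  | succ n =>
    obtain ⟨η, hη⟩ := h
    have hj : IsEmbedding jU := IsEmbedding.of_comp jU.continuous iU.continuous S.embI
    classical
    set η' : Coch n U A := fun σ => if h : range σ ⊆ range jU then
      η (liftE hj σ h) else 0 with hη'
    have e : pbC n jU η' = η := by
      funext τ
      change η' (jU.comp τ) = _
      have h : range (jU.comp τ) ⊆ range jU := by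
        rw [ContinuousMap.coe_comp]
        exact range_comp_subset_range _ _
      rw [hη']
      simp only
      rw [dif_pos h, liftE_comp]
    have hφ' : (φ : Coch (n + 1) U A) - cob n η' ∈ cocycles U A (n + 1) :=
      sub_mem φ.2 (cob_cob n η')
    obtain ⟨γ, hγ, h1, h2⟩ := S.exists_glue hφ' ψ.2 (by
      rw [map_sub, pbC_cob, e, hη]
      abel)
    refine ⟨H.mk (n + 1) ⟨γ, hγ⟩, ?_, ?_⟩
    · rw [H.pb_mk, H.mk_eq_mk]
      change pbC (n + 1) iU γ - φ ∈ _
      rw [h1]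
      refine ⟨-η', ?_⟩
      rw [map_neg]
      abel
    · rw [H.pb_mk]
      congr 1
      exact Subtype.ext h2

theorem MV.eq_zero_of_restrict (S : MVSq jU jW iU iW) {y : H 0 Y A}
    (hU : H.pb iU y = 0) (hW : H.pb iW y = 0) : y = 0 := by
  obtain ⟨γ, rfl⟩ := H.mk_surjective 0 y
  rw [H.pb_mk, H.mk_eq_zero] at hU hW
  have hU' : pbC 0 iU (γ : Coch 0 Y A) = 0 := hU
  have hW' : pbC 0 iW (γ : Coch 0 Y A) = 0 := hW
  have h : γ = 0 := Subtype.ext (S.zero_of_restrict hU' hW')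
  rw [h, map_zero]

end Rel

/-- Naturality of the Mayer–Vietoris relation. -/
theorem MV.natural {A : Type*} [AddCommGroup A] {I' U' W' Y' : Type*} [TopologicalSpace I']
    [TopologicalSpace U'] [TopologicalSpace W'] [TopologicalSpace Y'] {jU' : C(I', U')}
    {jW' : C(I', W')} {iU' : C(U', Y')} {iW' : C(W', Y')} (fI : C(I', I)) (fU : C(U', U))
    (fW : C(W', W)) (fY : C(Y', Y)) (h1 : jU.comp fI = fU.comp jU') (h2 : jW.comp fI = fW.comp jW')
    (h3 : iU.comp fU = fY.comp iU') (h4 : iW.comp fW = fY.comp iW') {n : ℕ} {c : H (n + 1) Y A}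
    {a : H n I A} (h : MV jU jW iU iW n c a) :
    MV jU' jW' iU' iW' n (H.pb fY c) (H.pb fI a) := by
  obtain ⟨γ, φ, ψ, α, rfl, rfl, e1, e2, e3⟩ := h
  refine ⟨⟨pbC (n + 1) fY γ, pbC_mem_cocycles fY γ.2⟩, pbC n fU φ, pbC n fW ψ,
    ⟨pbC n fI α, pbC_mem_cocycles fI α.2⟩, rfl, rfl, ?_, ?_, ?_⟩
  · have h5 : pbC (n + 1) iU' (pbC (n + 1) fY (γ : Coch (n + 1) Y A)) =
        pbC (n + 1) fU (pbC (n + 1) iU (γ : Coch (n + 1) Y A)) := by
      funext τ
      change (γ : Coch (n + 1) Y A) ((fY.comp iU').comp τ) =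
        (γ : Coch (n + 1) Y A) ((iU.comp fU).comp τ)
      rw [h3]
    change pbC (n + 1) iU' (pbC (n + 1) fY (γ : Coch (n + 1) Y A)) = _
    rw [h5, e1, pbC_cob]
  · have h5 : pbC (n + 1) iW' (pbC (n + 1) fY (γ : Coch (n + 1) Y A)) =
        pbC (n + 1) fW (pbC (n + 1) iW (γ : Coch (n + 1) Y A)) := by
      funext τ
      change (γ : Coch (n + 1) Y A) ((fY.comp iW').comp τ) =
        (γ : Coch (n + 1) Y A) ((iW.comp fW).comp τ)
      rw [h4]
    change pbC (n + 1) iW' (pbC (n + 1) fY (γ : Coch (n + 1) Y A)) = _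
    rw [h5, e2, pbC_cob]
  · change pbC n fI (α : Coch n I A) = _
    rw [e3, map_sub]
    congr 1
    · funext τ
      change φ ((jU.comp fI).comp τ) = φ ((fU.comp jU').comp τ)
      rw [h1]
    · funext τ
      change ψ ((jW.comp fI).comp τ) = ψ ((fW.comp jW').comp τ)
      rw [h2]

/-- Compatibility of the Mayer–Vietoris relation with cup products from the right. -/
theorem MV.cup (hS : iU.comp jU = iW.comp jW) {p q n : ℕ} (h : p + q = n)
    (h' : p + 1 + q = n + 1) {c : H (p + 1) Y ℤ} {a : H p I ℤ}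
    (hc : MV jU jW iU iW p c a) (z : H q Y ℤ) :
    MV jU jW iU iW n (H.cup h' c z) (H.cup h a (H.pb (iU.comp jU) z)) := by
  obtain ⟨γ, φ, ψ, α, rfl, rfl, e1, e2, e3⟩ := hc
  obtain ⟨ζ, rfl⟩ := H.mk_surjective q z
  have hζ : cob q (ζ : Coch q Y ℤ) = 0 := ζ.2
  refine ⟨⟨cupC (p + 1) q (n + 1) γ.1 ζ.1, cupC_mem_cocycles h' γ.2 ζ.2⟩,
    cupC p q n φ (pbC q iU ζ), cupC p q n ψ (pbC q iW ζ),
    ⟨cupC p q n α.1 (pbC q (iU.comp jU) ζ.1), cupC_mem_cocycles h α.2
      (pbC_mem_cocycles _ ζ.2)⟩, rfl, rfl, ?_, ?_, ?_⟩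
  · rw [cob_cupC h, ← e1, ← pbC_cob, hζ, map_zero, cupC_zero_right, smul_zero, add_zero]
    rfl
  · rw [cob_cupC h, ← e2, ← pbC_cob, hζ, map_zero, cupC_zero_right, smul_zero, add_zero]
    rfl
  · change cupC p q n (α : Coch p I ℤ) _ = _
    rw [e3, sub_eq_add_neg, cupC_add_left]
    funext σ
    have h5 : pbC q (iU.comp jU) (ζ : Coch q Y ℤ) = pbC q (iW.comp jW) (ζ : Coch q Y ℤ) := by
      rw [hS]
    have h6 : cupC p q n (-pbC p jW ψ) (pbC q (iU.comp jU) (ζ : Coch q Y ℤ)) σ =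
        -cupC p q n (pbC p jW ψ) (pbC q (iW.comp jW) (ζ : Coch q Y ℤ)) σ := by
      rw [h5]
      simp [cupC]
    rw [Pi.add_apply, h6]
    rfl

/-! ## The total version -/

section Total

variable (jU jW iU iW) in
/-- The Mayer–Vietoris relation on total cohomology rings. -/
def MVT (c : T Y) (a : T I) : Prop := c 0 = 0 ∧ ∀ n, MV jU jW iU iW n (c (n + 1)) (a n)

theorem MVT.add {c c' : T Y} {a a' : T I} (h : MVT jU jW iU iW c a)
    (h' : MVT jU jW iU iW c' a') : MVT jU jW iU iW (c + c') (a + a') :=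
  ⟨by rw [T.add_apply, h.1, h'.1, add_zero], fun n => (h.2 n).add (h'.2 n)⟩

theorem MVT.sub {c c' : T Y} {a a' : T I} (h : MVT jU jW iU iW c a)
    (h' : MVT jU jW iU iW c' a') : MVT jU jW iU iW (c - c') (a - a') :=
  ⟨by rw [T.sub_apply, h.1, h'.1, sub_zero], fun n => (h.2 n).sub (h'.2 n)⟩

theorem MVT.zero : MVT jU jW iU iW (0 : T Y) (0 : T I) := ⟨rfl, fun n => MV.zero n⟩

theorem MVT.sum {ι : Type*} (s : Finset ι) {c : ι → T Y} {a : ι → T I}
    (h : ∀ i ∈ s, MVT jU jW iU iW (c i) (a i)) :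
    MVT jU jW iU iW (∑ i ∈ s, c i) (∑ i ∈ s, a i) := by
  classical
  induction s using Finset.induction_on with
  | empty => exact MVT.zero
  | insert i s hi ih =>
    rw [Finset.sum_insert hi, Finset.sum_insert hi]
    exact (h i (Finset.mem_insert_self i s)).add
      (ih fun j hj => h j (Finset.mem_insert_of_mem hj))

theorem MV.sum {A : Type*} [AddCommGroup A] {ι : Type*} (s : Finset ι) {n : ℕ}
    {c : ι → H (n + 1) Y A} {a : ι → H n I A}
    (h : ∀ i ∈ s, MV jU jW iU iW n (c i) (a i)) :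
    MV jU jW iU iW n (∑ i ∈ s, c i) (∑ i ∈ s, a i) := by
  classical
  induction s using Finset.induction_on with
  | empty => exact MV.zero n
  | insert i s hi ih =>
    rw [Finset.sum_insert hi, Finset.sum_insert hi]
    exact (h i (Finset.mem_insert_self i s)).add
      (ih fun j hj => h j (Finset.mem_insert_of_mem hj))

/-- `δ` of a homogeneous class. -/
theorem MVT.of {n : ℕ} {c : H (n + 1) Y ℤ} {a : H n I ℤ} (h : MV jU jW iU iW n c a) :
    MVT jU jW iU iW (T.of (n + 1) c) (T.of n a) := by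
  refine ⟨T.of_ne (by omega) c, fun m => ?_⟩
  by_cases hm : m = n
  · subst hm
    rw [T.of_self, T.of_self]
    exact h
  · rw [T.of_ne hm, T.of_ne (by omega : m + 1 ≠ n + 1)]
    exact MV.zero m

theorem MVT.exists (S : MVSq jU jW iU iW) (a : T I) : ∃ c : T Y, MVT jU jW iU iW c a := by
  choose f hf using fun n => MV.exists S (a n)
  exact ⟨fun n => match n with
    | 0 => 0
    | (n + 1) => f n, rfl, hf⟩

theorem MVT.unique (S : MVSq jU jW iU iW) {c c' : T Y} {a : T I} (h : MVT jU jW iU iW c a)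
    (h' : MVT jU jW iU iW c' a) : c = c' := by
  ext n
  cases n with
  | zero => rw [h.1, h'.1]
  | succ n => exact MV.unique S (h.2 n) (h'.2 n)

theorem MVT.of_sub (u : T U) (w : T W) :
    MVT jU jW iU iW (0 : T Y) (T.map jU u - T.map jW w) :=
  ⟨rfl, fun n => MV.of_sub (u n) (w n)⟩

theorem MVT.of_left (u : T U) : MVT jU jW iU iW (0 : T Y) (T.map jU u) := by
  have h := MVT.of_sub (jU := jU) (jW := jW) (iU := iU) (iW := iW) u 0
  rwa [map_zero, sub_zero] at h

theorem MVT.of_right (w : T W) : MVT jU jW iU iW (0 : T Y) (T.map jW w) := by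
  have h := MVT.of_sub (jU := jU) (jW := jW) (iU := iU) (iW := iW) 0 (-w)
  rwa [map_zero, map_neg, zero_sub, neg_neg] at h

theorem MVT.restrict {c : T Y} {a : T I} (h : MVT jU jW iU iW c a) :
    T.map iU c = 0 ∧ T.map iW c = 0 := by
  constructor
  · ext n
    rw [T.map_apply, T.zero_apply]
    cases n with
    | zero => rw [h.1, map_zero]
    | succ n => exact (h.2 n).restrict.1
  · ext n
    rw [T.map_apply, T.zero_apply]
    cases n with
    | zero => rw [h.1, map_zero]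
    | succ n => exact (h.2 n).restrict.2

theorem MVT.of_restrict (S : MVSq jU jW iU iW) {c : T Y} (hU : T.map iU c = 0)
    (hW : T.map iW c = 0) : ∃ a : T I, MVT jU jW iU iW c a := by
  have hU' : ∀ n, H.pb iU (c n) = 0 := fun n => congrFun hU n
  have hW' : ∀ n, H.pb iW (c n) = 0 := fun n => congrFun hW n
  choose f hf using fun n => MV.of_restrict (jU := jU) (jW := jW) S.comm (hU' (n + 1))
    (hW' (n + 1))
  exact ⟨f, MV.eq_zero_of_restrict S (hU' 0) (hW' 0), hf⟩

theorem MVT.exact_I (hS : iU.comp jU = iW.comp jW) {a : T I}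
    (h : MVT jU jW iU iW (0 : T Y) a) : ∃ (u : T U) (w : T W), a = T.map jU u - T.map jW w := by
  choose u w huw using fun n => MV.exact_I hS (h.2 n)
  exact ⟨u, w, funext huw⟩

theorem MVT.exact_UW (S : MVSq jU jW iU iW) {u : T U} {w : T W}
    (h : T.map jU u = T.map jW w) : ∃ y : T Y, T.map iU y = u ∧ T.map iW y = w := by
  choose y hy using fun n => MV.exact_UW S (congrFun h n)
  exact ⟨y, funext fun n => (hy n).1, funext fun n => (hy n).2⟩

/-- Naturality. -/
theorem MVT.natural {I' U' W' Y' : Type*} [TopologicalSpace I']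
    [TopologicalSpace U'] [TopologicalSpace W'] [TopologicalSpace Y'] {jU' : C(I', U')}
    {jW' : C(I', W')} {iU' : C(U', Y')} {iW' : C(W', Y')} (fI : C(I', I)) (fU : C(U', U))
    (fW : C(W', W)) (fY : C(Y', Y)) (h1 : jU.comp fI = fU.comp jU') (h2 : jW.comp fI = fW.comp jW')
    (h3 : iU.comp fU = fY.comp iU') (h4 : iW.comp fW = fY.comp iW') {c : T Y}
    {a : T I} (h : MVT jU jW iU iW c a) :
    MVT jU' jW' iU' iW' (T.map fY c) (T.map fI a) :=
  ⟨by rw [T.map_apply, h.1, map_zero], fun n => (h.2 n).natural fI fU fW fY h1 h2 h3 h4⟩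

/-- Compatibility with multiplication from the right. -/
theorem MVT.mul (hS : iU.comp jU = iW.comp jW) {c : T Y} {a : T I}
    (h : MVT jU jW iU iW c a) (z : T Y) :
    MVT jU jW iU iW (c * z) (a * T.map (iU.comp jU) z) := by
  constructor
  · rw [T.mul_apply]
    apply Finset.sum_eq_zero
    rintro ⟨p, q⟩ hx
    rw [Finset.HasAntidiagonal.mem_antidiagonal] at hx
    simp only at hx
    obtain rfl : p = 0 := by omega
    simp only [h.1, map_zero, AddMonoidHom.zero_apply]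
  · intro n
    rw [T.mul_apply, T.mul_apply, Finset.Nat.sum_antidiagonal_succ]
    simp only [h.1, map_zero, AddMonoidHom.zero_apply, zero_add]
    refine MV.sum _ (fun x hx => ?_)
    have hx' := Finset.HasAntidiagonal.mem_antidiagonal.1 hx
    rw [cup0_eq hx', cup0_eq (by omega : x.1 + 1 + x.2 = n + 1)]
    exact MV.cup hS hx' _ (h.2 x.1) (z x.2)

end Total

/-! ## The vanishing lemma -/

theorem exists_rep_vanish {V : Type*} [TopologicalSpace V] {i : C(V, Y)}
    (hi : IsOpenEmbedding i) {m : ℕ} {u : H m Y ℤ} (hu : H.pb i u = 0) :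
    ∃ φ : cocycles Y ℤ m, H.mk m φ = u ∧ pbC m i φ.1 = 0 := by
  obtain ⟨φ, rfl⟩ := H.mk_surjective m u
  rw [H.pb_mk, H.mk_eq_zero] at hu
  cases m with
  | zero => exact ⟨φ, rfl, hu⟩
  | succ m =>
    obtain ⟨η, hη⟩ := hu
    classical
    set η' : Coch m Y ℤ := fun σ => if h : range σ ⊆ range i then
      η (liftE hi.isEmbedding σ h) else 0 with hη'
    have e : pbC m i η' = η := by
      funext τ
      change η' (i.comp τ) = _
      have h : range (i.comp τ) ⊆ range i := by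
        rw [ContinuousMap.coe_comp]
        exact range_comp_subset_range _ _
      rw [hη']
      simp only
      rw [dif_pos h, liftE_comp]
    refine ⟨φ - ⟨cob m η', cob_cob m η'⟩, ?_, ?_⟩
    · rw [map_sub, sub_eq_self]
      exact H.mk_eq_zero.2 ⟨η', rfl⟩
    · change pbC (m + 1) i (φ.1 - cob m η') = 0
      rw [map_sub, pbC_cob, e, hη]
      exact sub_self _

/-- If `a` vanishes on `U` and `b` vanishes on `W` then `a b = 0` on `Y = U ∪ W`. -/
theorem H.cup_eq_zero (S : MVSq jU jW iU iW) {p q n : ℕ} (h : p + q = n) {a : H p Y ℤ}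
    {b : H q Y ℤ} (ha : H.pb iU a = 0) (hb : H.pb iW b = 0) : H.cup h a b = 0 := by
  obtain ⟨φ, rfl, hφ⟩ := exists_rep_vanish S.openU ha
  obtain ⟨ψ, rfl, hψ⟩ := exists_rep_vanish S.openW hb
  rw [H.cup_mk]
  have hz : ∀ (m : ℕ), pbC n iU (cupC p q n φ.1 ψ.1) = 0 ∧ pbC n iW (cupC p q n φ.1 ψ.1) = 0 := by
    intro _
    constructor
    · change cupC p q n (pbC p iU φ.1) (pbC q iU ψ.1) = 0
      rw [hφ, cupC_zero_left]
    · change cupC p q n (pbC p iW φ.1) (pbC q iW ψ.1) = 0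
      rw [hψ, cupC_zero_right]
  obtain ⟨h1, h2⟩ := hz 0
  cases n with
  | zero => exact H.mk_eq_zero.2 (S.zero_of_restrict h1 h2)
  | succ n =>
    obtain ⟨θ, hθ, -⟩ := S.exists_prim (φ := (0 : Coch n U ℤ)) (ψ := (0 : Coch n W ℤ))
      (cupC_mem_cocycles h φ.2 ψ.2) (by rw [h1, map_zero]) (by rw [h2, map_zero])
      (by rw [map_zero, map_zero])
    exact H.mk_eq_zero.2 ⟨θ, hθ⟩

/-- The vanishing lemma for total cohomology. -/
theorem T.mul_eq_zero_of (S : MVSq jU jW iU iW) {a b : T Y} (ha : T.map iU a = 0)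
    (hb : T.map iW b = 0) : a * b = 0 := by
  ext n
  rw [T.mul_apply, T.zero_apply]
  refine Finset.sum_eq_zero (fun x hx => ?_)
  have hx' := Finset.HasAntidiagonal.mem_antidiagonal.1 hx
  rw [cup0_eq hx']
  exact H.cup_eq_zero S hx' (congrFun ha x.1) (congrFun hb x.2)

end

end Pool.Agent.Lib.MP_904b2a_gt.H83
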