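import Pool.Agent.Lib.MP_904b2a_gt.H74.Ops

/-!
# MP_904b2a_gt: Chern classes of families of projections (interface between the two halves of
stage 2)
-/

open scoped BigOperators Matrix
open Module

namespace Pool.Agent.Lib.MP_904b2a_gt.H83

noncomputable section

/-- A theory of Chern classes for continuous families of orthogonal projections. -/
structure PChern where
  /-- the classes -/
  c : ∀ {r : ℕ} {X : Type} [TopologicalSpace X] {ι : Type} [Fintype ι] [DecidableEq ι]
    (_ : PF r X ι) (i : ℕ), H (2 * i) X ℤ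
  c_zero : ∀ {r : ℕ} {X : Type} [TopologicalSpace X] {ι : Type} [Fintype ι] [DecidableEq ι]
    (p : PF r X ι), c p 0 = H.one
  c_gt : ∀ {r : ℕ} {X : Type} [TopologicalSpace X] {ι : Type} [Fintype ι] [DecidableEq ι]
    (p : PF r X ι) (i : ℕ), r < i → c p i = 0
  /-- naturality and invariance under isomorphisms -/
  map : ∀ {r : ℕ} {X Y : Type} [TopologicalSpace X] [TopologicalSpace Y] {ι κ : Type} [Fintype ι]
    [DecidableEq ι] [Fintype κ] [DecidableEq κ] (p : PF r X ι) (q : PF r Y κ) (f : C(X, Y))
    (A : X → Matrix κ ι ℂ), Continuous A →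
    (∀ x v, p.P x *ᵥ v = v → q.P (f x) *ᵥ (A x *ᵥ v) = A x *ᵥ v) →
    (∀ x v, p.P x *ᵥ v = v → A x *ᵥ v = 0 → v = 0) → ∀ i : ℕ, c p i = H.pb f (c q i)
  /-- the Whitney sum formula -/
  whitney : ∀ {r s : ℕ} {X : Type} [TopologicalSpace X] {ι κ : Type} [Fintype ι]
    [DecidableEq ι] [Fintype κ] [DecidableEq κ] (p : PF r X ι) (q : PF s X κ) (k : ℕ),
    c (p.dsum q) k = ∑ i : Fin (k + 1),
      H.cup (p := 2 * (i : ℕ)) (q := 2 * (k - (i : ℕ))) (n := 2 * k) (by omega)
        (c p (i : ℕ)) (c q (k - (i : ℕ)))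
  taut : ∀ u : H (2 * 1) CP1 ℤ, ∃ n : ℤ, u = n • c PF.taut 1

/-- What is to be proved about vector bundles: a theory for families of projections gives a
theory for vector bundles (with `c V i := c (projection onto the image of an embedding of V)` if
`V` is embeddable, `0` otherwise). -/
def TransferStatement : Prop := PChern → Nonempty ChernTheory

end

end Pool.Agent.Lib.MP_904b2a_gt.H83
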