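import Pool.Agent.Lib.MP_904b2a_gt.H83.Tm
import Pool.Agent.Lib.MP_904b2a_gt.H83.PChern

/-!
# MP_904b2a_gt: Chern classes of families of projections
-/

open scoped BigOperators Matrix ComplexOrder
open Set Topology

set_option linter.unusedSectionVars false

namespace Pool.Agent.Lib.MP_904b2a_gt.H83

noncomputable section

variable {ι κ μ ν : Type} [Fintype ι] [DecidableEq ι] [Fintype κ] [DecidableEq κ]
  [Fintype μ] [DecidableEq μ] [Fintype ν] [DecidableEq ν]

variable {r s : ℕ} {X Y : Type} [TopologicalSpace X] [TopologicalSpace Y]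

open CP

/-- The defining relation of the Chern classes. -/
structure Rel (p : PF r X ι) (g : ℕ → T X) : Prop where
  zero : g 0 = 1
  gt : ∀ i, r < i → g i = 0
  rel : ∑ i ∈ Finset.range (r + 1), T.map (PV.pr p) (g i) * PV.xi p ^ (r - i) = 0

/-- The relation in terms of the basis. -/
theorem rel_iff (p : PF r X ι) (g : ℕ → T X) (h0 : g 0 = 1) :
    ∑ i ∈ Finset.range (r + 1), T.map (PV.pr p) (g i) * PV.xi p ^ (r - i) = 0 ↔
      ∑ k : Fin r, T.map (PV.pr p) (g (r - k)) * PV.xi p ^ (k : ℕ) = - PV.xi p ^ r := by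
  rw [Finset.sum_range_succ', h0, map_one, one_mul, Nat.sub_zero, add_eq_zero_iff_eq_neg,
    ← Finset.sum_range_reflect, Finset.sum_range]
  have e : ∀ k : Fin r, r - 1 - (k : ℕ) + 1 = r - k ∧ r - (r - k) = k := by
    intro k
    have := k.2
    omega
  have e2 : ∑ k : Fin r, T.map (PV.pr p) (g (r - 1 - (k : ℕ) + 1)) *
      PV.xi p ^ (r - (r - 1 - (k : ℕ) + 1)) =
      ∑ k : Fin r, T.map (PV.pr p) (g (r - k)) * PV.xi p ^ (k : ℕ) := by
    refine Finset.sum_congr rfl (fun k _ => ?_)
    rw [(e k).1, (e k).2]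
  rw [e2]

theorem exists_rel (p : PF r X ι) : ∃ g, Rel p g := by
  obtain ⟨a, ha⟩ := (LH_PV p).2 (- PV.xi p ^ r)
  simp only at ha
  set g : ℕ → T X := fun i => if i = 0 then 1 else if h : i ≤ r ∧ 0 < i then
    a ⟨r - i, by omega⟩ else 0 with hg
  have h0 : g 0 = 1 := if_pos rfl
  refine ⟨g, h0, ?_, ?_⟩
  · intro i hi
    rw [hg]
    simp only
    rw [if_neg (by omega), dif_neg (by omega)]
  · rw [rel_iff p g h0, ← ha]
    refine Finset.sum_congr rfl (fun k _ => ?_)
    have hk := k.2
    have e : g (r - k) = a k := by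
      rw [hg]
      simp only
      rw [if_neg (by omega), dif_pos ⟨by omega, by omega⟩]
      congr 1
      apply Fin.ext
      simp only
      omega
    rw [e]

theorem Rel.unique {p : PF r X ι} {g g' : ℕ → T X} (h : Rel p g) (h' : Rel p g') : g = g' := by
  have h1 := (rel_iff p g h.zero).1 h.rel
  have h2 := (rel_iff p g' h'.zero).1 h'.rel
  have h3 := (LH_PV p).inj (a := fun k => g (r - k)) (b := fun k => g' (r - k)) (h1.trans h2.symm)
  funext i
  rcases Nat.eq_zero_or_pos i with hi | hi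
  · subst hi
    rw [h.zero, h'.zero]
  · by_cases hir : r < i
    · rw [h.gt i hir, h'.gt i hir]
    · have h4 := congrFun h3 ⟨r - i, by omega⟩
      simp only at h4
      have e : r - (r - i) = i := by omega
      rwa [e] at h4

/-- The Chern classes in the total cohomology. -/
def ct (p : PF r X ι) : ℕ → T X := (exists_rel p).choose

theorem ct_rel (p : PF r X ι) : Rel p (ct p) := (exists_rel p).choose_spec

theorem ct_isHom (p : PF r X ι) (i : ℕ) : T.IsHom (2 * i) (ct p i) := by
  have h := ct_rel p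
  have h2 : Rel p (fun i => T.of (2 * i) (ct p i (2 * i))) := by
    refine ⟨?_, ?_, ?_⟩
    · rw [h.zero]
      exact T.isHom_one.eq_of.symm
    · intro i hi
      rw [h.gt i hi]
      exact map_zero _
    · ext n
      rw [T.zero_apply, T.sum_apply]
      by_cases hn : n = 2 * r
      · subst hn
        have h3 := congrFun h.rel (2 * r)
        rw [T.sum_apply, T.zero_apply] at h3
        rw [← h3]
        refine Finset.sum_congr rfl (fun i hi => ?_)
        have hi' : i ≤ r := by
          have := Finset.mem_range.1 hi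
          omega
        have hp := (PV.isHom_xi p).pow (r - i)
        have hd : 2 * i + (r - i) * 2 = 2 * r := by omega
        rw [T.mul_hom_apply _ hp hd, T.mul_hom_apply _ hp hd, T.map_apply, T.map_apply, T.of_self]
      · refine Finset.sum_eq_zero (fun i hi => ?_)
        have hi' : i ≤ r := by
          have := Finset.mem_range.1 hi
          omega
        have hp := (PV.isHom_xi p).pow (r - i)
        have h4 := ((T.isHom_of (2 * i) (ct p i (2 * i))).map (PV.pr p)).mul hp
        exact h4 n (by omega)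
  have h3 := congrFun (h.unique h2) i
  rw [h3]
  exact T.isHom_of _ _

/-! ## Naturality -/

theorem ct_map (p : PF r X ι) (q : PF r Y κ) (f : C(X, Y)) (A : X → Matrix κ ι ℂ)
    (hA : Continuous A)
    (h1 : ∀ x v, p.P x *ᵥ v = v → q.P (f x) *ᵥ (A x *ᵥ v) = A x *ᵥ v)
    (h2 : ∀ x v, p.P x *ᵥ v = v → A x *ᵥ v = 0 → v = 0) (i : ℕ) :
    ct p i = T.map f (ct q i) := by
  have hP : ∀ (z : PV p) (v : ι → ℂ),
      p.P (PV.pr p z) *ᵥ ((PV.ln p z).1 *ᵥ v) = (PV.ln p z).1 *ᵥ v := by
    intro z v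
    rw [Matrix.mulVec_mulVec, PV.prop p z]
  have h3 : ∀ z : PV p, A (PV.pr p z) * (PV.ln p z).1 ≠ 0 := by
    intro z h0
    apply CP.ne_zero (PV.ln p z)
    apply ext_mulVec
    intro v
    rw [Matrix.zero_mulVec]
    apply h2 (PV.pr p z) _ (hP z v)
    rw [Matrix.mulVec_mulVec, h0, Matrix.zero_mulVec]
  have h4 : ∀ z : PV p, q.P (f (PV.pr p z)) * (A (PV.pr p z) * (PV.ln p z).1) =
      A (PV.pr p z) * (PV.ln p z).1 := by
    intro z
    apply ext_mulVec
    intro v
    rw [← Matrix.mulVec_mulVec, ← Matrix.mulVec_mulVec]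
    exact h1 _ _ (hP z v)
  have hc : Continuous (fun z : PV p => CP.push (A (PV.pr p z)) (PV.ln p z) (h3 z)) :=
    CP.continuous_push (hA.comp (PV.pr p).continuous) (PV.ln p).continuous h3
  set F : C(PV p, PV q) := PV.lift q (f.comp (PV.pr p)) ⟨_, hc⟩ (fun z => by
    change q.P (f (PV.pr p z)) * (CP.push (A (PV.pr p z)) (PV.ln p z) (h3 z)).1 =
      (CP.push (A (PV.pr p z)) (PV.ln p z) (h3 z)).1
    rw [CP.push_val, Matrix.mul_smul, ← Matrix.mul_assoc, h4]) with hF
  have e1 : (PV.pr q).comp F = f.comp (PV.pr p) := rfl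
  have e2 : T.map F (PV.xi q) = PV.xi p := by
    rw [PV.xi, PV.xi, T.map_map]
    symm
    exact xi_natural _ _ (fun z => A (PV.pr p z)) (hA.comp (PV.pr p).continuous) h3
      (fun z => CP.Mp.push (h3 z))
  have h5 := ct_rel q
  have h6 : Rel p (fun i => T.map f (ct q i)) := by
    refine ⟨?_, ?_, ?_⟩
    · rw [h5.zero, map_one]
    · intro i hi
      rw [h5.gt i hi, map_zero]
    · have h7 := congrArg (T.map F) h5.rel
      rw [map_zero, map_sum] at h7
      rw [← h7]
      refine Finset.sum_congr rfl (fun i _ => ?_)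
      rw [map_mul, map_pow, e2, T.map_map, T.map_map, e1]
  exact congrFun ((ct_rel p).unique h6) i

/-! ## The Whitney sum formula -/

/-- The decomposition of a direct sum. -/
def decSum (ι κ : Type) [Fintype ι] [DecidableEq ι] [Fintype κ] [DecidableEq κ] :
    Dec (ι ⊕ κ) ι κ where
  J := EM Sum.inl
  K := EM Sum.inr
  JJ := EM_conj_mul Sum.inl_injective
  KK := EM_conj_mul Sum.inr_injective
  sum := by
    ext i j
    simp only [Matrix.add_apply, Matrix.mul_apply, EM, Matrix.conjTranspose_apply,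
      Matrix.of_apply, Matrix.one_apply]
    rcases i with i | i
    · rcases j with j | j
      · simp [eq_comm]
      · simp
    · rcases j with j | j
      · simp
      · simp [eq_comm]

theorem Jc_dsum (p : PF r X ι) (q : PF s X κ) (x : X) :
    (EM (Sum.inl : ι → ι ⊕ κ))ᴴ * (p.dsum q).P x = p.P x * (EM (Sum.inl : ι → ι ⊕ κ))ᴴ := by
  change (EM (Sum.inl : ι → ι ⊕ κ))ᴴ * Matrix.fromBlocks (p.P x) 0 0 (q.P x) = _
  ext i j
  simp only [Matrix.mul_apply, EM, Matrix.conjTranspose_apply, Matrix.of_apply]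
  rcases j with j | j
  · simp
  · simp

theorem Kc_dsum (p : PF r X ι) (q : PF s X κ) (x : X) :
    (EM (Sum.inr : κ → ι ⊕ κ))ᴴ * (p.dsum q).P x = q.P x * (EM (Sum.inr : κ → ι ⊕ κ))ᴴ := by
  change (EM (Sum.inr : κ → ι ⊕ κ))ᴴ * Matrix.fromBlocks (p.P x) 0 0 (q.P x) = _
  ext i j
  simp only [Matrix.mul_apply, EM, Matrix.conjTranspose_apply, Matrix.of_apply]
  rcases j with j | j
  · simp
  · simp

/-- The polynomial of `p` vanishes where the line is not killed by the projection to `p`. -/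
theorem rel_vanish (p : PF r X ι) (d : PF s X μ) (M : Matrix ι μ ℂ)
    (hM : ∀ x, M * d.P x = p.P x * M) :
    T.map (sval (nz M (PV.ln d))) (∑ i ∈ Finset.range (r + 1),
      T.map (PV.pr d) (ct p i) * PV.xi d ^ (r - i)) = 0 := by
  have hl : ∀ z : nz M (PV.ln d), p.P (PV.pr d z.1) * (pushOn M (PV.ln d) z).1 =
      (pushOn M (PV.ln d) z).1 := by
    intro z
    have h0 : M * (PV.ln d z.1).1 ≠ 0 := z.2
    change p.P (PV.pr d z.1) * (CP.push M (PV.ln d z.1) h0).1 =
      (CP.push M (PV.ln d z.1) h0).1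
    have e : p.P (PV.pr d z.1) * (M * (PV.ln d z.1).1) = M * (PV.ln d z.1).1 := by
      rw [← Matrix.mul_assoc, ← hM, Matrix.mul_assoc, PV.prop d z.1]
    rw [CP.push_val, Matrix.mul_smul, ← Matrix.mul_assoc, e]
  set F : C(nz M (PV.ln d), PV p) := PV.lift p ((PV.pr d).comp (sval _)) (pushOn M (PV.ln d)) hl
    with hF
  have e1 : (PV.pr p).comp F = (PV.pr d).comp (sval _) := rfl
  have e2 : T.map F (PV.xi p) = T.map (sval (nz M (PV.ln d))) (PV.xi d) := by
    rw [PV.xi, PV.xi, T.map_map, T.map_map]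
    symm
    exact xi_natural _ _ (fun _ => M) continuous_const (fun z => z.2)
      (fun z => CP.Mp.push z.2)
  have h7 := congrArg (T.map F) (ct_rel p).rel
  rw [map_zero, map_sum] at h7
  rw [map_sum, ← h7]
  refine Finset.sum_congr rfl (fun i _ => ?_)
  rw [map_mul, map_pow, map_mul, map_pow, e2, T.map_map, T.map_map, e1]

theorem ct_whitney (p : PF r X ι) (q : PF s X κ) (k : ℕ) :
    ct (p.dsum q) k = ∑ x ∈ Finset.HasAntidiagonal.antidiagonal k, ct p x.1 * ct q x.2 := by
  have hp := ct_rel p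
  have hq := ct_rel q
  have S := (decSum ι κ).sq (PV.ln (p.dsum q))
  have v1 := rel_vanish p (p.dsum q) (EM (Sum.inl : ι → ι ⊕ κ))ᴴ (Jc_dsum p q)
  have v2 := rel_vanish q (p.dsum q) (EM (Sum.inr : κ → ι ⊕ κ))ᴴ (Kc_dsum p q)
  have v3 := T.mul_eq_zero_of S.symm v1 v2
  set d := p.dsum q with hd
  have h6 : Rel d (fun k => ∑ x ∈ Finset.HasAntidiagonal.antidiagonal k, ct p x.1 * ct q x.2) := by
    have hz : ∀ x : ℕ × ℕ, r < x.1 ∨ s < x.2 → ct p x.1 * ct q x.2 = 0 := by
      rintro x (hx | hx)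
      · rw [hp.gt _ hx, zero_mul]
      · rw [hq.gt _ hx, mul_zero]
    refine ⟨?_, ?_, ?_⟩
    · rw [Finset.Nat.antidiagonal_zero, Finset.sum_singleton, hp.zero, hq.zero, one_mul]
    · intro k hk
      refine Finset.sum_eq_zero (fun x hx => hz x ?_)
      have := Finset.HasAntidiagonal.mem_antidiagonal.1 hx
      omega
    · rw [← v3, Finset.sum_mul_sum, ← Finset.sum_product',
        ← Finset.sum_fiberwise_of_maps_to (g := fun x : ℕ × ℕ => x.1 + x.2)
          (t := Finset.range (r + s + 1))]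
      · refine Finset.sum_congr rfl (fun k hk => ?_)
        rw [map_sum, Finset.sum_mul]
        symm
        rw [← Finset.sum_subset (s₁ := Finset.filter (fun x : ℕ × ℕ => x.1 + x.2 = k)
          (Finset.range (r + 1) ×ˢ Finset.range (s + 1))) (s₂ := Finset.HasAntidiagonal.antidiagonal k)]
        · refine Finset.sum_congr rfl (fun x hx => ?_)
          rw [Finset.mem_filter, Finset.mem_product, Finset.mem_range, Finset.mem_range] at hx
          have hxi : PV.xi d ^ (r - x.1) * T.map (PV.pr d) (ct q x.2) =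
              T.map (PV.pr d) (ct q x.2) * PV.xi d ^ (r - x.1) := by
            refine T.comm_of_even (q := (r - x.1) * 2) (by simp) ((PV.isHom_xi d).pow _) _
          have e : r + s - k = (r - x.1) + (s - x.2) := by omega
          rw [map_mul, e, pow_add]
          simp only [mul_assoc]
          rw [← mul_assoc (PV.xi d ^ (r - x.1)), hxi, mul_assoc]
        · intro x hx
          rw [Finset.mem_filter] at hx
          exact Finset.HasAntidiagonal.mem_antidiagonal.2 hx.2
        · intro x hx hx'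
          rw [hz x, map_zero, zero_mul]
          rw [Finset.mem_filter, Finset.mem_product, Finset.mem_range, Finset.mem_range] at hx'
          have := Finset.HasAntidiagonal.mem_antidiagonal.1 hx
          omega
      · intro x hx
        rw [Finset.mem_product, Finset.mem_range, Finset.mem_range] at hx
        rw [Finset.mem_range]
        omega
  exact congrFun ((ct_rel d).unique h6) k

/-! ## The classes in `H^{2i}` -/

/-- The Chern classes of a family of projections. -/
def cc (p : PF r X ι) (i : ℕ) : H (2 * i) X ℤ := ct p i (2 * i)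

theorem cc_zero (p : PF r X ι) : cc p 0 = H.one := by
  rw [cc, (ct_rel p).zero, T.one_def]
  exact T.of_self 0 _

theorem cc_whitney (p : PF r X ι) (q : PF s X κ) (k : ℕ) :
    cc (p.dsum q) k = ∑ i : Fin (k + 1),
      H.cup (p := 2 * (i : ℕ)) (q := 2 * (k - (i : ℕ))) (n := 2 * k) (by omega)
        (cc p (i : ℕ)) (cc q (k - (i : ℕ))) := by
  have h1 : cc (p.dsum q) k = ∑ x ∈ Finset.HasAntidiagonal.antidiagonal k,
      cup0 (2 * x.1) (2 * x.2) (2 * k) (cc p x.1) (cc q x.2) := by
    rw [cc, ct_whitney, T.sum_apply]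
    refine Finset.sum_congr rfl (fun x hx => ?_)
    have hx' := Finset.HasAntidiagonal.mem_antidiagonal.1 hx
    have h : 2 * x.1 + 2 * x.2 = 2 * k := by omega
    rw [T.mul_hom_apply _ (ct_isHom q x.2) h, cup0_eq h]
    rfl
  rw [h1, Finset.Nat.sum_antidiagonal_eq_sum_range_succ
    (fun i j => cup0 (2 * i) (2 * j) (2 * k) (cc p i) (cc q j)) k, Finset.sum_range]
  refine Finset.sum_congr rfl (fun i _ => ?_)
  have hi := i.2
  exact cup0_eq (by omega : 2 * (i : ℕ) + 2 * (k - (i : ℕ)) = 2 * k) _ _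

/-! ## Normalisation -/

/-- The two versions of the projective line. -/
def jCP1 : C(CP1, CP (Fin 2)) :=
  ⟨fun x => ⟨x.1, x.2.1, x.2.2.1, by rw [x.2.2.2, Nat.cast_one]⟩,
    Continuous.subtype_mk continuous_subtype_val _⟩

/-- The inverse. -/
def jCP1' : C(CP (Fin 2), CP1) :=
  ⟨fun x => ⟨x.1, x.2.1, x.2.2.1, by rw [x.2.2.2, Nat.cast_one]⟩,
    Continuous.subtype_mk continuous_subtype_val _⟩

theorem H2_CP2 (u : H 2 (CP (Fin 2)) ℤ) : ∃ n : ℤ, u = n • xiF 2 := by
  obtain ⟨⟨a, b⟩, hab⟩ := (split_xiF Unit).2 (T.of 2 (H.pb (pr2 Unit (CP (Fin 2))) u))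
  simp only at hab
  obtain ⟨n, hn⟩ := H0_of_pathConnected (b 0)
  refine ⟨n, ?_⟩
  have h := congrFun hab 2
  rw [T.of_self, T.add_apply, T.map_apply, T_unit_pos a (by norm_num : (2 : ℕ) ≠ 0), map_zero,
    zero_add, T.comm_of_even (q := 2) even_two ((T.isHom_of 2 _).map _),
    T.mul_hom_apply _ ((T.isHom_of 2 _).map _) (by norm_num : 0 + 2 = 2), T.map_of, T.of_self,
    T.map_apply, hn, map_zsmul, H.pb_one] at h
  have h2 := congrArg (H.pb (⟨fun x => ((), x), by fun_prop⟩ : C(CP (Fin 2),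
    Unit × CP (Fin 2)))) h
  have e1 : (pr2 Unit (CP (Fin 2))).comp (⟨fun x => ((), x), by fun_prop⟩ : C(CP (Fin 2),
    Unit × CP (Fin 2))) = ContinuousMap.id _ := rfl
  rw [map_zsmul, AddMonoidHom.zsmul_apply, H.one_cup, map_zsmul, H.pb_comp, H.pb_comp, e1,
    H.pb_id, H.pb_id] at h2
  exact h2.symm

theorem cc_taut (u : H (2 * 1) CP1 ℤ) : ∃ n : ℤ, u = n • cc PF.taut 1 := by
  have h := (ct_rel PF.taut).rel
  rw [Finset.sum_range_succ, Finset.sum_range_one, (ct_rel PF.taut).zero, map_one, one_mul,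
    Nat.sub_zero, pow_one, Nat.sub_self, pow_zero, mul_one] at h
  set s : C(CP1, PV PF.taut) := PV.lift PF.taut (ContinuousMap.id CP1) jCP1 (fun x =>
    PF.taut.idem x) with hs
  have h2 := congrArg (T.map s) h
  have e1 : (PV.ln PF.taut).comp s = jCP1 := rfl
  rw [map_add, map_zero, T.map_map, PV.xi, T.map_map, e1] at h2
  have e2 : T.map ((PV.pr PF.taut).comp s) (ct PF.taut 1) = ct PF.taut 1 :=
    T.map_id (ct PF.taut 1)
  rw [e2, xi, T.map_of, xiH_fin] at h2
  have h3 := congrFun h2 2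
  rw [T.add_apply, T.of_self, T.zero_apply] at h3
  have h4 : cc PF.taut 1 = -(H.pb jCP1 (xiF 2)) := by
    have h5 : H.pb jCP1 (xiF 2) + cc PF.taut 1 = 0 := h3
    exact (neg_eq_of_add_eq_zero_right h5).symm
  obtain ⟨n, hn⟩ := H2_CP2 (H.pb jCP1' u)
  refine ⟨-n, ?_⟩
  have h6 := congrArg (H.pb jCP1) hn
  have e3 : jCP1'.comp jCP1 = ContinuousMap.id _ := rfl
  rw [H.pb_comp, e3, H.pb_id, map_zsmul] at h6
  rw [h4, neg_smul, smul_neg, neg_neg]
  exact h6

/-- **Chern classes of families of projections.** -/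
def pChern : PChern where
  c p i := cc p i
  c_zero p := cc_zero p
  c_gt p i hi := by
    change ct p i (2 * i) = 0
    rw [(ct_rel p).gt i hi]
    rfl
  map p q f A hA h1 h2 i := by
    change ct p i (2 * i) = _
    rw [ct_map p q f A hA h1 h2 i]
    rfl
  whitney p q k := cc_whitney p q k
  taut u := cc_taut u

theorem nonempty_pChern : Nonempty PChern := ⟨pChern⟩

end

end Pool.Agent.Lib.MP_904b2a_gt.H83
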