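import Pool.Agent.Lib.MP_904b2a_gt.H83.Xi

/-!
# MP_904b2a_gt: projective bundles; local triviality and the Leray–Hirsch property
-/

open scoped BigOperators Matrix ComplexOrder
open Set Topology

set_option linter.unusedSectionVars false

namespace Pool.Agent.Lib.MP_904b2a_gt.H83

noncomputable section

/-! ## The Leray–Hirsch property over subsets -/

section On

variable {E Y : Type} [TopologicalSpace E] [TopologicalSpace Y]

/-- The restriction of `π` over the subset `O`. -/
def resOn (π : C(E, Y)) (O : Set Y) : C(π ⁻¹' O, O) :=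
  ⟨fun z => ⟨π z.1, z.2⟩, by fun_prop⟩

/-- The Leray–Hirsch property over `O`. -/
def LHon (π : C(E, Y)) (ξ : T E) (r : ℕ) (O : Set Y) : Prop :=
  LH (resOn π O) (T.map (sval (π ⁻¹' O)) ξ) r

theorem LHon.union {π : C(E, Y)} {ξ : T E} {r : ℕ} {A B : Set Y} (hA : IsOpen A) (hB : IsOpen B)
    (h1 : LHon π ξ r A) (h2 : LHon π ξ r B) (h3 : LHon π ξ r (A ∩ B)) :
    LHon π ξ r (A ∪ B) := by
  have S := MVSq.sub hA hB inter_subset_left inter_subset_right
    (subset_union_left (s := A) (t := B)) subset_union_right subset_rfl subset_rfl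
  have S' := MVSq.sub (I := π ⁻¹' (A ∩ B)) (V := π ⁻¹' (A ∪ B)) (hA.preimage π.continuous)
    (hB.preimage π.continuous) (preimage_mono inter_subset_left)
    (preimage_mono inter_subset_right) (preimage_mono subset_union_left)
    (preimage_mono subset_union_right) subset_rfl subset_rfl
  refine LH.glue S S' (pI := resOn π (A ∩ B)) (pU := resOn π A) (pW := resOn π B)
    (pY := resOn π (A ∪ B)) rfl rfl rfl rfl ?_ ?_ ?_
  · rw [T.map_map]
    exact h1
  · rw [T.map_map]
    exact h2
  · rw [T.map_map]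
    exact h3

theorem LHon.empty {π : C(E, Y)} {ξ : T E} {r : ℕ} : LHon π ξ r ∅ := by
  have h1 : IsEmpty ↥(∅ : Set Y) := Set.isEmpty_coe_sort.2 rfl
  have h2 : IsEmpty ↥(π ⁻¹' (∅ : Set Y)) := Set.isEmpty_coe_sort.2 preimage_empty
  constructor
  · intro a b _
    funext k
    rw [T.eq_zero_of_isEmpty (a k), T.eq_zero_of_isEmpty (b k)]
  · intro y
    refine ⟨0, ?_⟩
    rw [T.eq_zero_of_isEmpty y]
    exact T.eq_zero_of_isEmpty _

theorem LHon.finite {π : C(E, Y)} {ξ : T E} {r : ℕ} {α : Type*} (U : α → Set Y)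
    (hU : ∀ i, IsOpen (U i)) (h : ∀ i, ∀ O ⊆ U i, IsOpen O → LHon π ξ r O) (S : Finset α) :
    ∀ O : Set Y, IsOpen O → O ⊆ ⋃ i ∈ S, U i → LHon π ξ r O := by
  classical
  induction S using Finset.induction_on with
  | empty =>
    intro O _ hO
    have hO' : O = ∅ := by
      rw [← subset_empty_iff]
      intro y hy
      simpa using hO hy
    subst hO'
    exact LHon.empty
  | insert i S _ ih =>
    intro O hOo hO
    have hS : IsOpen (⋃ j ∈ S, U j) := isOpen_biUnion fun j _ => hU j
    have e : O = (O ∩ U i) ∪ (O ∩ ⋃ j ∈ S, U j) := by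
      ext y
      constructor
      · intro hy
        have h2 := hO hy
        rw [Finset.set_biUnion_insert] at h2
        rcases h2 with h2 | h2
        · exact Or.inl ⟨hy, h2⟩
        · exact Or.inr ⟨hy, h2⟩
      · rintro (hy | hy)
        · exact hy.1
        · exact hy.1
    rw [e]
    refine LHon.union (hOo.inter (hU i)) (hOo.inter hS) ?_ ?_ ?_
    · exact h i _ inter_subset_right (hOo.inter (hU i))
    · exact ih _ (hOo.inter hS) inter_subset_right
    · exact ih _ ((hOo.inter (hU i)).inter (hOo.inter hS))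
        (inter_subset_right.trans inter_subset_right)

theorem LHon.of_univ {π : C(E, Y)} {ξ : T E} {r : ℕ} (h : LHon π ξ r univ) : LH π ξ r := by
  have h1 : Function.Bijective (T.map (⟨fun z => ⟨z, trivial⟩, by fun_prop⟩ :
      C(E, ↥(π ⁻¹' (univ : Set Y))))) :=
    T.map_bijective_of_inv (g := sval _) rfl rfl
  have h2 := LH.of_bij h _ h1
  rw [T.map_map] at h2
  have h3 : Function.Bijective (T.map (sval (univ : Set Y))) :=
    T.map_bijective_of_inv (g := ⟨fun z => ⟨z, trivial⟩, by fun_prop⟩) rfl rfl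
  have h4 := h2.of_bij_base _ h3
  have e : (sval (π ⁻¹' (univ : Set Y))).comp (⟨fun z => ⟨z, trivial⟩, by fun_prop⟩ :
      C(E, ↥(π ⁻¹' (univ : Set Y)))) = ContinuousMap.id E := rfl
  rw [e, T.map_id] at h4
  exact h4

end On

/-! ## Compactness of the Grassmannians -/

variable {ι κ μ ν : Type} [Fintype ι] [DecidableEq ι] [Fintype κ] [DecidableEq κ]
  [Fintype μ] [DecidableEq μ] [Fintype ν] [DecidableEq ν]

theorem norm_entry_le {P : Matrix ι ι ℂ} (h1 : Pᴴ = P) (h2 : P * P = P) (i j : ι) :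
    ‖P i j‖ ≤ 1 := by
  have e : P i i = ((∑ k, ‖P i k‖ ^ 2 : ℝ) : ℂ) := by
    have h3 : (P * P) i i = ∑ k, P i k * P k i := Matrix.mul_apply
    rw [h2] at h3
    rw [h3, Complex.ofReal_sum]
    refine Finset.sum_congr rfl (fun k _ => ?_)
    have h4 : P k i = star (P i k) := by
      rw [← Matrix.conjTranspose_apply, h1]
    rw [h4, Complex.star_def, Complex.mul_conj, Complex.normSq_eq_norm_sq]
  have e' : ‖P i i‖ = ∑ k, ‖P i k‖ ^ 2 := by
    rw [e, Complex.norm_real, Real.norm_eq_abs, abs_of_nonneg]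
    exact Finset.sum_nonneg fun k _ => sq_nonneg _
  have h5 : ∀ k, ‖P i k‖ ^ 2 ≤ ‖P i i‖ := by
    intro k
    rw [e']
    exact Finset.single_le_sum (f := fun k => ‖P i k‖ ^ 2) (fun k _ => sq_nonneg _)
      (Finset.mem_univ k)
  have h6 : ‖P i i‖ ≤ 1 := by
    by_contra h
    rw [not_le] at h
    have h7 := h5 i
    nlinarith
  have h7 := h5 j
  have h8 := norm_nonneg (P i j)
  nlinarith

instance (r : ℕ) : CompactSpace (Gr r ι) := by
  have hK : IsCompact (Set.pi univ (fun _ : ι => Set.pi univ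
      (fun _ : ι => Metric.closedBall (0 : ℂ) 1))) :=
    isCompact_univ_pi fun _ => isCompact_univ_pi fun _ => isCompact_closedBall _ _
  have hc : IsClosed {P : Matrix ι ι ℂ | Pᴴ = P ∧ P * P = P ∧ P.trace = r} := by
    refine IsClosed.inter ?_ (IsClosed.inter ?_ ?_)
    · exact isClosed_eq continuous_id.matrix_conjTranspose continuous_id
    · exact isClosed_eq (continuous_id.matrix_mul continuous_id) continuous_id
    · exact isClosed_eq continuous_id.matrix_trace continuous_const
  have h2 : IsCompact {P : Matrix ι ι ℂ | Pᴴ = P ∧ P * P = P ∧ P.trace = r} := by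
    refine hK.of_isClosed_subset hc ?_
    rintro P ⟨h1, h2, -⟩
    intro i _ j _
    rw [mem_closedBall_zero_iff]
    exact norm_entry_le h1 h2 i j
  exact isCompact_iff_compactSpace.1 h2

/-! ## Matrix versions of the properties of the frames -/

section Frames

variable {r : ℕ} {X : Type} [TopologicalSpace X]

theorem ext_mulVec {A B : Matrix κ ι ℂ} (h : ∀ v, A *ᵥ v = B *ᵥ v) : A = B :=
  Matrix.mulVec_injective (funext h)

theorem C_mul_fr (p : PF r X ι) {i x : X} (hx : x ∈ p.dom i) : p.C i * p.fr i x = 1 := by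
  apply ext_mulVec
  intro v
  rw [← Matrix.mulVec_mulVec, p.C_mulVec_fr hx, Matrix.one_mulVec]

theorem P_mul_fr (p : PF r X ι) (i x : X) : p.P x * p.fr i x = p.fr i x := by
  apply ext_mulVec
  intro v
  rw [← Matrix.mulVec_mulVec, p.P_mulVec_fr]

theorem fr_mul_C (p : PF r X ι) {i x : X} (hx : x ∈ p.dom i) {M : Matrix ι κ ℂ}
    (hM : p.P x * M = M) : p.fr i x * (p.C i * M) = M := by
  apply ext_mulVec
  intro v
  rw [← Matrix.mulVec_mulVec, ← Matrix.mulVec_mulVec]
  apply p.fr_mulVec_C hx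
  rw [p.mem_rng, Matrix.mulVec_mulVec, hM]

end Frames

/-! ## Projective bundles -/

section PVsec

variable {r : ℕ} {X : Type} [TopologicalSpace X]

/-- The projective bundle of a family of projections. -/
def PV (p : PF r X ι) : Type := {z : X × CP ι // p.P z.1 * z.2.1 = z.2.1}

instance (p : PF r X ι) : TopologicalSpace (PV p) :=
  inferInstanceAs (TopologicalSpace {z : X × CP ι // p.P z.1 * z.2.1 = z.2.1})

namespace PV

/-- The projection to the base. -/
def pr (p : PF r X ι) : C(PV p, X) := ⟨fun z => z.1.1, continuous_fst.comp continuous_subtype_val⟩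

/-- The line. -/
def ln (p : PF r X ι) : C(PV p, CP ι) :=
  ⟨fun z => z.1.2, continuous_snd.comp continuous_subtype_val⟩

theorem prop (p : PF r X ι) (z : PV p) : p.P (pr p z) * (ln p z).1 = (ln p z).1 := z.2

/-- A map to the projective bundle. -/
def lift (p : PF r X ι) {Z : Type*} [TopologicalSpace Z] (f : C(Z, X)) (q : C(Z, CP ι))
    (h : ∀ z, p.P (f z) * (q z).1 = (q z).1) : C(Z, PV p) :=
  ⟨fun z => ⟨(f z, q z), h z⟩, Continuous.subtype_mk (f.continuous.prodMk q.continuous) h⟩

theorem ext (p : PF r X ι) {z w : PV p} (h1 : pr p z = pr p w) (h2 : ln p z = ln p w) :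
    z = w := Subtype.ext (Prod.ext h1 h2)

/-- The class `ξ`. -/
def xi (p : PF r X ι) : T (PV p) := T.map (ln p) (H83.xi ι)

theorem isHom_xi (p : PF r X ι) : T.IsHom 2 (xi p) := H83.isHom_xi.map _

end PV

/-- The Leray–Hirsch theorem for trivial bundles of rank `r`. -/
def LHT (r : ℕ) : Prop :=
  ∀ (X : Type) [TopologicalSpace X],
    LH (pr1 X (CP (Fin r))) (T.map (pr2 X (CP (Fin r))) (xi (Fin r))) r

theorem LHon_of_subset_dom (hr : LHT r) (p : PF r X ι) (i : Gr r ι) (O : Set X)
    (hO : O ⊆ cls p ⁻¹' (uni r ι).dom i) : LHon (PV.pr p) (PV.xi p) r O := by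
  have hC : ∀ z : ↥(PV.pr p ⁻¹' O),
      (uni r ι).fr i (cls p (PV.pr p z.1)) * ((uni r ι).C i * (PV.ln p z.1).1) =
        (PV.ln p z.1).1 := by
    intro z
    exact fr_mul_C (uni r ι) (hO z.2) (PV.prop p z.1)
  have hC0 : ∀ z : ↥(PV.pr p ⁻¹' O), (uni r ι).C i * (PV.ln p z.1).1 ≠ 0 := by
    intro z h0
    have h := hC z
    rw [h0, Matrix.mul_zero] at h
    exact CP.ne_zero _ h.symm
  have hF : ∀ x : O, (uni r ι).C i * (uni r ι).fr i (cls p x.1) = 1 := fun x =>
    C_mul_fr (uni r ι) (hO x.2)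
  have hF0 : ∀ z : ↥O × CP (Fin r), (uni r ι).fr i (cls p z.1.1) * z.2.1 ≠ 0 := fun z =>
    CP.mul_ne_zero_of_left_inv one_ne_zero (by rw [one_smul]; exact hF z.1) z.2
  have hFP : ∀ z : ↥O × CP (Fin r), p.P z.1.1 *
      (CP.push ((uni r ι).fr i (cls p z.1.1)) z.2 (hF0 z)).1 =
      (CP.push ((uni r ι).fr i (cls p z.1.1)) z.2 (hF0 z)).1 := by
    intro z
    rw [CP.push_val, Matrix.mul_smul, ← Matrix.mul_assoc, ← Matrix.mul_assoc]
    congr 3
    exact P_mul_fr (uni r ι) i (cls p z.1.1)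
  -- the map to the product
  set f : C(↥(PV.pr p ⁻¹' O), ↥O × CP (Fin r)) :=
    ⟨fun z => (⟨PV.pr p z.1, z.2⟩, CP.push ((uni r ι).C i) (PV.ln p z.1) (hC0 z)), by
      refine Continuous.prodMk (Continuous.subtype_mk
        ((PV.pr p).continuous.comp continuous_subtype_val) (fun z => z.2)) ?_
      exact CP.continuous_push continuous_const
        ((PV.ln p).continuous.comp continuous_subtype_val) hC0⟩ with hf
  have hfrc : Continuous (fun z : ↥O × CP (Fin r) => (uni r ι).fr i (cls p z.1.1)) :=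
    ((uni r ι).continuousOn_fr i).comp_continuous ((cls p).continuous.comp
      (continuous_subtype_val.comp continuous_fst)) (fun z => hO z.1.2)
  set g : C(↥O × CP (Fin r), ↥(PV.pr p ⁻¹' O)) :=
    ⟨fun z => ⟨⟨(z.1.1, CP.push ((uni r ι).fr i (cls p z.1.1)) z.2 (hF0 z)), hFP z⟩, z.1.2⟩, by
      refine Continuous.subtype_mk (Continuous.subtype_mk (Continuous.prodMk
        (continuous_subtype_val.comp continuous_fst) ?_) hFP) (fun z => z.1.2)
      exact CP.continuous_push hfrc continuous_snd hF0⟩ with hg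
  have hgf : g.comp f = ContinuousMap.id _ := by
    ext1 z
    apply Subtype.ext
    refine PV.ext p rfl ?_
    exact ((CP.Mp.push (hC0 z)).inv (hC0 z) (hC z)).eq (hF0 (f z))
  have hfg : f.comp g = ContinuousMap.id _ := by
    ext1 z
    refine Prod.ext rfl ?_
    exact ((CP.Mp.push (hF0 z)).inv (hF0 z)
      (by rw [← Matrix.mul_assoc, hF z.1, Matrix.one_mul])).eq (hC0 (g z))
  have h := (hr O).of_bij f (T.map_bijective_of_inv hgf hfg)
  rw [T.map_map] at h
  have e : T.map ((pr2 ↥O (CP (Fin r))).comp f) (xi (Fin r)) =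
      T.map (sval (PV.pr p ⁻¹' O)) (PV.xi p) := by
    rw [PV.xi, T.map_map]
    symm
    exact xi_natural _ _ (fun _ => (uni r ι).C i) continuous_const hC0
      (fun z => CP.Mp.push (hC0 z))
  rw [e] at h
  exact h

/-- **The Leray–Hirsch theorem** for projective bundles, reduced to trivial bundles. -/
theorem LH_of_LHT (hr : LHT r) (p : PF r X ι) : LH (PV.pr p) (PV.xi p) r := by
  obtain ⟨S, hS⟩ := CompactSpace.elim_nhds_subcover (fun i : Gr r ι => (uni r ι).dom i)
    (fun i => ((uni r ι).isOpen_dom i).mem_nhds ((uni r ι).self_mem_dom i))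
  apply LHon.of_univ
  refine LHon.finite (fun i : Gr r ι => cls p ⁻¹' (uni r ι).dom i)
    (fun i => ((uni r ι).isOpen_dom i).preimage (cls p).continuous)
    (fun i O hO _ => LHon_of_subset_dom hr p i O hO) S univ isOpen_univ ?_
  intro x _
  have h2 : cls p x ∈ ⋃ i ∈ S, (uni r ι).dom i := by
    rw [hS]
    trivial
  simpa using h2

end PVsec

end

end Pool.Agent.Lib.MP_904b2a_gt.H83
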