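import Pool.Agent.Lib.MP_904b2a_gt.H83.PV

/-!
# MP_904b2a_gt: the Leray–Hirsch theorem for `X × ℂP^n`
-/

open scoped BigOperators Matrix ComplexOrder
open Set Topology

set_option linter.unusedSectionVars false

namespace Pool.Agent.Lib.MP_904b2a_gt.H83

noncomputable section

variable {ι κ μ ν : Type} [Fintype ι] [DecidableEq ι] [Fintype κ] [DecidableEq κ]
  [Fintype μ] [DecidableEq μ] [Fintype ν] [DecidableEq ν]

open CP

theorem CP.Mp.push_left {A : Matrix μ κ ℂ} {B : Matrix κ ι ℂ} {q : CP ι} {q' : CP μ}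
    (h0 : B * q.1 ≠ 0) (h : Mp (A * B) q q') : Mp A (CP.push B q h0) q' := by
  rw [Mp] at h ⊢
  rw [push_val, Matrix.mul_smul, ← Matrix.mul_assoc, ← Matrix.mul_assoc, Matrix.mul_smul,
    ← Matrix.mul_assoc, h]

/-! ## Small ranks -/

theorem LHT_zero : LHT 0 := by
  intro X _
  constructor
  · intro a b _
    funext k
    exact k.elim0
  · intro y
    refine ⟨fun k => k.elim0, ?_⟩
    rw [T.eq_zero_of_isEmpty y]
    exact T.eq_zero_of_isEmpty _

theorem LHT_one : LHT 1 := by
  intro X _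
  have h : Function.Bijective (T.map (pr1 X (CP (Fin 1)))) :=
    T.map_bijective_of_inv (g := ⟨fun x => (x, one1), by fun_prop⟩)
      (by
        ext1 z
        exact Prod.ext rfl (Subsingleton.elim _ _)) rfl
  have e : (fun a : Fin 1 → T X => ∑ k : Fin 1, T.map (pr1 X (CP (Fin 1))) (a k) *
      T.map (pr2 X (CP (Fin 1))) (xi (Fin 1)) ^ (k : ℕ)) =
      T.map (pr1 X (CP (Fin 1))) ∘ (fun a : Fin 1 → T X => a 0) := by
    funext a
    rw [Fin.sum_univ_one]
    simp
  rw [LH, e]
  refine h.comp ⟨?_, ?_⟩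
  · intro a b hab
    funext k
    rw [Fin.fin_one_eq_zero k]
    exact hab
  · intro x
    exact ⟨fun _ => x, rfl⟩

theorem LHT_two : LHT 2 := by
  intro X _
  have h := split_xiF X
  have e : (fun a : Fin 2 → T X => ∑ k : Fin 2, T.map (pr1 X (CP (Fin 2))) (a k) *
      T.map (pr2 X (CP (Fin 2))) (xi (Fin 2)) ^ (k : ℕ)) =
      (fun p : T X × T X => T.map (pr1 X (CP (Fin 2))) p.1 +
        T.map (pr2 X (CP (Fin 2))) (T.of 2 (xiF 2)) * T.map (pr1 X (CP (Fin 2))) p.2) ∘
      (fun a : Fin 2 → T X => (a 0, a 1)) := by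
    funext a
    rw [Fin.sum_univ_two, Function.comp_apply]
    simp only [Fin.coe_ofNat_eq_mod, Nat.zero_mod, pow_zero, mul_one, Nat.mod_succ, pow_one]
    rw [xi, xiH_fin, T.comm_of_even (q := 2) even_two ((T.isHom_of 2 _).map _)]
  rw [LH, e]
  refine h.comp ⟨?_, ?_⟩
  · intro a b hab
    funext k
    have h1 := congrArg Prod.fst hab
    have h2 := congrArg Prod.snd hab
    fin_cases k
    · exact h1
    · exact h2
  · intro x
    exact ⟨![x.1, x.2], rfl⟩

/-! ## The blow up -/

section Blow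

variable (D : Dec ι κ (Fin 1)) (X : Type) [TopologicalSpace X]

/-- The family `q' ⊕ ℂ`. -/
def blP : PF 2 (X × CP κ) ι where
  P z := D.J * z.2.1 * D.Jᴴ + D.K * D.Kᴴ
  cont := ((continuous_const.matrix_mul (Gr.continuous_val.comp continuous_snd)).matrix_mul
    continuous_const).add continuous_const
  herm z := by
    rw [Matrix.conjTranspose_add, Matrix.conjTranspose_mul, Matrix.conjTranspose_mul,
      Matrix.conjTranspose_mul, Matrix.conjTranspose_conjTranspose,
      Matrix.conjTranspose_conjTranspose, CP.herm, Matrix.mul_assoc]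
  idem z := by
    have e1 : D.J * z.2.1 * D.Jᴴ * (D.J * z.2.1 * D.Jᴴ) = D.J * z.2.1 * D.Jᴴ := by
      have : D.J * z.2.1 * D.Jᴴ * (D.J * z.2.1 * D.Jᴴ) =
          D.J * (z.2.1 * (D.Jᴴ * D.J) * z.2.1) * D.Jᴴ := by simp only [Matrix.mul_assoc]
      rw [this, D.JJ, Matrix.mul_one, CP.idem]
    have e2 : D.J * z.2.1 * D.Jᴴ * (D.K * D.Kᴴ) = 0 := by
      rw [Matrix.mul_assoc, ← Matrix.mul_assoc D.Jᴴ, D.JK, Matrix.zero_mul, Matrix.mul_zero]
    have e3 : D.K * D.Kᴴ * (D.J * z.2.1 * D.Jᴴ) = 0 := by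
      have : D.K * D.Kᴴ * (D.J * z.2.1 * D.Jᴴ) = D.K * (D.Kᴴ * D.J) * z.2.1 * D.Jᴴ := by
        simp only [Matrix.mul_assoc]
      rw [this, D.KJ]
      simp
    have e4 : D.K * D.Kᴴ * (D.K * D.Kᴴ) = D.K * D.Kᴴ := by
      rw [Matrix.mul_assoc, ← Matrix.mul_assoc D.Kᴴ, D.KK, Matrix.one_mul]
    rw [Matrix.add_mul, Matrix.mul_add, Matrix.mul_add, e1, e2, e3, e4, add_zero, zero_add]
  tr z := by
    rw [Matrix.trace_add, CP.trace_push, D.JJ, Matrix.mul_one, CP.tr, Matrix.trace_mul_comm,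
      D.KK, Matrix.trace_one, Fintype.card_fin]
    norm_num

variable {X}

theorem blP_mem {q : CP ι} {x : X} {q' : CP κ} (h : Mp D.Jᴴ q q') :
    (blP D X).P (x, q') * q.1 = q.1 := by
  change (D.J * q'.1 * D.Jᴴ + D.K * D.Kᴴ) * q.1 = q.1
  rw [Mp] at h
  rw [Matrix.add_mul, Matrix.mul_assoc (D.J * q'.1), Matrix.mul_assoc D.J, h,
    ← Matrix.mul_assoc, ← Matrix.add_mul, D.sum, Matrix.one_mul]

theorem blP_Mp (z : PV (blP D X)) : Mp D.Jᴴ (PV.ln _ z) (PV.pr _ z).2 := by
  have h := PV.prop _ z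
  change (D.J * (PV.pr _ z).2.1 * D.Jᴴ + D.K * D.Kᴴ) * (PV.ln _ z).1 = (PV.ln _ z).1 at h
  rw [Mp]
  have h2 := congrArg (fun M => D.Jᴴ * M) h
  simp only [Matrix.add_mul, Matrix.mul_add, ← Matrix.mul_assoc, D.JJ, D.JK, Matrix.one_mul,
    Matrix.zero_mul, add_zero] at h2
  rw [← Matrix.mul_assoc]
  exact h2

/-- The blow down. -/
def bet : C(PV (blP D X), X × CP ι) :=
  ⟨fun z => ((PV.pr _ z).1, PV.ln _ z), by fun_prop⟩

/-- The section of the blow up at infinity. -/
def secB : C(X × CP κ, PV (blP D X)) :=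
  PV.lift _ (ContinuousMap.id _) (ContinuousMap.const _ D.pt) (fun z => by
    apply blP_mem D (x := z.1) (q' := z.2)
    change z.2.1 * (D.Jᴴ * (D.K * D.Kᴴ)) = D.Jᴴ * (D.K * D.Kᴴ)
    rw [← Matrix.mul_assoc D.Jᴴ, D.JK, Matrix.zero_mul, Matrix.mul_zero])

/-- The affine part of `X × ℂP^n`. -/
abbrev UA (X : Type) [TopologicalSpace X] : Set (X × CP ι) := nz D.Kᴴ (pr2 X (CP ι))

/-- The complement of the center in `X × ℂP^n`. -/
abbrev UZ (X : Type) [TopologicalSpace X] : Set (X × CP ι) := nz D.Jᴴ (pr2 X (CP ι))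

/-- The affine part of the blow up. -/
abbrev VA (X : Type) [TopologicalSpace X] : Set (PV (blP D X)) := nz D.Kᴴ (PV.ln (blP D X))

/-- The complement of the exceptional divisor in the blow up. -/
abbrev VZ (X : Type) [TopologicalSpace X] : Set (PV (blP D X)) := nz D.Jᴴ (PV.ln (blP D X))

theorem UA_bij : Function.Bijective (T.map ((pr1 X (CP ι)).comp (sval (UA D X)))) := by
  have h := D.ptLike X
  set e : C(UA D X, X × nz D.Kᴴ (ContinuousMap.id (CP ι))) :=
    ⟨fun z => (z.1.1, ⟨z.1.2, z.2⟩), (continuous_fst.comp continuous_subtype_val).prodMk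
      (Continuous.subtype_mk (continuous_snd.comp continuous_subtype_val) (fun z => z.2))⟩ with he
  set e' : C(X × nz D.Kᴴ (ContinuousMap.id (CP ι)), UA D X) :=
    ⟨fun z => ⟨(z.1, z.2.1), z.2.2⟩, Continuous.subtype_mk
      (continuous_fst.prodMk (continuous_subtype_val.comp continuous_snd)) (fun z => z.2.2)⟩
    with he'
  have h2 : Function.Bijective (T.map e) := T.map_bijective_of_inv (g := e') rfl rfl
  have e3 : (T.map ((pr1 X (CP ι)).comp (sval (UA D X))) : T X → T (UA D X)) =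
      T.map e ∘ T.map (pr1 X (nz D.Kᴴ (ContinuousMap.id (CP ι)))) := by
    funext a
    rw [Function.comp_apply, T.map_map]
    rfl
  rw [e3]
  exact h2.comp h

theorem secB_mem (b : X × CP κ) : secB D b ∈ VA D X := D.pt_mem

/-- The section, as a map to the affine part. -/
def secA : C(X × CP κ, VA D X) :=
  ⟨fun b => ⟨secB D b, secB_mem D b⟩, Continuous.subtype_mk (secB D).continuous (secB_mem D)⟩

theorem VA_bij : Function.Bijective (T.map ((PV.pr (blP D X)).comp (sval (VA D X)))) := by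
  refine T.map_bijective_of_homotopic (g := secA D) ?_ (ContinuousMap.Homotopic.refl _)
  have hm : ∀ p : unitInterval × VA D X, (blP D X).P (PV.pr _ p.2.1) *
      (CP.push (D.Dg ((p.1 : ℝ) : ℂ) 1) (PV.ln _ p.2.1) (D.Dg_ne_zero p.2.2 _)).1 =
      (CP.push (D.Dg ((p.1 : ℝ) : ℂ) 1) (PV.ln _ p.2.1) (D.Dg_ne_zero p.2.2 _)).1 := by
    intro p
    apply blP_mem D
    apply Mp.push_left
    rw [D.Jc_Dg]
    exact (blP_Mp D p.2.1).smul _
  refine homotopic_mk _ _ (fun p => ⟨⟨(PV.pr _ p.2.1,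
    CP.push (D.Dg ((p.1 : ℝ) : ℂ) 1) (PV.ln _ p.2.1) (D.Dg_ne_zero p.2.2 _)), hm p⟩,
    D.push_Dg_mem p.2.2 _⟩) ?_ ?_ ?_
  · refine Continuous.subtype_mk (Continuous.subtype_mk (Continuous.prodMk
      ((PV.pr _).continuous.comp (continuous_subtype_val.comp continuous_snd)) ?_) hm)
      (fun p => D.push_Dg_mem p.2.2 _)
    refine CP.continuous_push ?_
      ((PV.ln _).continuous.comp (continuous_subtype_val.comp continuous_snd)) _
    exact D.continuous_Dg.comp ((Complex.continuous_ofReal.comp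
      (continuous_subtype_val.comp continuous_fst)).prodMk continuous_const)
  · intro z
    apply Subtype.ext
    refine PV.ext _ rfl ?_
    refine D.push_Dg_zero ?_ (D.Dg_ne_zero z.2 _)
    simp
  · intro z
    apply Subtype.ext
    refine PV.ext _ rfl ?_
    refine D.push_Dg_one ?_ (D.Dg_ne_zero z.2 _)
    simp

/-- The projection from the center. -/
def rZ : C(UZ D X, X × CP κ) :=
  ⟨fun z => (z.1.1, CP.push D.Jᴴ z.1.2 z.2), (continuous_fst.comp continuous_subtype_val).prodMk
    (CP.continuous_push continuous_const (continuous_snd.comp continuous_subtype_val)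
      (fun z => z.2))⟩

/-- The blow down away from the center. -/
def betZ : C(VZ D X, UZ D X) :=
  ⟨fun z => ⟨bet D z.1, z.2⟩, Continuous.subtype_mk
    ((bet D).continuous.comp continuous_subtype_val) (fun z => z.2)⟩

/-- The inverse of the blow down away from the center. -/
def gamZ : C(UZ D X, VZ D X) :=
  ⟨fun z => ⟨PV.lift (blP D X) (rZ D) ((pr2 X (CP ι)).comp (sval (UZ D X)))
    (fun z => blP_mem D (Mp.push z.2)) z, z.2⟩, Continuous.subtype_mk
      (PV.lift (blP D X) (rZ D) ((pr2 X (CP ι)).comp (sval (UZ D X))) _).continuous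
      (fun z => z.2)⟩

theorem betZ_bij : Function.Bijective (T.map (betZ D (X := X))) := by
  refine T.map_bijective_of_inv (g := gamZ D) ?_ rfl
  ext1 z
  apply Subtype.ext
  refine PV.ext _ (Prod.ext rfl ?_) rfl
  exact (blP_Mp D z.1).eq z.2

/-- The blow down over the punctured affine part. -/
def betI : C(↥(VA D X ∩ VZ D X), ↥(UA D X ∩ UZ D X)) :=
  ⟨fun z => ⟨bet D z.1, z.2⟩, Continuous.subtype_mk
    ((bet D).continuous.comp continuous_subtype_val) (fun z => z.2)⟩

theorem betI_bij : Function.Bijective (T.map (betI D (X := X))) := by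
  refine T.map_bijective_of_inv (g := ⟨fun z => ⟨(gamZ D ⟨z.1, z.2.2⟩).1, z.2⟩, ?_⟩) ?_ rfl
  · exact Continuous.subtype_mk (continuous_subtype_val.comp ((gamZ D).continuous.comp
      (Continuous.subtype_mk continuous_subtype_val (fun z => z.2.2)))) (fun z => z.2)
  · ext1 z
    apply Subtype.ext
    refine PV.ext _ (Prod.ext rfl ?_) rfl
    exact (blP_Mp D z.1).eq z.2.2

/-- The blow down over the affine part. -/
def betA : C(VA D X, UA D X) :=
  ⟨fun z => ⟨bet D z.1, z.2⟩, Continuous.subtype_mk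
    ((bet D).continuous.comp continuous_subtype_val) (fun z => z.2)⟩

/-- A point in the intersection. -/
theorem Dec.exists_mid (i₀ : κ) : ∃ q₀ : CP ι, D.Kᴴ * q₀.1 ≠ 0 ∧ D.Jᴴ * q₀.1 ≠ 0 := by
  set c : Matrix κ (Fin 1) ℂ := EM fun _ => i₀ with hc
  have hcc : cᴴ * c = 1 := EM_conj_mul (Function.injective_of_subsingleton _)
  have hK : D.Kᴴ * (D.J * c + D.K) = 1 := by
    rw [Matrix.mul_add, ← Matrix.mul_assoc, D.KJ, D.KK, Matrix.zero_mul, zero_add]
  have hJ : D.Jᴴ * (D.J * c + D.K) = c := by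
    rw [Matrix.mul_add, ← Matrix.mul_assoc, D.JJ, D.JK, Matrix.one_mul, add_zero]
  have h0 : (D.J * c + D.K) * one1.1 ≠ 0 :=
    CP.mul_ne_zero_of_left_inv one_ne_zero (by rw [one_smul]; exact hK) one1
  refine ⟨CP.push (D.J * c + D.K) one1 h0, ?_, ?_⟩
  · refine CP.mul_push_ne_zero h0 ?_
    rw [hK, Matrix.one_mul]
    exact CP.ne_zero _
  · refine CP.mul_push_ne_zero h0 ?_
    rw [hJ]
    exact CP.mul_ne_zero_of_left_inv one_ne_zero (by rw [one_smul]; exact hcc) one1

theorem bet_inj (i₀ : κ) : Function.Injective (T.map (bet D (X := X))) := by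
  rw [injective_iff_map_eq_zero]
  intro y hy
  have S := D.sq (pr2 X (CP ι))
  have S' := D.sq (PV.ln (blP D X))
  have c1 : (incl (inter_subset_left : UA D X ∩ UZ D X ⊆ UA D X)).comp (betI D) =
    (betA D).comp (incl inter_subset_left) := rfl
  have c2 : (incl (inter_subset_right : UA D X ∩ UZ D X ⊆ UZ D X)).comp (betI D) =
    (betZ D).comp (incl inter_subset_right) := rfl
  have c3 : (sval (UA D X)).comp (betA D) = (bet D).comp (sval (VA D X)) := rfl
  have c4 : (sval (UZ D X)).comp (betZ D) = (bet D).comp (sval (VZ D X)) := rfl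
  have yZ : T.map (sval (UZ D X)) y = 0 := by
    apply (betZ_bij D).1
    rw [map_zero, T.map_map, c4, T.map_comp, hy, map_zero]
  have yA : T.map (sval (UA D X)) y = 0 := by
    obtain ⟨a, ha⟩ := (UA_bij D).2 (T.map (sval (UA D X)) y)
    obtain ⟨q₀, h1, h2⟩ := D.exists_mid i₀
    set s : C(X, ↥(UA D X ∩ UZ D X)) := ⟨fun x => ⟨(x, q₀), h1, h2⟩,
      Continuous.subtype_mk (continuous_id.prodMk continuous_const) (fun _ => ⟨h1, h2⟩)⟩ with hs
    have e1 : T.map (incl (inter_subset_left : UA D X ∩ UZ D X ⊆ UA D X))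
        (T.map (sval (UA D X)) y) = 0 := by
      rw [T.map_map, S.comm, T.map_comp, yZ, map_zero]
    rw [← ha, T.map_map] at e1
    have e2 := congrArg (T.map s) e1
    rw [T.map_map, map_zero] at e2
    have e3 : a = 0 := (T.map_id a).symm.trans e2
    rw [← ha, e3, map_zero]
  obtain ⟨a, ha⟩ := MVT.of_restrict S yA yZ
  have hb := ha.natural (betI D) (betA D) (betZ D) (bet D) c1 c2 c3 c4
  rw [hy] at hb
  obtain ⟨u, w, huw⟩ := hb.exact_I S'.comm
  obtain ⟨b, rfl⟩ := (VA_bij D).2 u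
  obtain ⟨w', rfl⟩ := (betZ_bij D).2 w
  have e1 : ((PV.pr (blP D X)).comp (sval (VA D X))).comp
      (incl (inter_subset_left : VA D X ∩ VZ D X ⊆ VA D X)) =
      ((rZ D).comp (incl (inter_subset_right : UA D X ∩ UZ D X ⊆ UZ D X))).comp (betI D) := by
    ext1 z
    refine Prod.ext rfl ?_
    exact ((blP_Mp D z.1).eq z.2.2).symm
  rw [T.map_map, T.map_map, e1, ← c2, T.map_comp _ (betI D), T.map_comp _ (betI D), ← map_sub]
    at huw
  have h3 := (betI_bij D).1 huw
  rw [T.map_comp, ← map_sub] at h3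
  rw [h3] at ha
  exact MVT.unique S ha (MVT.of_right _)

theorem map_xi_const (Y : Type) [TopologicalSpace Y] (q : CP ι) :
    T.map (ContinuousMap.const Y q) (xi ι) = 0 := by
  have e : ContinuousMap.const Y q =
      (ContinuousMap.const Unit q).comp (ContinuousMap.const Y ()) := rfl
  have h : H.pb (ContinuousMap.const Unit q) (xiH ι) = 0 := H.eq_zero_of_subsingleton 1 _
  rw [e, T.map_comp, xi, T.map_of, h, map_zero, map_zero]

include D in
/-- The induction step. -/
theorem LH_step (i₀ : κ) (n : ℕ)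
    (hn : LH (pr1 X (CP κ)) (T.map (pr2 X (CP κ)) (xi κ)) n) :
    LH (pr1 X (CP ι)) (T.map (pr2 X (CP ι)) (xi ι)) (n + 1) := by
  have S' := D.sq (PV.ln (blP D X))
  have h2 := LH_of_LHT LHT_two (blP D X)
  set π := PV.pr (blP D X) with hπ
  set h := PV.xi (blP D X) with hh
  set h' := T.map π (T.map (pr2 X (CP κ)) (xi κ)) with hh'
  -- vanishing of `h` on the affine part
  have sB : T.map (secB D) h = 0 := by
    rw [hh, PV.xi, T.map_map]
    exact map_xi_const _ _
  have hA : T.map (sval (VA D X)) h = 0 := by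
    obtain ⟨b, hb⟩ := (VA_bij D).2 (T.map (sval (VA D X)) h)
    have e2 := congrArg (T.map (secA D)) hb
    rw [T.map_map, T.map_map] at e2
    have e3 : T.map ((sval (VA D X)).comp (secA D)) h = 0 := sB
    rw [e3] at e2
    have e4 : b = 0 := (T.map_id b).symm.trans e2
    rw [← hb, e4, map_zero]
  -- `h = h'` on the rest
  have hZ : T.map (sval (VZ D X)) (h - h') = 0 := by
    rw [map_sub, sub_eq_zero, hh, hh', PV.xi, T.map_map, T.map_map, T.map_map]
    exact xi_natural _ _ (fun _ => D.Jᴴ) continuous_const (fun z => z.2)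
      (fun z => blP_Mp D z.1)
  have hmul : h * h = h' * h := by
    have h3 := T.mul_eq_zero_of S' hA hZ
    rw [mul_sub, sub_eq_zero] at h3
    rw [h3]
    exact T.comm_of_even (q := 2) even_two (PV.isHom_xi _) h'
  have hpow : ∀ k : ℕ, h ^ (k + 1) = h' ^ k * h := by
    intro k
    induction k with
    | zero => rw [zero_add, pow_one, pow_zero, one_mul]
    | succ k ih =>
      rw [pow_succ, ih, mul_assoc, hmul, ← mul_assoc, ← pow_succ]
  -- the pullback to the blow up
  have key : ∀ a : Fin (n + 1) → T X,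
      T.map (bet D) (∑ k : Fin (n + 1), T.map (pr1 X (CP ι)) (a k) *
        T.map (pr2 X (CP ι)) (xi ι) ^ (k : ℕ)) =
      ∑ j : Fin 2, T.map π ((![T.map (pr1 X (CP κ)) (a 0),
        ∑ k : Fin n, T.map (pr1 X (CP κ)) (a k.succ) *
          T.map (pr2 X (CP κ)) (xi κ) ^ (k : ℕ)] : Fin 2 → T (X × CP κ)) j) * h ^ (j : ℕ) := by
    intro a
    have e1 : (pr1 X (CP ι)).comp (bet D) = (pr1 X (CP κ)).comp π := rfl
    have e2 : (pr2 X (CP ι)).comp (bet D) = PV.ln (blP D X) := rfl
    have e3 : T.map (PV.ln (blP D X)) (xi ι) = h := rfl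
    rw [map_sum, Fin.sum_univ_succ, Fin.sum_univ_two]
    simp only [map_mul, map_pow, T.map_map, e1, e2, e3]
    simp only [Fin.coe_ofNat_eq_mod, Nat.zero_mod, pow_zero, mul_one, Fin.val_succ,
      Matrix.cons_val_zero, Matrix.cons_val_one, Nat.mod_succ, pow_one, map_sum,
      Finset.sum_mul, map_mul, map_pow, T.map_map]
    congr 1
    refine Finset.sum_congr rfl (fun k _ => ?_)
    rw [hpow, mul_assoc]
    rw [hh', T.map_map]
  have hinj1 : Function.Injective (T.map (pr1 X (CP κ))) := by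
    intro a b hab
    have h3 := congrArg (T.map (⟨fun x => (x, CP.pushC (EM fun _ : Fin 1 => i₀)
      (fun q => EM_ne_zero (Function.injective_of_subsingleton _) q) one1),
      by fun_prop⟩ : C(X, X × CP κ))) hab
    rw [T.map_map, T.map_map] at h3
    exact (T.map_id a).symm.trans (h3.trans (T.map_id b))
  constructor
  · intro a b hab
    have h3 := congrArg (T.map (bet D)) hab
    simp only at h3
    rw [key, key] at h3
    have h4 := h2.inj h3
    have h5 := congrFun h4 0
    have h6 := congrFun h4 1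
    simp only [Matrix.cons_val_zero, Matrix.cons_val_one] at h5 h6
    have h7 := hinj1 h5
    have h8 := hn.inj h6
    funext k
    refine Fin.cases h7 (fun k => ?_) k
    exact congrFun h8 k
  · intro y
    obtain ⟨c, hc⟩ := h2.2 (T.map (bet D) y)
    simp only at hc
    obtain ⟨d, hd⟩ := hn.2 (c 1)
    simp only at hd
    -- the zeroth coefficient
    have hc0 : c 0 = T.map (pr1 X (CP κ)) (T.map (⟨fun x => (x, D.pt), by fun_prop⟩ :
        C(X, X × CP ι)) y) := by
      have h3 := congrArg (T.map (secB D)) hc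
      rw [Fin.sum_univ_two] at h3
      simp only [Fin.coe_ofNat_eq_mod, Nat.zero_mod, pow_zero, mul_one, Nat.mod_succ, pow_one,
        map_add, map_mul, T.map_map] at h3
      have e5 : T.map (secB D) (PV.xi (blP D X)) = 0 := sB
      rw [e5, mul_zero, add_zero] at h3
      rw [T.map_map]
      exact (T.map_id _).symm.trans h3
    refine ⟨Fin.cons (T.map (⟨fun x => (x, D.pt), by fun_prop⟩ : C(X, X × CP ι)) y) d, ?_⟩
    apply bet_inj D i₀
    simp only
    rw [key, ← hc]
    refine Finset.sum_congr rfl (fun j _ => ?_)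
    congr 2
    refine Fin.cases ?_ (fun j => ?_) j
    · rw [Matrix.cons_val_zero, Fin.cons_zero, hc0]
    · rw [Fin.fin_one_eq_zero j]
      simp only [Fin.succ_zero_eq_one, Matrix.cons_val_one, Fin.cons_succ]
      exact hd

end Blow

/-- **The Leray–Hirsch theorem for `X × ℂP^{r-1}`.** -/
theorem LHT_all : ∀ r : ℕ, LHT r
  | 0 => LHT_zero
  | 1 => LHT_one
  | (n + 2) => fun X _ => LH_step (decLast (n + 1)) 0 (n + 1) (LHT_all (n + 1) X)

/-- **The Leray–Hirsch theorem for projective bundles.** -/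
theorem LH_PV {r : ℕ} {X : Type} [TopologicalSpace X] (p : PF r X ι) :
    LH (PV.pr p) (PV.xi p) r := LH_of_LHT (LHT_all r) p

end

end Pool.Agent.Lib.MP_904b2a_gt.H83
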