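import Pool.Agent.Lib.MP_904b2a_gt.H83.Chart

/-!
# MP_904b2a_gt: naturality of the class `ξ`
-/

open scoped BigOperators Matrix ComplexOrder
open Set Topology

set_option linter.unusedSectionVars false

namespace Pool.Agent.Lib.MP_904b2a_gt.H83

noncomputable section

variable {ι κ μ ν : Type} [Fintype ι] [DecidableEq ι] [Fintype κ] [DecidableEq κ]
  [Fintype μ] [DecidableEq μ] [Fintype ν] [DecidableEq ν]

namespace CP

/-- The linear map `A` sends the line `q` into the line `q'`. -/
def Mp (A : Matrix κ ι ℂ) (q : CP ι) (q' : CP κ) : Prop := q'.1 * (A * q.1) = A * q.1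

theorem Mp.push {B : Matrix κ ι ℂ} {q : CP ι} (h : B * q.1 ≠ 0) : Mp B q (push B q h) :=
  push_mul B q h

theorem Mp.one (q : CP ι) : Mp 1 q q := by
  rw [Mp, Matrix.one_mul, idem]

theorem Mp.comp {A : Matrix μ κ ℂ} {B : Matrix κ ι ℂ} {q : CP ι} {q' : CP κ} {q'' : CP μ}
    (h : Mp A q' q'') (h' : Mp B q q') : Mp (A * B) q q'' := by
  rw [Mp] at h h' ⊢
  rw [Matrix.mul_assoc, ← h', ← Matrix.mul_assoc A, ← Matrix.mul_assoc, h]

theorem Mp.congr {A B : Matrix κ ι ℂ} {q : CP ι} {q' : CP κ} (h : Mp A q q')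
    (e : A * q.1 = B * q.1) : Mp B q q' := by
  rw [Mp] at h ⊢
  rw [← e, h]

theorem Mp.eq {B : Matrix κ ι ℂ} {q : CP ι} {q' : CP κ} (h' : Mp B q q') (h : B * q.1 ≠ 0) :
    CP.push B q h = q' := push_eq h h'

theorem Mp.add {A B : Matrix κ ι ℂ} {q : CP ι} {q' : CP κ} (h : Mp A q q') (h' : Mp B q q') :
    Mp (A + B) q q' := by
  rw [Mp] at h h' ⊢
  rw [Matrix.add_mul, Matrix.mul_add, h, h']

theorem Mp.smul {A : Matrix κ ι ℂ} {q : CP ι} {q' : CP κ} (c : ℂ) (h : Mp A q q') :
    Mp (c • A) q q' := by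
  rw [Mp] at h ⊢
  rw [Matrix.smul_mul, Matrix.mul_smul, h]

/-- The inverse map. -/
theorem Mp.inv {B : Matrix κ ι ℂ} {C : Matrix ι κ ℂ} {q : CP ι} {q' : CP κ} (h : Mp B q q')
    (h0 : B * q.1 ≠ 0) (hC : C * (B * q.1) = q.1) : Mp C q' q := by
  rw [← h.eq h0, Mp, push_val, Matrix.mul_smul, ← Matrix.mul_assoc C, hC, Matrix.mul_smul,
    ← Matrix.mul_assoc q.1, idem]

theorem Mp.ne_zero_iff {A : Matrix μ κ ℂ} {B : Matrix κ ι ℂ} {q : CP ι} {q' : CP κ}
    (h : Mp B q q') (h0 : B * q.1 ≠ 0) : A * q'.1 ≠ 0 ↔ A * B * q.1 ≠ 0 := by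
  rw [← h.eq h0]
  exact ⟨mul_ne_zero_of_push h0, mul_push_ne_zero h0⟩

/-- If `B` is injective on `q`, the image of `q'` under a left inverse is nonzero. -/
theorem Mp.inv_ne_zero {B : Matrix κ ι ℂ} {C : Matrix ι κ ℂ} {q : CP ι} {q' : CP κ}
    (h : Mp B q q') (h0 : B * q.1 ≠ 0) (hC : C * (B * q.1) = q.1) : C * q'.1 ≠ 0 := by
  rw [h.ne_zero_iff h0, Matrix.mul_assoc, hC]
  exact ne_zero q

theorem EM_ne_zero {f : ι → κ} (hf : Function.Injective f) (q : CP ι) : EM f * q.1 ≠ 0 :=
  mul_ne_zero_of_left_inv one_ne_zero (by rw [one_smul]; exact EM_conj_mul hf) q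

/-- The map of projective spaces given by an injective map of the indices. -/
def pushE (f : ι → κ) (hf : Function.Injective f) : C(CP ι, CP κ) :=
  pushC (EM f) (EM_ne_zero hf)

theorem Mp_pushE {f : ι → κ} (hf : Function.Injective f) (q : CP ι) :
    Mp (EM f) q (pushE f hf q) := Mp.push (EM_ne_zero hf q)

theorem pushE_comp {g : κ → μ} {f : ι → κ} (hg : Function.Injective g)
    (hf : Function.Injective f) :
    (pushE g hg).comp (pushE f hf) = pushE (g ∘ f) (hg.comp hf) := by
  ext1 q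
  symm
  refine Mp.eq ?_ (EM_ne_zero (hg.comp hf) q)
  have h := (Mp_pushE hg (pushE f hf q)).comp (Mp_pushE hf q)
  rwa [EM_mul] at h

theorem pushE_id : pushE (id : ι → ι) Function.injective_id = ContinuousMap.id _ := by
  ext1 q
  refine Mp.eq ?_ (EM_ne_zero Function.injective_id q)
  rw [EM_id]
  exact Mp.one q

theorem pushE_congr {f g : ι → κ} (h : f = g) (hf : Function.Injective f)
    (hg : Function.Injective g) : pushE f hf = pushE g hg := by
  subst h
  rfl

/-- Maps into complementary subspaces are homotopic. -/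
theorem homotopic_disj {Y : Type} [TopologicalSpace Y] (q : C(Y, CP ι)) (q' : C(Y, CP κ))
    (A : Y → Matrix κ ι ℂ) (hA : Continuous A) (h0 : ∀ y, A y * (q y).1 ≠ 0)
    (h : ∀ y, Mp (A y) (q y) (q' y)) {f : ι → μ} {g : κ → μ} (hf : Function.Injective f)
    (hg : Function.Injective g) (hd : ∀ i j, f i ≠ g j) :
    ((pushE f hf).comp q).Homotopic ((pushE g hg).comp q') := by
  refine homotopic_push q _ _ (fun t y => ((1 - t : ℝ) : ℂ) • EM f + ((t : ℝ) : ℂ) •
    (EM g * A y)) ?_ ?_ ?_ ?_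
  · have c1 : Continuous (fun p : ℝ × Y => ((1 - p.1 : ℝ) : ℂ)) :=
      Complex.continuous_ofReal.comp (continuous_const.sub continuous_fst)
    have c2 : Continuous (fun p : ℝ × Y => ((p.1 : ℝ) : ℂ)) :=
      Complex.continuous_ofReal.comp continuous_fst
    have c3 : Continuous (fun p : ℝ × Y => EM g * A p.2) :=
      continuous_const.matrix_mul (hA.comp continuous_snd)
    exact (c1.smul continuous_const).add (c2.smul c3)
  · intro t _ y hz
    have h1 := congrArg (fun M => (EM f)ᴴ * M) hz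
    have h2 := congrArg (fun M => (EM g)ᴴ * M) hz
    simp only [Matrix.add_mul, Matrix.smul_mul, Matrix.mul_add, Matrix.mul_smul,
      ← Matrix.mul_assoc, EM_conj_mul hf, EM_conj_mul hg, Matrix.mul_zero, Matrix.one_mul,
      EM_conj_mul_zero hd, EM_conj_mul_zero (fun i j => (hd j i).symm), Matrix.zero_mul,
      smul_zero, add_zero, zero_add] at h1 h2
    rcases smul_eq_zero.1 h1 with h3 | h3
    · rcases smul_eq_zero.1 h2 with h4 | h4
      · have h5 : ((1 - t : ℝ) : ℂ) + ((t : ℝ) : ℂ) = 0 := by rw [h3, h4, add_zero]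
        rw [← Complex.ofReal_add] at h5
        have h6 : (1 - t + t : ℝ) = 0 := by exact_mod_cast h5
        linarith
      · exact h0 y h4
    · exact CP.ne_zero _ h3
  · intro y
    have h1 := Mp_pushE hf (q y)
    refine Mp.congr h1 ?_
    simp
  · intro y
    have h1 := (Mp_pushE hg (q' y)).comp (h y)
    refine Mp.congr h1 ?_
    simp

end CP

open CP

theorem xiF_castLE (a : ℕ) : ∀ b (h : a ≤ b),
    H.pb (pushE (Fin.castLE h) (Fin.castLE_injective h)) (xiF b) = xiF a := by
  refine Nat.le_induction ?_ ?_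
  · have e : pushE (Fin.castLE (le_refl a)) (Fin.castLE_injective _) =
        ContinuousMap.id (CP (Fin a)) := by
      rw [← pushE_id]
      exact pushE_congr (by ext x; rfl) _ _
    rw [e, H.pb_id]
  · intro b hb ih
    have e : pushE (Fin.castLE (hb.trans (Nat.le_succ b))) (Fin.castLE_injective _) =
        (pushE Fin.castSucc (Fin.castSucc_injective b)).comp
          (pushE (Fin.castLE hb) (Fin.castLE_injective hb)) := by
      rw [pushE_comp]
      exact pushE_congr (by ext x; rfl) _ _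
    have h2 : H.pb (pushE Fin.castSucc (Fin.castSucc_injective b)) (xiF (b + 1)) = xiF b :=
      xiF_succ b
    rw [e, ← H.pb_comp, h2, ih]

theorem xiF_inj {a b : ℕ} (f : Fin a → Fin b) (hf : Function.Injective f) :
    H.pb (pushE f hf) (xiF b) = xiF a := by
  have hab : a ≤ b := by
    have := Fintype.card_le_of_injective f hf
    rwa [Fintype.card_fin, Fintype.card_fin] at this
  have h1 := xiF_castLE b (b + a) (Nat.le_add_right b a)
  have h2 := xiF_castLE a (b + a) (Nat.le_add_left a b)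
  have hn : Function.Injective (Fin.natAdd b : Fin a → Fin (b + a)) :=
    Fin.natAdd_injective a b
  -- the two homotopies
  have k1 := homotopic_disj (ContinuousMap.id (CP (Fin a))) (ContinuousMap.id (CP (Fin a)))
    (fun _ => 1) continuous_const (fun q => by rw [Matrix.one_mul]; exact CP.ne_zero q)
    (fun q => Mp.one q) ((Fin.castLE_injective (Nat.le_add_right b a)).comp hf) hn
    (fun i j h => by
      have h5 := congrArg Fin.val h
      simp at h5
      have := (f i).2
      omega)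
  have k2 := homotopic_disj (ContinuousMap.id (CP (Fin a))) (ContinuousMap.id (CP (Fin a)))
    (fun _ => 1) continuous_const (fun q => by rw [Matrix.one_mul]; exact CP.ne_zero q)
    (fun q => Mp.one q) (Fin.castLE_injective (Nat.le_add_left a b)) hn
    (fun i j h => by
      have h5 := congrArg Fin.val h
      simp at h5
      have := i.2
      omega)
  rw [ContinuousMap.comp_id, ContinuousMap.comp_id] at k1 k2
  have e1 := H.pb_eq_of_homotopic k1 (xiF (b + a))
  have e2 := H.pb_eq_of_homotopic k2 (xiF (b + a))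
  rw [← h1, H.pb_comp, pushE_comp, e1, ← e2, h2]

/-- Naturality for the standard index types. -/
theorem xiF_natural {Y : Type} [TopologicalSpace Y] {n m : ℕ} (q : C(Y, CP (Fin n)))
    (q' : C(Y, CP (Fin m))) (A : Y → Matrix (Fin m) (Fin n) ℂ) (hA : Continuous A)
    (h0 : ∀ y, A y * (q y).1 ≠ 0) (h : ∀ y, Mp (A y) (q y) (q' y)) :
    H.pb q (xiF n) = H.pb q' (xiF m) := by
  have k := homotopic_disj q q' A hA h0 h (f := Fin.castAdd m) (g := Fin.natAdd n)
    (Fin.castAdd_injective n m) (Fin.natAdd_injective m n) (fun i j h => by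
      have h5 := congrArg Fin.val h
      simp at h5
      have := i.2
      omega)
  have e := H.pb_eq_of_homotopic k (xiF (n + m))
  rw [← H.pb_comp, ← H.pb_comp, xiF_inj, xiF_inj] at e
  exact e

/-- The class `ξ` of the projective space of lines of `ℂ^ι`. -/
def xiH (ι : Type) [Fintype ι] [DecidableEq ι] : H 2 (CP ι) ℤ :=
  H.pb (pushE (Fintype.equivFin ι) (Fintype.equivFin ι).injective) (xiF (Fintype.card ι))

theorem xiH_inj {a : ℕ} (f : ι → Fin a) (hf : Function.Injective f) :
    H.pb (pushE f hf) (xiF a) = xiH ι := by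
  symm
  refine xiF_natural _ _ (fun _ => EM f * (EM (Fintype.equivFin ι))ᴴ) continuous_const ?_ ?_
  · intro q
    have hi := (Fintype.equivFin ι).injective
    rw [(Mp_pushE hi q).ne_zero_iff (EM_ne_zero hi q), Matrix.mul_assoc (EM f),
      EM_conj_mul hi, Matrix.mul_one]
    exact EM_ne_zero hf q
  · intro q
    have hi := (Fintype.equivFin ι).injective
    refine (Mp_pushE hf q).comp ((Mp_pushE hi q).inv (EM_ne_zero hi q) ?_)
    rw [← Matrix.mul_assoc, EM_conj_mul hi, Matrix.one_mul]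

/-- The class `ξ` in the total cohomology. -/
def xi (ι : Type) [Fintype ι] [DecidableEq ι] : T (CP ι) := T.of 2 (xiH ι)

theorem isHom_xi : T.IsHom 2 (xi ι) := T.isHom_of _ _

/-- **Naturality of `ξ`.** -/
theorem xi_natural {Y : Type} [TopologicalSpace Y] (q : C(Y, CP ι)) (q' : C(Y, CP κ))
    (A : Y → Matrix κ ι ℂ) (hA : Continuous A) (h0 : ∀ y, A y * (q y).1 ≠ 0)
    (h : ∀ y, Mp (A y) (q y) (q' y)) : T.map q (xi ι) = T.map q' (xi κ) := by
  set e := Fintype.equivFin (ι ⊕ κ) with he
  have hf : Function.Injective (e ∘ Sum.inl : ι → Fin (Fintype.card (ι ⊕ κ))) :=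
    e.injective.comp Sum.inl_injective
  have hg : Function.Injective (e ∘ Sum.inr : κ → Fin (Fintype.card (ι ⊕ κ))) :=
    e.injective.comp Sum.inr_injective
  have k := homotopic_disj q q' A hA h0 h hf hg (fun i j h => by
    exact Sum.inl_ne_inr (e.injective h))
  have e1 := H.pb_eq_of_homotopic k (xiF (Fintype.card (ι ⊕ κ)))
  rw [← H.pb_comp, ← H.pb_comp, xiH_inj, xiH_inj] at e1
  rw [xi, xi, T.map_of, T.map_of, e1]

theorem xiH_fin (n : ℕ) : xiH (Fin n) = xiF n := by
  rw [← xiH_inj id Function.injective_id, pushE_id, H.pb_id]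

end

end Pool.Agent.Lib.MP_904b2a_gt.H83
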